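import Pool.Agent.Helper1.HK.Base

set_option autoImplicit false

/-!
# Module ADF : the almost disjoint family and measurability
-/

namespace Pool.Agent.HK

open Filter Topology Set MeasureTheory

/-- code of the initial segment of length `n` of `a` -/
noncomputable def code (a : ℕ → Bool) (n : ℕ) : ℕ := Encodable.encode ((List.range n).map a)

/-- the branch of `a` -/
def Br (a : ℕ → Bool) : Set ℕ := Set.range (code a)

lemma adf_code_inj {a b : ℕ → Bool} {n m : ℕ} (h : code a n = code b m) :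
    n = m ∧ ∀ i, i < n → a i = b i := by
  have h1 : (List.range n).map a = (List.range m).map b := Encodable.encode_injective h
  have h2 : n = m := by simpa using congrArg List.length h1
  subst h2
  refine ⟨rfl, fun i hi => ?_⟩
  rw [List.map_inj_left] at h1
  exact h1 i (List.mem_range.2 hi)

theorem Br_diff_infinite {a b : ℕ → Bool} (h : a ≠ b) : (Br a \ Br b).Infinite := by
  obtain ⟨i0, hi0⟩ := Function.ne_iff.1 h
  refine Set.infinite_of_injective_forall_mem (f := fun n => code a (i0 + 1 + n)) ?_ ?_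
  · intro n m hnm
    have := (adf_code_inj hnm).1
    omega
  · intro n
    refine ⟨⟨_, rfl⟩, ?_⟩
    rintro ⟨m, hm⟩
    exact hi0 ((adf_code_inj hm.symm).2 i0 (by omega))

lemma adf_measurableSet_code (n m : ℕ) : MeasurableSet {c : ℕ → Bool | code c n = m} := by
  have h1 : Measurable (fun (c : ℕ → Bool) (i : Fin n) => c i) := by
    rw [measurable_pi_iff]
    intro i
    exact measurable_pi_apply _
  have h2 : MeasurableSet {g : Fin n → Bool |
      Encodable.encode ((List.finRange n).map g) = m} := (Set.toFinite _).measurableSet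
  have h3 := h1 h2
  convert h3 using 1
  ext c
  simp only [Set.mem_preimage, Set.mem_ofPred_eq, code]
  rw [← List.map_coe_finRange_eq_range, List.map_map]
  rfl

theorem measurableSet_E (φ : (ℕ → ℕ) → (ℕ → Bool)) (hφ : Measurable φ) :
    MeasurableSet {z : ((ℕ → ℕ) × P) × ((ℕ → ℕ) × P) |
      φ z.1.1 = φ z.2.1 ∧ FT (Br (φ z.1.1)) z.1.2 z.2.2} := by
  have e1 : MeasurableSet {z : ((ℕ → ℕ) × P) × ((ℕ → ℕ) × P) | φ z.1.1 = φ z.2.1} := by
    have : {z : ((ℕ → ℕ) × P) × ((ℕ → ℕ) × P) | φ z.1.1 = φ z.2.1} =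
        ⋂ i : ℕ, (fun z : ((ℕ → ℕ) × P) × ((ℕ → ℕ) × P) => (φ z.1.1 i, φ z.2.1 i)) ⁻¹'
          {p : Bool × Bool | p.1 = p.2} := by
      ext z
      simp only [Set.mem_iInter, Set.mem_preimage, Set.mem_ofPred_eq]
      exact funext_iff
    rw [this]
    refine MeasurableSet.iInter fun i => ?_
    refine Measurable.prodMk ?_ ?_ (Set.toFinite _).measurableSet
    · exact (measurable_pi_apply i).comp (hφ.comp (measurable_fst.comp measurable_fst))
    · exact (measurable_pi_apply i).comp (hφ.comp (measurable_fst.comp measurable_snd))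
  have e2 : ∀ m : ℕ, MeasurableSet {z : ((ℕ → ℕ) × P) × ((ℕ → ℕ) × P) |
      m ∈ Br (φ z.1.1)} := by
    intro m
    have : {z : ((ℕ → ℕ) × P) × ((ℕ → ℕ) × P) | m ∈ Br (φ z.1.1)} =
        ⋃ n : ℕ, (fun z : ((ℕ → ℕ) × P) × ((ℕ → ℕ) × P) => φ z.1.1) ⁻¹'
          {c : ℕ → Bool | code c n = m} := by
      ext z
      simp [Br]
    rw [this]
    refine MeasurableSet.iUnion fun n => ?_
    exact (hφ.comp (measurable_fst.comp measurable_fst)) (adf_measurableSet_code n m)
  have e3 : ∀ j m : ℕ, MeasurableSet {z : ((ℕ → ℕ) × P) × ((ℕ → ℕ) × P) |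
      cl j m (z.1.2 m) (z.2.2 m)} := by
    intro j m
    have h1 : Measurable (fun z : ((ℕ → ℕ) × P) × ((ℕ → ℕ) × P) => (z.1.2 m, z.2.2 m)) := by
      refine Measurable.prodMk ?_ ?_
      · exact (measurable_pi_apply m).comp (measurable_snd.comp measurable_fst)
      · exact (measurable_pi_apply m).comp (measurable_snd.comp measurable_snd)
    exact h1 (Set.toFinite {p : Blk m × Blk m | cl j m p.1 p.2}).measurableSet
  have key : {z : ((ℕ → ℕ) × P) × ((ℕ → ℕ) × P) |
      φ z.1.1 = φ z.2.1 ∧ FT (Br (φ z.1.1)) z.1.2 z.2.2} =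
      {z : ((ℕ → ℕ) × P) × ((ℕ → ℕ) × P) | φ z.1.1 = φ z.2.1} ∩
        ⋂ j : ℕ, ⋂ _ : 1 ≤ j, ⋃ M : ℕ, ⋂ m : ℕ, ⋂ _ : M ≤ m,
          ({z : ((ℕ → ℕ) × P) × ((ℕ → ℕ) × P) | m ∈ Br (φ z.1.1)}ᶜ ∪
            {z : ((ℕ → ℕ) × P) × ((ℕ → ℕ) × P) | cl j m (z.1.2 m) (z.2.2 m)}) := by
    ext z
    simp only [Set.mem_inter_iff, Set.mem_iInter, Set.mem_iUnion, Set.mem_union,
      Set.mem_compl_iff, Set.mem_ofPred_eq, FT, ← imp_iff_not_or]
  rw [key]
  refine e1.inter (MeasurableSet.iInter fun j => MeasurableSet.iInter fun _ =>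
    MeasurableSet.iUnion fun M => MeasurableSet.iInter fun m => MeasurableSet.iInter fun _ => ?_)
  exact (e2 m).compl.union (e3 j m)

end Pool.Agent.HK
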