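import Pool.Agent.Helper1.HK.Base

set_option autoImplicit false
set_option linter.unusedSectionVars false

/-!
# Module AFL: fusion construction of a pair `x`, `y`
-/

namespace Pool.Agent.HK

open Filter Topology Set MeasureTheory

section afl

variable {A : ℕ → Type} [∀ i, TopologicalSpace (A i)] [∀ i, DiscreteTopology (A i)]
    [∀ i, Countable (A i)]

/-- state of the fusion construction -/
structure AflSt (A : ℕ → Type) where
  a : ∀ i, A i
  b : ∀ i, A i
  L : ℕ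
  M : ℕ

/-- invariant of the fusion construction -/
structure AflInv (f : (∀ i, A i) → P) (T : Set ℕ) (O : ∀ m, Blk m → Set (∀ i, A i))
    (D : ℕ → Set (∀ i, A i)) (k : ℕ) (s : AflSt A) : Prop where
  close : ∀ᶠ w in residual (∀ i, A i), ∀ m, s.M ≤ m → m ∈ T →
    cl (2 * (k + 1)) m (f (spl s.L s.a w) m) (f (spl s.L s.b w) m)
  deca : ∀ m, m < s.M → cyl s.L s.a ⊆ O m (f s.a m)
  decb : ∀ m, m < s.M → cyl s.L s.b ⊆ O m (f s.b m)
  Da : cyl s.L s.a ⊆ D k
  Db : cyl s.L s.b ⊆ D k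
  M_ge : 2 * (k + 1) ≤ s.M

/-- relation between consecutive states -/
structure AflRel (f : (∀ i, A i) → P) (T : Set ℕ) (Good : ℕ → ∀ n, A n → A n → Prop)
    (k : ℕ) (s s' : AflSt A) (n : ℕ) : Prop where
  Ln : s.L ≤ n
  nL : n < s'.L
  ea : ∀ i, i < s.L → s'.a i = s.a i
  eb : ∀ i, i < s.L → s'.b i = s.b i
  good : Good k n (s'.a n) (s'.b n)
  eab : ∀ i, s.L ≤ i → i < s'.L → i ≠ n → s'.a i = s'.b i
  cl : ∀ m, s.M ≤ m → m < s'.M → m ∈ T → cl (k + 1) m (f s'.a m) (f s'.b m)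

/-- choice of a common tail deciding finitely many values -/
theorem afl_finish [BaireSpace (∀ i, A i)] (f : (∀ i, A i) → P)
    (O : ∀ m, Blk m → Set (∀ i, A i))
    (hO : ∀ m y, IsOpen (O m y)) (hOC : ∀ᶠ x in residual (∀ i, A i), ∀ m y, f x m = y ↔ x ∈ O m y)
    (D : Set (∀ i, A i)) (hDo : IsOpen D) (hDd : Dense D) (a b : ∀ i, A i) (L M : ℕ)
    (Φ : (∀ i, A i) → Prop) (hΦ : ∀ᶠ w in residual (∀ i, A i), Φ w) :
    ∃ (w : ∀ i, A i) (L' : ℕ), L ≤ L' ∧ Φ w ∧
      (∀ m, m < M → cyl L' (spl L a w) ⊆ O m (f (spl L a w) m)) ∧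
      (∀ m, m < M → cyl L' (spl L b w) ⊆ O m (f (spl L b w) m)) ∧
      cyl L' (spl L a w) ⊆ D ∧ cyl L' (spl L b w) ⊆ D := by
  have hDr : ∀ᶠ x in residual (∀ i, A i), x ∈ D := residual_of_dense_open hDo hDd
  have hall : ∀ᶠ w in residual (∀ i, A i), Φ w ∧
      (∀ m y, f (spl L a w) m = y ↔ spl L a w ∈ O m y) ∧
      (∀ m y, f (spl L b w) m = y ↔ spl L b w ∈ O m y) ∧ spl L a w ∈ D ∧ spl L b w ∈ D := by
    filter_upwards [hΦ, (tendsto_spl L a).eventually hOC, (tendsto_spl L b).eventually hOC,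
      (tendsto_spl L a).eventually hDr, (tendsto_spl L b).eventually hDr] with w h1 h2 h3 h4 h5
    exact ⟨h1, h2, h3, h4, h5⟩
  have : Nonempty (∀ i, A i) := ⟨a⟩
  obtain ⟨w, h1, h2, h3, h4, h5⟩ := (dense_of_mem_residual hall).nonempty
  have key : ∀ x : ∀ i, A i, (∀ m y, f x m = y ↔ x ∈ O m y) → x ∈ D →
      ∃ L', L ≤ L' ∧ (∀ m, m < M → cyl L' x ⊆ O m (f x m)) ∧ cyl L' x ⊆ D := by
    intro x hx hxD
    have ho : IsOpen (D ∩ ⋂ m ∈ Finset.range M, O m (f x m)) :=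
      hDo.inter (isOpen_biInter_finset fun m _ => hO m _)
    have hmem : x ∈ D ∩ ⋂ m ∈ Finset.range M, O m (f x m) :=
      ⟨hxD, by simp only [mem_iInter]; exact fun m _ => (hx m _).mp rfl⟩
    obtain ⟨L', hL', hsub⟩ := exists_cyl_subset_ge ho hmem L
    refine ⟨L', hL', fun m hm y hy => ?_, fun y hy => (hsub hy).1⟩
    have := (hsub hy).2
    simp only [mem_iInter] at this
    exact this m (Finset.mem_range.mpr hm)
  obtain ⟨L1, hL1, h6, h7⟩ := key _ h2 h4
  obtain ⟨L2, hL2, h8, h9⟩ := key _ h3 h5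
  have hmono : ∀ (x : ∀ i, A i) (N N' : ℕ), N ≤ N' → cyl N' x ⊆ cyl N x :=
    fun x N N' h y hy i hi => hy i (lt_of_lt_of_le hi h)
  refine ⟨w, max L1 L2, le_trans hL1 (le_max_left _ _), h1, ?_, ?_, ?_, ?_⟩
  · exact fun m hm => (hmono _ _ _ (le_max_left _ _)).trans (h6 m hm)
  · exact fun m hm => (hmono _ _ _ (le_max_right _ _)).trans (h8 m hm)
  · exact (hmono _ _ _ (le_max_left _ _)).trans h7
  · exact (hmono _ _ _ (le_max_right _ _)).trans h9

theorem afl_step [BaireSpace (∀ i, A i)] (f : (∀ i, A i) → P) (hf : BMf f) (T : Set ℕ)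
    (C : Set (∀ i, A i)) (hC : C ∈ residual (∀ i, A i))
    (hfin : ∀ x ∈ C, ∀ y ∈ C, (∃ N, ∀ i, N ≤ i → x i = y i) → FT T (f x) (f y))
    (Good : ℕ → ∀ n, A n → A n → Prop)
    (hG : ∀ (j k : ℕ), 1 ≤ j → ∀ (b : ∀ i, A i) (L : ℕ),
      ∃ (b' : ∀ i, A i) (L' n : ℕ) (v v' : A n), L ≤ n ∧ n < L' ∧
        (∀ i, i < L → b' i = b i) ∧ Good k n v v' ∧
        ∀ᶠ w in residual (∀ i, A i), ∀ m, m ∈ T →
          cl j m (f (spl L' (Function.update b' n v) w) m)
            (f (spl L' (Function.update b' n v') w) m))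
    (O : ∀ m, Blk m → Set (∀ i, A i))
    (hO : ∀ m y, IsOpen (O m y)) (hOC : ∀ᶠ x in residual (∀ i, A i), ∀ m y, f x m = y ↔ x ∈ O m y)
    (D : ℕ → Set (∀ i, A i)) (hDo : ∀ k, IsOpen (D k)) (hDd : ∀ k, Dense (D k))
    (k : ℕ) (s : AflSt A) (hs : AflInv f T O D k s) :
    ∃ (s' : AflSt A) (n : ℕ), AflInv f T O D (k + 1) s' ∧ AflRel f T Good k s s' n := by
  obtain ⟨b1, L1, n, v, v', hLn, hnL, hb1, hgood, hcl⟩ := hG (2 * (k + 1)) k (by omega) s.b s.L
  have hLL1 : s.L ≤ L1 := by omega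
  set a2 : ∀ i, A i := Function.update (spl s.L s.a b1) n v with ha2
  set b2 : ∀ i, A i := Function.update b1 n v' with hb2
  -- closeness at scale `k + 1`
  have hX : ∀ᶠ w in residual (∀ i, A i), ∀ m, s.M ≤ m → m ∈ T →
      cl (k + 1) m (f (spl L1 a2 w) m) (f (spl L1 b2 w) m) := by
    filter_upwards [hcl, (tendsto_spl L1 (Function.update b1 n v)).eventually hs.close]
      with w h1 h2 m hm hT
    have e1 : spl s.L s.a (spl L1 (Function.update b1 n v) w) = spl L1 a2 w := by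
      rw [spl_spl hLL1, ← update_spl_ge hLn]
    have e2 : spl s.L s.b (spl L1 (Function.update b1 n v) w)
        = spl L1 (Function.update b1 n v) w := by
      rw [spl_spl hLL1, ← update_spl_ge hLn, spl_of_mem_cyl (L := s.L) (a := s.b) (x := b1) hb1]
    have h3 := h2 m hm hT
    rw [e1, e2] at h3
    have hMk := hs.M_ge
    exact cl_tri (by omega) (le_trans (by omega) (le_K m)) h3 (h1 m hT)
  -- closeness at scale `2 * (k + 2)` from some point on
  let W : ℕ → Set (∀ i, A i) := fun M =>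
    {w | ∀ m, M ≤ m → m ∈ T → cl (2 * (k + 1 + 1)) m (f (spl L1 a2 w) m) (f (spl L1 b2 w) m)}
  have hW : ∀ M, BaireMeasurableSet (W M) := fun M =>
    baireMeasurable_forall_cl (hf.comp_open (continuous_spl L1 a2) (isOpenMap_spl L1 a2))
      (hf.comp_open (continuous_spl L1 b2) (isOpenMap_spl L1 b2)) T _ M
  have hcov : ∀ᶠ w in residual (∀ i, A i), ∃ M, w ∈ W M := by
    filter_upwards [(tendsto_spl L1 a2).eventually hC, (tendsto_spl L1 b2).eventually hC]
      with w h1 h2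
    exact hfin _ h1 _ h2 ⟨L1, fun i hi => by rw [spl_ge hi, spl_ge hi]⟩ _ (by omega)
  obtain ⟨M2, c, L2, hL2, _, _, hc⟩ := exists_cyl_of_cover W hW hcov a2 L1 0
  -- the common tail
  have hΦ : ∀ᶠ w in residual (∀ i, A i), ∀ m, s.M ≤ m → m ∈ T →
      cl (k + 1) m (f (spl L2 (spl L1 a2 c) w) m) (f (spl L2 (spl L1 b2 c) w) m) := by
    filter_upwards [(tendsto_spl L2 c).eventually hX] with w hw
    rw [← spl_spl hL2, ← spl_spl hL2]
    exact hw
  obtain ⟨w0, L3, hL3, h1, h2, h3, h4, h5⟩ := afl_finish f O hO hOC (D (k + 1)) (hDo _) (hDd _)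
    (spl L1 a2 c) (spl L1 b2 c) L2 (max M2 (2 * (k + 1 + 1))) _ hΦ
  have ea : ∀ i, i < L1 → spl L2 (spl L1 a2 c) w0 i = a2 i := fun i hi => by
    rw [spl_lt (by omega), spl_lt hi]
  have eb : ∀ i, i < L1 → spl L2 (spl L1 b2 c) w0 i = b2 i := fun i hi => by
    rw [spl_lt (by omega), spl_lt hi]
  refine ⟨⟨spl L2 (spl L1 a2 c) w0, spl L2 (spl L1 b2 c) w0, L3, max M2 (2 * (k + 1 + 1))⟩, n,
    ⟨?_, h2, h3, h4, h5, le_max_right _ _⟩, ⟨hLn, by change n < L3; omega, ?_, ?_, ?_, ?_, ?_⟩⟩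
  · filter_upwards [(tendsto_spl L3 w0).eventually hc] with w hw m hm hT
    have hm' : M2 ≤ m := le_trans (le_max_left _ _) hm
    have h6 := hw m hm' hT
    rw [spl_spl hL2, spl_spl hL2, spl_spl hL3, spl_spl hL3] at h6
    exact h6
  · intro i hi
    change spl L2 (spl L1 a2 c) w0 i = s.a i
    rw [ea i (by omega), ha2, Function.update_of_ne (by omega), spl_lt hi]
  · intro i hi
    change spl L2 (spl L1 b2 c) w0 i = s.b i
    rw [eb i (by omega), hb2, Function.update_of_ne (by omega), hb1 i hi]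
  · change Good k n (spl L2 (spl L1 a2 c) w0 n) (spl L2 (spl L1 b2 c) w0 n)
    rw [ea n hnL, eb n hnL, ha2, hb2, Function.update_self, Function.update_self]
    exact hgood
  · intro i hi _ hin
    change spl L2 (spl L1 a2 c) w0 i = spl L2 (spl L1 b2 c) w0 i
    by_cases h6 : i < L1
    · rw [ea i h6, eb i h6, ha2, hb2, Function.update_of_ne hin, Function.update_of_ne hin,
        spl_ge hi]
    · by_cases h7 : i < L2
      · rw [spl_lt h7, spl_lt h7, spl_ge (by omega), spl_ge (by omega)]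
      · rw [spl_ge (by omega), spl_ge (by omega)]
  · intro m hm _ hT
    exact h1 m hm hT

theorem afl_aux [BaireSpace (∀ i, A i)] (f : (∀ i, A i) → P) (hf : BMf f) (T : Set ℕ)
    (C : Set (∀ i, A i)) (hC : C ∈ residual (∀ i, A i)) (a0 : ∀ i, A i)
    (hfin : ∀ x ∈ C, ∀ y ∈ C, (∃ N, ∀ i, N ≤ i → x i = y i) → FT T (f x) (f y))
    (Good : ℕ → ∀ n, A n → A n → Prop)
    (hG : ∀ (j k : ℕ), 1 ≤ j → ∀ (b : ∀ i, A i) (L : ℕ),
      ∃ (b' : ∀ i, A i) (L' n : ℕ) (v v' : A n), L ≤ n ∧ n < L' ∧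
        (∀ i, i < L → b' i = b i) ∧ Good k n v v' ∧
        ∀ᶠ w in residual (∀ i, A i), ∀ m, m ∈ T →
          cl j m (f (spl L' (Function.update b' n v) w) m)
            (f (spl L' (Function.update b' n v') w) m)) :
    ∃ x ∈ C, ∃ y ∈ C, FT T (f x) (f y) ∧ ∃ nn : ℕ → ℕ, StrictMono nn ∧
      (∀ k, Good k (nn k) (x (nn k)) (y (nn k))) ∧ ∀ i, i ∉ Set.range nn → x i = y i := by
  obtain ⟨O, hO, hOC⟩ := exists_decide hf
  -- countably many dense open sets
  obtain ⟨D, hDo, hDd, hDC⟩ : ∃ D : ℕ → Set (∀ i, A i), (∀ k, IsOpen (D k)) ∧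
      (∀ k, Dense (D k)) ∧ ∀ x, (∀ k, x ∈ D k) → x ∈ C ∧ ∀ m y, f x m = y ↔ x ∈ O m y := by
    have h1 : C ∩ {x | ∀ m y, f x m = y ↔ x ∈ O m y} ∈ residual (∀ i, A i) :=
      inter_mem hC hOC
    obtain ⟨S, hSo, hSd, hSc, hSs⟩ := mem_residual_iff.mp h1
    obtain ⟨D, hD⟩ := (hSc.insert univ).exists_eq_range (insert_nonempty _ _)
    have hDm : ∀ k, D k ∈ insert univ S := fun k => hD ▸ mem_range_self k
    refine ⟨D, fun k => ?_, fun k => ?_, fun x hx => ?_⟩
    · rcases hDm k with h | h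
      · rw [h]; exact isOpen_univ
      · exact hSo _ h
    · rcases hDm k with h | h
      · rw [h]; exact dense_univ
      · exact hSd _ h
    · refine hSs ?_
      intro t ht
      have : t ∈ range D := hD ▸ mem_insert_of_mem _ ht
      obtain ⟨k, rfl⟩ := this
      exact hx k
  -- initial state
  obtain ⟨s0, hs0, hs0e⟩ : ∃ s0 : AflSt A, AflInv f T O D 0 s0 ∧ ∀ i, s0.a i = s0.b i := by
    obtain ⟨w0, L3, hL3, h1, h2, h3, h4, h5⟩ := afl_finish f O hO hOC (D 0) (hDo _) (hDd _)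
      a0 a0 0 2 (fun _ => True) (Eventually.of_forall fun _ => trivial)
    refine ⟨⟨spl 0 a0 w0, spl 0 a0 w0, L3, 2⟩, ⟨?_, h2, h3, h4, h5, by simp⟩, fun i => rfl⟩
    exact Eventually.of_forall fun w m _ _ => cl_refl _ _ _
  choose nxt nn hnxt hrel using
    afl_step f hf T C hC hfin Good hG O hO hOC D hDo hDd
  let S : ∀ k, {s : AflSt A // AflInv f T O D k s} := fun k =>
    Nat.rec ⟨s0, hs0⟩ (fun k s => ⟨nxt k s.1 s.2, hnxt k s.1 s.2⟩) k
  let s : ℕ → AflSt A := fun k => (S k).1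
  have hs : ∀ k, AflInv f T O D k (s k) := fun k => (S k).2
  let N : ℕ → ℕ := fun k => nn k (s k) (hs k)
  have hR : ∀ k, AflRel f T Good k (s k) (s (k + 1)) (N k) := fun k => hrel k (s k) (hs k)
  clear_value N
  have hs0' : s 0 = s0 := rfl
  clear_value s
  clear S
  -- lengths
  have hLs : ∀ k, (s k).L < (s (k + 1)).L := fun k => lt_of_le_of_lt (hR k).Ln (hR k).nL
  have hLmono : StrictMono fun k => (s k).L := strictMono_nat_of_lt_succ hLs
  have hLk : ∀ k, k ≤ (s k).L := fun k => hLmono.id_le k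
  have staba : ∀ k k', k ≤ k' → ∀ i, i < (s k).L → (s k').a i = (s k).a i := by
    intro k k' hkk'
    induction k', hkk' using Nat.le_induction with
    | base => intro i _; rfl
    | succ l hl ih =>
      intro i hi
      rw [(hR l).ea i (lt_of_lt_of_le hi (hLmono.monotone hl)), ih i hi]
  have stabb : ∀ k k', k ≤ k' → ∀ i, i < (s k).L → (s k').b i = (s k).b i := by
    intro k k' hkk'
    induction k', hkk' using Nat.le_induction with
    | base => intro i _; rfl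
    | succ l hl ih =>
      intro i hi
      rw [(hR l).eb i (lt_of_lt_of_le hi (hLmono.monotone hl)), ih i hi]
  let x : ∀ i, A i := fun i => (s (i + 1)).a i
  let y : ∀ i, A i := fun i => (s (i + 1)).b i
  have hx : ∀ k, x ∈ cyl (s k).L (s k).a := by
    intro k i hi
    rcases le_total k (i + 1) with h | h
    · exact staba k (i + 1) h i hi
    · exact (staba (i + 1) k h i (lt_of_lt_of_le (Nat.lt_succ_self i) (hLk (i + 1)))).symm
  have hy : ∀ k, y ∈ cyl (s k).L (s k).b := by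
    intro k i hi
    rcases le_total k (i + 1) with h | h
    · exact stabb k (i + 1) h i hi
    · exact (stabb (i + 1) k h i (lt_of_lt_of_le (Nat.lt_succ_self i) (hLk (i + 1)))).symm
  obtain ⟨hxC, hxO⟩ := hDC x fun k => (hs k).Da (hx k)
  obtain ⟨hyC, hyO⟩ := hDC y fun k => (hs k).Db (hy k)
  have hfx : ∀ k m, m < (s k).M → f x m = f (s k).a m := fun k m hm =>
    (hxO m _).mpr ((hs k).deca m hm (hx k))
  have hfy : ∀ k m, m < (s k).M → f y m = f (s k).b m := fun k m hm =>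
    (hyO m _).mpr ((hs k).decb m hm (hy k))
  refine ⟨x, hxC, y, hyC, ?_, N, ?_, ?_, ?_⟩
  · intro j hj
    refine ⟨(s j).M, fun m hm hT => ?_⟩
    have hex : ∃ k, j ≤ k ∧ m < (s k).M := by
      refine ⟨max j m, le_max_left _ _, ?_⟩
      have := (hs (max j m)).M_ge
      have := le_max_right j m
      omega
    classical
    have h1 := Nat.find_spec hex
    have h2 : ∀ k, k < Nat.find hex → ¬ (j ≤ k ∧ m < (s k).M) := fun k hk => Nat.find_min hex hk
    generalize Nat.find hex = k' at h1 h2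
    obtain ⟨h3, h4⟩ := h1
    rcases Nat.eq_or_lt_of_le h3 with h5 | h5
    · subst h5
      omega
    · obtain ⟨k, rfl⟩ : ∃ k, k' = k + 1 := ⟨k' - 1, by omega⟩
      have h6 : (s k).M ≤ m := by
        by_contra h7
        exact h2 k (Nat.lt_succ_self k) ⟨by omega, by omega⟩
      have h7 := (hR k).cl m h6 h4 hT
      rw [← hfx (k + 1) m h4, ← hfy (k + 1) m h4] at h7
      exact cl_mono hj (by omega) h7
  · exact strictMono_nat_of_lt_succ fun k => lt_of_lt_of_le (hR k).nL (hR (k + 1)).Ln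
  · intro k
    rw [hx (k + 1) (N k) (hR k).nL, hy (k + 1) (N k) (hR k).nL]
    exact (hR k).good
  · intro i hi
    have h1 : ∀ k, i < (s k).L → (s k).a i = (s k).b i := by
      intro k
      induction k with
      | zero => intro _; rw [hs0']; exact hs0e i
      | succ k ih =>
        intro hik
        by_cases h2 : i < (s k).L
        · rw [(hR k).ea i h2, (hR k).eb i h2, ih h2]
        · exact (hR k).eab i (not_lt.mp h2) hik fun h3 => hi ⟨k, h3.symm⟩
    exact h1 (i + 1) (lt_of_lt_of_le (Nat.lt_succ_self i) (hLk (i + 1)))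

end afl

theorem afl {A : ℕ → Type} [∀ i, TopologicalSpace (A i)] [∀ i, DiscreteTopology (A i)]
    [∀ i, Countable (A i)] (f : (∀ i, A i) → P) (hf : BMf f) (T : Set ℕ)
    (C : Set (∀ i, A i)) (hC : C ∈ residual (∀ i, A i)) (a0 : ∀ i, A i)
    (hfin : ∀ x ∈ C, ∀ y ∈ C, (∃ N, ∀ i, N ≤ i → x i = y i) → FT T (f x) (f y))
    (Good : ℕ → ∀ n, A n → A n → Prop)
    (hG : ∀ (j k : ℕ), 1 ≤ j → ∀ (b : ∀ i, A i) (L : ℕ),
      ∃ (b' : ∀ i, A i) (L' n : ℕ) (v v' : A n), L ≤ n ∧ n < L' ∧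
        (∀ i, i < L → b' i = b i) ∧ Good k n v v' ∧
        ∀ᶠ w in residual (∀ i, A i), ∀ m, m ∈ T →
          cl j m (f (spl L' (Function.update b' n v) w) m)
            (f (spl L' (Function.update b' n v') w) m)) :
    ∃ x ∈ C, ∃ y ∈ C, FT T (f x) (f y) ∧ ∃ nn : ℕ → ℕ, StrictMono nn ∧
      (∀ k, Good k (nn k) (x (nn k)) (y (nn k))) ∧ ∀ i, i ∉ Set.range nn → x i = y i := by
  exact afl_aux f hf T C hC a0 hfin Good hG

end Pool.Agent.HK
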