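import Pool.Agent.Helper1.HK.Base

set_option autoImplicit false

/-!
# Module ASC: uniform smallness of one-coordinate changes
-/

namespace Pool.Agent.HK

open Filter Topology Set MeasureTheory

namespace Asc

variable {A : ℕ → Type} {R : ∀ i, A i → A i → Prop}

/-- the space of related pairs -/
abbrev Q (R : ∀ i, A i → A i → Prop) (i : ℕ) : Type := {p : A i × A i // R i p.1 p.2}

/-- first projection -/
def p1 (R : ∀ i, A i → A i → Prop) : (∀ i, Q R i) → ∀ i, A i := fun q i => (q i).1.1

/-- second projection -/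
def p2 (R : ∀ i, A i → A i → Prop) : (∀ i, Q R i) → ∀ i, A i := fun q i => (q i).1.2

/-- diagonal -/
def dg (hR : ∀ i a, R i a a) (b : ∀ i, A i) : ∀ i, Q R i := fun i => ⟨(b i, b i), hR i (b i)⟩

lemma p1_spl (L : ℕ) (c q : ∀ i, Q R i) : p1 R (spl L c q) = spl L (p1 R c) (p1 R q) := by
  funext i
  by_cases hi : i < L
  · simp [p1, spl, hi]
  · simp [p1, spl, hi]

lemma p2_spl (L : ℕ) (c q : ∀ i, Q R i) : p2 R (spl L c q) = spl L (p2 R c) (p2 R q) := by
  funext i
  by_cases hi : i < L
  · simp [p2, spl, hi]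
  · simp [p2, spl, hi]

lemma p1_update (q : ∀ i, Q R i) (n : ℕ) (u : Q R n) :
    p1 R (Function.update q n u) = Function.update (p1 R q) n u.1.1 := by
  funext i
  by_cases hi : i = n
  · subst hi; simp [p1]
  · simp [p1, Function.update_of_ne hi]

lemma p2_update (q : ∀ i, Q R i) (n : ℕ) (u : Q R n) :
    p2 R (Function.update q n u) = Function.update (p2 R q) n u.1.2 := by
  funext i
  by_cases hi : i = n
  · subst hi; simp [p2]
  · simp [p2, Function.update_of_ne hi]

lemma p1_dg (hR : ∀ i a, R i a a) (b : ∀ i, A i) : p1 R (dg hR b) = b := rfl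

lemma p2_dg (hR : ∀ i a, R i a a) (b : ∀ i, A i) : p2 R (dg hR b) = b := rfl

variable [∀ i, TopologicalSpace (A i)] [∀ i, DiscreteTopology (A i)]

lemma continuous_p1 : Continuous (p1 R) :=
  continuous_pi fun i => (continuous_of_discreteTopology (f := fun p : Q R i => p.1.1)).comp
    (continuous_apply i)

lemma continuous_p2 : Continuous (p2 R) :=
  continuous_pi fun i => (continuous_of_discreteTopology (f := fun p : Q R i => p.1.2)).comp
    (continuous_apply i)

lemma isOpenMap_p1 (hR : ∀ i a, R i a a) : IsOpenMap (p1 R) :=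
  IsOpenMap.piMap (f := fun i (p : Q R i) => p.1.1) (fun _ _ _ => isOpen_discrete _)
    (Eventually.of_forall fun i a => ⟨⟨(a, a), hR i a⟩, rfl⟩)

lemma isOpenMap_p2 (hR : ∀ i a, R i a a) : IsOpenMap (p2 R) :=
  IsOpenMap.piMap (f := fun i (p : Q R i) => p.1.2) (fun _ _ _ => isOpen_discrete _)
    (Eventually.of_forall fun i a => ⟨⟨(a, a), hR i a⟩, rfl⟩)

omit [∀ i, DiscreteTopology (A i)] in
lemma surjective_p1 (hR : ∀ i a, R i a a) : Function.Surjective (p1 R) :=
  fun b => ⟨dg hR b, rfl⟩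

end Asc

open Asc

theorem asc {A : ℕ → Type} [∀ i, TopologicalSpace (A i)] [∀ i, DiscreteTopology (A i)]
    [∀ i, Countable (A i)] (R : ∀ i, A i → A i → Prop) (hR : ∀ i a, R i a a)
    (f : (∀ i, A i) → P) (hf : BMf f) (T : Set ℕ)
    (C : Set (∀ i, A i)) (hC : C ∈ residual (∀ i, A i))
    (hfC : ∀ x ∈ C, ∀ y ∈ C, (∀ i, R i (x i) (y i)) → FT T (f x) (f y))
    (j : ℕ) (hj : 1 ≤ j) (b : ∀ i, A i) (L : ℕ) :
    ∃ (b' : ∀ i, A i) (L' : ℕ), L ≤ L' ∧ (∀ i, i < L → b' i = b i) ∧
      ∀ (n : ℕ), L' ≤ n → ∀ v v' : A n, R n v v' →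
        ∀ᶠ w in residual (∀ i, A i), ∀ m, m ∈ T →
          cl j m (f (Function.update (spl L' b' w) n v) m)
            (f (Function.update (spl L' b' w) n v') m) := by
  have h1c : Continuous (p1 R) := continuous_p1
  have h2c : Continuous (p2 R) := continuous_p2
  have h1o : IsOpenMap (p1 R) := isOpenMap_p1 hR
  have h2o : IsOpenMap (p2 R) := isOpenMap_p2 hR
  have h1t := tendsto_residual_of_isOpenMap h1c h1o
  have h2t := tendsto_residual_of_isOpenMap h2c h2o
  -- step 1: uniformity on the space of pairs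
  let W : ℕ → Set (∀ i, Q R i) := fun M =>
    {q | ∀ m, M ≤ m → m ∈ T → cl (2 * j) m (f (p1 R q) m) (f (p2 R q) m)}
  have hW : ∀ M, BaireMeasurableSet (W M) := fun M =>
    baireMeasurable_forall_cl (hf.comp_open h1c h1o) (hf.comp_open h2c h2o) T (2 * j) M
  have hcov : ∀ᶠ q in residual (∀ i, Q R i), ∃ M, q ∈ W M := by
    filter_upwards [h1t.eventually hC, h2t.eventually hC] with q hq1 hq2
    exact hfC _ hq1 _ hq2 (fun i => (q i).2) (2 * j) (by omega)
  obtain ⟨M, c, L1, hL1, -, hcb, hM⟩ := exists_cyl_of_cover W hW hcov (dg hR b) L 0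
  -- step 2: decide the values below `M'`
  set M' : ℕ := max M (2 * j) with hM'
  let Vy : (∀ m : Fin M', Blk m) → Set (∀ i, A i) := fun y => {w | ∀ m : Fin M', f w m = y m}
  have hVy : ∀ y, BaireMeasurableSet (Vy y) := by
    intro y
    have : Vy y = ⋂ m : Fin M', {w | f w m = y m} := by
      ext w; simp [Vy]
    rw [this]
    exact BaireMeasurableSet.iInter fun m => hf m (y m)
  obtain ⟨y, c2, L2, hL2, -, hc2, hV⟩ := exists_cyl_of_cover Vy hVy
    (Eventually.of_forall fun w => ⟨fun m => f w m, fun _ => rfl⟩) (p1 R c) L1 0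
  refine ⟨c2, L2, hL1.trans hL2, fun i hi => ?_, ?_⟩
  · rw [hc2 i (hi.trans_le hL1)]
    show (c i).1.1 = b i
    rw [hcb i hi]
    rfl
  intro n hn v v' hv
  -- small `m`
  have hsmall : ∀ u : A n, ∀ᶠ w in residual (∀ i, A i), ∀ m : Fin M',
      f (Function.update (spl L2 c2 w) n u) m = y m := by
    intro u
    filter_upwards [(tendsto_update n u).eventually hV] with w hw m
    rw [update_spl_ge hn]
    exact hw m
  -- large `m`
  have hlarge : ∀ᶠ w in residual (∀ i, A i), ∀ m, M' ≤ m → m ∈ T →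
      cl j m (f (Function.update (spl L2 c2 w) n v) m)
        (f (Function.update (spl L2 c2 w) n v') m) := by
    have hgc : ∀ u : A n, Continuous (fun w : ∀ i, A i => Function.update (spl L2 c2 w) n u) :=
      fun u => (continuous_spl L2 c2).update n continuous_const
    have hgo : ∀ u : A n, IsOpenMap (fun w : ∀ i, A i => Function.update (spl L2 c2 w) n u) :=
      fun u => (isOpenMap_update n u).comp (isOpenMap_spl L2 c2)
    have hS : BaireMeasurableSet {w : ∀ i, A i | ∀ m, M' ≤ m → m ∈ T →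
        cl j m (f (Function.update (spl L2 c2 w) n v) m)
          (f (Function.update (spl L2 c2 w) n v') m)} :=
      baireMeasurable_forall_cl (hf.comp_open (hgc v) (hgo v)) (hf.comp_open (hgc v') (hgo v'))
        T j M'
    refine mem_residual_of_preimage h1c h1o (surjective_p1 hR) hS ?_
    have hpull : ∀ u : Q R n, ∀ᶠ q in residual (∀ i, Q R i),
        Function.update (spl L1 c (spl L2 (dg hR c2) q)) n u ∈ W M := by
      intro u
      have ht : Tendsto (fun q : ∀ i, Q R i => spl L2 (dg hR c2) (Function.update q n u))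
          (residual _) (residual _) :=
        (tendsto_spl L2 (dg hR c2)).comp (tendsto_update n u)
      filter_upwards [ht.eventually hM] with q hq
      rw [update_spl_ge (hL2.trans hn), update_spl_ge hn]
      exact hq
    have hcc : ∀ i, i < L1 → p1 R c i = c2 i := fun i hi => (hc2 i hi).symm
    have e0 : ∀ q : ∀ i, Q R i, spl L1 (p1 R c) (spl L2 c2 (p1 R q)) = spl L2 c2 (p1 R q) := by
      intro q
      rw [spl_spl hL2]
      refine spl_congr (fun i hi => ?_) _
      by_cases h : i < L1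
      · rw [spl_lt h, hcc i h]
      · rw [spl_ge (not_lt.mp h)]
    filter_upwards [hpull ⟨(v, v'), hv⟩, hpull ⟨(v', v'), hR n v'⟩] with q hq1 hq2
    intro m hm hmT
    have hMm : M ≤ m := (le_max_left _ _).trans hm
    have hjm : 2 * j ≤ m := (le_max_right _ _).trans hm
    have g1 := hq1 m hMm hmT
    have g2 := hq2 m hMm hmT
    rw [p1_update, p1_spl, p1_spl, p1_dg, p2_update, p2_spl, p2_spl, p2_dg, e0] at g1 g2
    exact cl_tri hj (hjm.trans (le_K m)) g1 (cl_symm g2)
  filter_upwards [hsmall v, hsmall v', hlarge] with w hw1 hw2 hw3 m hmT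
  by_cases hm : m < M'
  · have e1 := hw1 ⟨m, hm⟩
    have e2 := hw2 ⟨m, hm⟩
    simp only at e1 e2
    rw [e1, e2]
    exact cl_refl _ _ _
  · exact hw3 m (not_lt.mp hm) hmT

end Pool.Agent.HK
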