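import Mathlib

set_option autoImplicit false
set_option linter.unusedSectionVars false

/-!
# Base file for the disproof of the bireducible form of the Hjorth-Kechris conjecture
-/

namespace Pool.Agent.HK

open Filter Topology Set MeasureTheory

noncomputable section

/-- block exponents -/
def K (n : ℕ) : ℕ := 2 ^ ((n + 1) ^ 2)

/-- block `n` : the integers below `2 ^ K n` -/
abbrev Blk (n : ℕ) : Type := Fin (2 ^ K n)

/-- the product of the blocks -/
abbrev P : Type := ∀ n, Blk n

/-- closeness at scale `j` in block `m` -/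
def cl (j m : ℕ) (u v : Blk m) : Prop := Nat.dist u.1 v.1 < 2 ^ (K m / j)

/-- the relation `F_S` : the logarithmic distance tends to `0` along the blocks in `S` -/
def FT (S : Set ℕ) (x y : P) : Prop :=
  ∀ j, 1 ≤ j → ∃ M, ∀ m, M ≤ m → m ∈ S → cl j m (x m) (y m)

/-- splice : the first `L` coordinates from `a`, the others from `w` -/
def spl {A : ℕ → Type} (L : ℕ) (a w : ∀ i, A i) : ∀ i, A i :=
  fun i => if i < L then a i else w i

/-- cylinder -/
def cyl {A : ℕ → Type} (L : ℕ) (a : ∀ i, A i) : Set (∀ i, A i) := {x | ∀ i, i < L → x i = a i}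

/-- coordinatewise Baire measurability of a map into the product of the blocks -/
def BMf {Z : Type} [TopologicalSpace Z] (f : Z → P) : Prop :=
  ∀ m (y : Blk m), BaireMeasurableSet {x | f x m = y}

/-! ### arithmetic -/

lemma le_K (m : ℕ) : m ≤ K m := by
  unfold K
  calc m ≤ (m + 1) ^ 2 := by nlinarith
    _ ≤ 2 ^ ((m + 1) ^ 2) := (Nat.lt_two_pow_self).le

lemma K_succ (n : ℕ) : K (n + 1) = K n * 2 ^ (2 * n + 3) := by
  unfold K
  rw [← pow_add]
  congr 1
  ring

lemma K_pos (n : ℕ) : 0 < K n := by unfold K; positivity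

lemma K_mono {n m : ℕ} (h : n ≤ m) : K n ≤ K m := by
  unfold K
  exact Nat.pow_le_pow_right (by norm_num) (Nat.pow_le_pow_left (by omega) 2)

lemma K_growth {j n m : ℕ} (hj : j ≤ n) (hnm : n < m) : 2 * j * K n ≤ K m := by
  have h1 : K (n + 1) ≤ K m := K_mono hnm
  have h2 : 2 * j ≤ 2 ^ (2 * n + 3) := by
    have : 2 * n + 3 < 2 ^ (2 * n + 3) := Nat.lt_two_pow_self
    omega
  calc 2 * j * K n ≤ 2 ^ (2 * n + 3) * K n := Nat.mul_le_mul_right _ h2
    _ = K (n + 1) := by rw [K_succ]; ring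
    _ ≤ K m := h1

lemma two_mul_sum_K_lt (n : ℕ) : 2 * ∑ m ∈ Finset.range n, K m < K n := by
  induction n with
  | zero => simpa using K_pos 0
  | succ n ih =>
    rw [Finset.sum_range_succ, K_succ]
    have h8 : 8 ≤ 2 ^ (2 * n + 3) := by
      calc 8 = 2 ^ 3 := by norm_num
        _ ≤ 2 ^ (2 * n + 3) := Nat.pow_le_pow_right (by norm_num) (by omega)
    have : K n * 8 ≤ K n * 2 ^ (2 * n + 3) := Nat.mul_le_mul_left _ h8
    have hK := K_pos n
    omega

lemma K_even (n : ℕ) : 2 * (K n / 2) = K n := by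
  apply Nat.mul_div_cancel'
  unfold K
  exact dvd_pow_self 2 (by positivity)

lemma cl_refl (j m : ℕ) (u : Blk m) : cl j m u u := by
  unfold cl
  rw [Nat.dist_self]
  positivity

lemma cl_symm {j m : ℕ} {u v : Blk m} (h : cl j m u v) : cl j m v u := by
  unfold cl at *
  rwa [Nat.dist_comm]

lemma cl_mono {j j' m : ℕ} {u v : Blk m} (hj : 1 ≤ j) (hjj : j ≤ j') (h : cl j' m u v) :
    cl j m u v := by
  unfold cl at *
  exact lt_of_lt_of_le h (Nat.pow_le_pow_right (by norm_num) (Nat.div_le_div_left hjj hj))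

lemma cl_tri {j m : ℕ} {u v w : Blk m} (hj : 1 ≤ j) (hm : 2 * j ≤ K m)
    (h1 : cl (2 * j) m u v) (h2 : cl (2 * j) m v w) : cl j m u w := by
  unfold cl at *
  have h3 : Nat.dist u.1 w.1 ≤ Nat.dist u.1 v.1 + Nat.dist v.1 w.1 := Nat.dist.triangle_inequality _ _ _
  have h4 : K m / (2 * j) + 1 ≤ K m / j := by
    have h5 : K m / (2 * j) * 2 ≤ K m / j := by
      rw [Nat.le_div_iff_mul_le (by omega)]
      calc K m / (2 * j) * 2 * j = K m / (2 * j) * (2 * j) := by ring
        _ ≤ K m := Nat.div_mul_le_self _ _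
    have h6 : 1 ≤ K m / (2 * j) := by
      rw [Nat.le_div_iff_mul_le (by omega)]
      omega
    omega
  calc Nat.dist u.1 w.1 < 2 ^ (K m / (2 * j)) + 2 ^ (K m / (2 * j)) := by omega
    _ = 2 ^ (K m / (2 * j) + 1) := by rw [pow_succ]; ring
    _ ≤ 2 ^ (K m / j) := Nat.pow_le_pow_right (by norm_num) h4

lemma FT_of_eventually_eq {S : Set ℕ} {x y : P} (h : ∃ N, ∀ i, N ≤ i → x i = y i) :
    FT S x y := by
  intro j _
  obtain ⟨N, hN⟩ := h
  refine ⟨N, fun m hm _ => ?_⟩
  rw [hN m hm]
  exact cl_refl _ _ _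

lemma FT_refl (S : Set ℕ) (x : P) : FT S x x := FT_of_eventually_eq ⟨0, fun _ _ => rfl⟩

lemma FT_symm {S : Set ℕ} {x y : P} (h : FT S x y) : FT S y x := by
  intro j hj
  obtain ⟨M, hM⟩ := h j hj
  exact ⟨M, fun m hm hS => cl_symm (hM m hm hS)⟩

lemma FT_trans {S : Set ℕ} {x y z : P} (h1 : FT S x y) (h2 : FT S y z) : FT S x z := by
  intro j hj
  obtain ⟨M1, hM1⟩ := h1 (2 * j) (by omega)
  obtain ⟨M2, hM2⟩ := h2 (2 * j) (by omega)
  refine ⟨max (max M1 M2) (2 * j), fun m hm hS => ?_⟩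
  have hm1 : M1 ≤ m := le_trans (le_trans (le_max_left _ _) (le_max_left _ _)) hm
  have hm2 : M2 ≤ m := le_trans (le_trans (le_max_right _ _) (le_max_left _ _)) hm
  have hm3 : 2 * j ≤ m := le_trans (le_max_right _ _) hm
  exact cl_tri hj (le_trans hm3 (le_K m)) (hM1 m hm1 hS) (hM2 m hm2 hS)

/-! ### splices and cylinders -/

section Prod

variable {A : ℕ → Type}

@[simp] lemma spl_lt {L : ℕ} {a w : ∀ i, A i} {i : ℕ} (h : i < L) : spl L a w i = a i := by
  simp [spl, h]

@[simp] lemma spl_ge {L : ℕ} {a w : ∀ i, A i} {i : ℕ} (h : L ≤ i) : spl L a w i = w i := by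
  simp [spl, not_lt.mpr h]

lemma spl_mem_cyl (L : ℕ) (a w : ∀ i, A i) : spl L a w ∈ cyl L a := fun _ hi => spl_lt hi

lemma spl_of_mem_cyl {L : ℕ} {a x : ∀ i, A i} (h : x ∈ cyl L a) : spl L a x = x := by
  funext i
  by_cases hi : i < L
  · rw [spl_lt hi, h i hi]
  · rw [spl_ge (not_lt.mp hi)]

lemma spl_spl {L L' : ℕ} (hL : L ≤ L') (a c w : ∀ i, A i) :
    spl L a (spl L' c w) = spl L' (spl L a c) w := by
  funext i
  by_cases hi : i < L
  · rw [spl_lt hi, spl_lt (lt_of_lt_of_le hi hL), spl_lt hi]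
  · by_cases hi' : i < L'
    · rw [spl_ge (not_lt.mp hi), spl_lt hi', spl_lt hi', spl_ge (not_lt.mp hi)]
    · rw [spl_ge (not_lt.mp hi), spl_ge (not_lt.mp hi'), spl_ge (not_lt.mp hi')]

lemma spl_congr {L : ℕ} {a a' : ∀ i, A i} (h : ∀ i, i < L → a i = a' i) (w : ∀ i, A i) :
    spl L a w = spl L a' w := by
  funext i
  by_cases hi : i < L
  · rw [spl_lt hi, spl_lt hi, h i hi]
  · rw [spl_ge (not_lt.mp hi), spl_ge (not_lt.mp hi)]

lemma update_spl {L n : ℕ} (hn : n < L) (a w : ∀ i, A i) (v : A n) :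
    Function.update (spl L a w) n v = spl L (Function.update a n v) w := by
  funext i
  by_cases hi : i = n
  · subst hi
    rw [Function.update_self, spl_lt hn, Function.update_self]
  · rw [Function.update_of_ne hi]
    by_cases hi' : i < L
    · rw [spl_lt hi', spl_lt hi', Function.update_of_ne hi]
    · rw [spl_ge (not_lt.mp hi'), spl_ge (not_lt.mp hi')]

lemma update_spl_ge {L n : ℕ} (hn : L ≤ n) (a w : ∀ i, A i) (v : A n) :
    Function.update (spl L a w) n v = spl L a (Function.update w n v) := by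
  funext i
  by_cases hi : i = n
  · subst hi
    rw [Function.update_self, spl_ge hn, Function.update_self]
  · rw [Function.update_of_ne hi]
    by_cases hi' : i < L
    · rw [spl_lt hi', spl_lt hi']
    · rw [spl_ge (not_lt.mp hi'), spl_ge (not_lt.mp hi'), Function.update_of_ne hi]

variable [∀ i, TopologicalSpace (A i)]

lemma continuous_spl (L : ℕ) (a : ∀ i, A i) : Continuous (spl L a) := by
  refine continuous_pi fun i => ?_
  by_cases hi : i < L
  · simp only [spl, hi, if_true]; exact continuous_const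
  · simp only [spl, hi, if_false]; exact continuous_apply i

variable [∀ i, DiscreteTopology (A i)]

lemma isOpen_cyl (L : ℕ) (a : ∀ i, A i) : IsOpen (cyl L a) := by
  have : cyl L a = ⋂ i ∈ Finset.range L, (fun x : ∀ i, A i => x i) ⁻¹' {a i} := by
    ext x
    simp [cyl]
  rw [this]
  exact isOpen_biInter_finset fun i _ => (isOpen_discrete _).preimage (continuous_apply i)

lemma exists_cyl_subset {U : Set (∀ i, A i)} (hU : IsOpen U) {x : ∀ i, A i} (hx : x ∈ U) :
    ∃ L, cyl L x ⊆ U := by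
  rw [isOpen_pi_iff] at hU
  obtain ⟨I, u, hu, hsub⟩ := hU x hx
  refine ⟨I.sup id + 1, fun y hy => hsub ?_⟩
  intro i hi
  have : i ≤ I.sup id := Finset.le_sup (f := id) hi
  rw [hy i (by omega)]
  exact (hu i hi).2

lemma exists_cyl_subset_ge {U : Set (∀ i, A i)} (hU : IsOpen U) {x : ∀ i, A i} (hx : x ∈ U)
    (N : ℕ) : ∃ L, N ≤ L ∧ cyl L x ⊆ U := by
  obtain ⟨L, hL⟩ := exists_cyl_subset hU hx
  exact ⟨max N L, le_max_left _ _,
    fun y hy => hL fun i hi => hy i (lt_of_lt_of_le hi (le_max_right _ _))⟩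

lemma isOpenMap_spl (L : ℕ) (a : ∀ i, A i) : IsOpenMap (spl L a) := by
  intro U hU
  rw [isOpen_iff_forall_mem_open]
  rintro _ ⟨w, hw, rfl⟩
  obtain ⟨N, hN, hsub⟩ := exists_cyl_subset_ge hU hw L
  refine ⟨cyl N (spl L a w), fun y hy => ?_, isOpen_cyl _ _, fun _ _ => rfl⟩
  refine ⟨spl L w y, hsub fun i hi => ?_, ?_⟩
  · by_cases hi' : i < L
    · rw [spl_lt hi']
    · rw [spl_ge (not_lt.mp hi'), hy i hi, spl_ge (not_lt.mp hi')]
  · funext i
    by_cases hi' : i < L
    · rw [spl_lt hi', hy i (by omega), spl_lt hi']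
    · rw [spl_ge (not_lt.mp hi'), spl_ge (not_lt.mp hi')]

lemma isOpenMap_update (n : ℕ) (v : A n) :
    IsOpenMap (fun w : ∀ i, A i => Function.update w n v) := by
  intro U hU
  rw [isOpen_iff_forall_mem_open]
  rintro _ ⟨w, hw, rfl⟩
  obtain ⟨N, hN, hsub⟩ := exists_cyl_subset_ge hU hw (n + 1)
  refine ⟨cyl N (Function.update w n v), fun y hy => ?_, isOpen_cyl _ _, fun _ _ => rfl⟩
  refine ⟨Function.update y n (w n), hsub fun i hi => ?_, ?_⟩
  · by_cases hi' : i = n
    · subst hi'; rw [Function.update_self]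
    · rw [Function.update_of_ne hi', hy i hi, Function.update_of_ne hi']
  · funext i
    by_cases hi' : i = n
    · subst hi'
      have := hy i (by omega)
      simp only [Function.update_self] at this ⊢
      exact this.symm
    · simp only [Function.update_of_ne hi']

lemma tendsto_spl (L : ℕ) (a : ∀ i, A i) :
    Tendsto (spl L a) (residual (∀ i, A i)) (residual (∀ i, A i)) :=
  tendsto_residual_of_isOpenMap (continuous_spl L a) (isOpenMap_spl L a)

lemma tendsto_update (n : ℕ) (v : A n) :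
    Tendsto (fun w : ∀ i, A i => Function.update w n v) (residual (∀ i, A i))
      (residual (∀ i, A i)) :=
  tendsto_residual_of_isOpenMap (continuous_id.update n continuous_const) (isOpenMap_update n v)

end Prod

/-! ### Baire category tools -/

lemma mem_residual_of_preimage {Q Y : Type} [TopologicalSpace Q] [TopologicalSpace Y]
    [BaireSpace Q] {g : Q → Y} (hc : Continuous g) (ho : IsOpenMap g)
    (hs : Function.Surjective g) {s : Set Y} (hB : BaireMeasurableSet s)
    (h : g ⁻¹' s ∈ residual Q) : s ∈ residual Y := by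
  obtain ⟨u, huo, hu⟩ := hB.residualEq_isOpen
  have hud : Dense u := by
    rw [dense_iff_inter_open]
    intro V hV hVne
    have h1 : ∀ᶠ x in residual Q, g x ∈ s ↔ g x ∈ u := by
      have h2 : ∀ᶠ y in residual Y, y ∈ s ↔ y ∈ u := by
        filter_upwards [hu] with y hy
        exact Iff.of_eq hy
      exact (tendsto_residual_of_isOpenMap hc ho).eventually h2
    have h3 : Dense {x | g x ∈ u} := by
      have : {x | g x ∈ u} ∈ residual Q := by
        filter_upwards [h, h1] with x hx hx'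
        exact hx'.mp hx
      exact dense_of_mem_residual this
    obtain ⟨y, hy⟩ := hVne
    obtain ⟨x, hx⟩ := hs y
    obtain ⟨z, hz1, hz2⟩ := h3.inter_open_nonempty (g ⁻¹' V) (hV.preimage hc) ⟨x, by simpa [hx] using hy⟩
    exact ⟨g z, hz1, hz2⟩
  filter_upwards [hu, residual_of_dense_open huo hud] with y hy hy'
  exact (Iff.of_eq hy).mpr hy'

lemma exists_cyl_of_cover {A : ℕ → Type} [∀ i, TopologicalSpace (A i)]
    [∀ i, DiscreteTopology (A i)] [BaireSpace (∀ i, A i)] {ι : Type} [Countable ι]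
    (W : ι → Set (∀ i, A i)) (hW : ∀ k, BaireMeasurableSet (W k))
    (hcov : ∀ᶠ w in residual (∀ i, A i), ∃ k, w ∈ W k) (b : ∀ i, A i) (L N : ℕ) :
    ∃ (k : ι) (c : ∀ i, A i) (L' : ℕ), L ≤ L' ∧ N ≤ L' ∧ (∀ i, i < L → c i = b i) ∧
      ∀ᶠ w in residual (∀ i, A i), spl L' c w ∈ W k := by
  choose u huo hu using fun k => (hW k).residualEq_isOpen
  have hall : ∀ᶠ w in residual (∀ i, A i), ∀ k, w ∈ W k ↔ w ∈ u k := by
    rw [eventually_countable_forall]
    intro k
    filter_upwards [hu k] with w hw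
    exact Iff.of_eq hw
  have hd : Dense {w : ∀ i, A i | ∃ k, w ∈ u k} := by
    refine dense_of_mem_residual ?_
    filter_upwards [hall, hcov] with w hw1 hw2
    obtain ⟨k, hk⟩ := hw2
    exact ⟨k, (hw1 k).mp hk⟩
  obtain ⟨c, hcb, k, hck⟩ := hd.inter_open_nonempty (cyl L b) (isOpen_cyl L b) ⟨b, fun _ _ => rfl⟩
  obtain ⟨L', hL', hsub⟩ := exists_cyl_subset_ge (huo k) hck (max L N)
  refine ⟨k, c, L', le_trans (le_max_left _ _) hL', le_trans (le_max_right _ _) hL',
    hcb, ?_⟩
  filter_upwards [(tendsto_spl L' c).eventually hall] with w hw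
  exact (hw k).mpr (hsub (spl_mem_cyl _ _ _))

lemma exists_decide {Z : Type} [TopologicalSpace Z] {f : Z → P} (hf : BMf f) :
    ∃ O : ∀ m, Blk m → Set Z, (∀ m y, IsOpen (O m y)) ∧
      ∀ᶠ x in residual Z, ∀ m y, f x m = y ↔ x ∈ O m y := by
  choose O hO hO2 using fun m y => (hf m y).residualEq_isOpen
  refine ⟨O, hO, ?_⟩
  rw [eventually_countable_forall]
  intro m
  rw [eventually_countable_forall]
  intro y
  filter_upwards [hO2 m y] with x hx
  exact Iff.of_eq hx

lemma BMf.comp_open {Z Z' : Type} [TopologicalSpace Z] [TopologicalSpace Z'] {f : Z → P}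
    (hf : BMf f) {g : Z' → Z} (hc : Continuous g) (ho : IsOpenMap g) : BMf (fun x => f (g x)) :=
  fun m y => (hf m y).preimage hc ho

open Classical in
lemma baireMeasurable_cl {Z : Type} [TopologicalSpace Z] {f g : Z → P} (hf : BMf f) (hg : BMf g)
    (j m : ℕ) : BaireMeasurableSet {x | cl j m (f x m) (g x m)} := by
  have : {x | cl j m (f x m) (g x m)} =
      ⋃ (u : Blk m) (v : Blk m), (if cl j m u v then {x | f x m = u} ∩ {x | g x m = v} else ∅) := by
    ext x
    simp only [mem_ofPred_eq, mem_iUnion]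
    constructor
    · intro h
      exact ⟨f x m, g x m, by rw [if_pos h]; exact ⟨rfl, rfl⟩⟩
    · rintro ⟨u, v, h⟩
      by_cases hc : cl j m u v
      · rw [if_pos hc] at h
        obtain ⟨h1, h2⟩ := h
        simp only [mem_ofPred_eq] at h1 h2
        rw [h1, h2]
        exact hc
      · rw [if_neg hc] at h
        exact absurd h (notMem_empty _)
  rw [this]
  refine BaireMeasurableSet.iUnion fun u => BaireMeasurableSet.iUnion fun v => ?_
  by_cases hc : cl j m u v
  · rw [if_pos hc]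
    exact (hf m u).inter (hg m v)
  · rw [if_neg hc]
    exact isOpen_empty.baireMeasurableSet

open Classical in
lemma baireMeasurable_forall_cl {Z : Type} [TopologicalSpace Z] {f g : Z → P} (hf : BMf f)
    (hg : BMf g) (T : Set ℕ) (j M : ℕ) :
    BaireMeasurableSet {x | ∀ m, M ≤ m → m ∈ T → cl j m (f x m) (g x m)} := by
  have : {x | ∀ m, M ≤ m → m ∈ T → cl j m (f x m) (g x m)} =
      ⋂ m : ℕ, (if M ≤ m ∧ m ∈ T then {x | cl j m (f x m) (g x m)} else univ) := by
    ext x
    simp only [mem_ofPred_eq, mem_iInter]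
    constructor
    · intro h m
      by_cases hc : M ≤ m ∧ m ∈ T
      · rw [if_pos hc]; exact h m hc.1 hc.2
      · rw [if_neg hc]; exact mem_univ _
    · intro h m h1 h2
      have := h m
      rw [if_pos ⟨h1, h2⟩] at this
      exact this
  rw [this]
  refine BaireMeasurableSet.iInter fun m => ?_
  by_cases hc : M ≤ m ∧ m ∈ T
  · rw [if_pos hc]; exact baireMeasurable_cl hf hg j m
  · rw [if_neg hc]; exact isOpen_univ.baireMeasurableSet

end

end Pool.Agent.HK
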