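import Mathlib

set_option autoImplicit false

namespace Pool.Agent.HK

open Filter Topology Set MeasureTheory

section catq

variable {X Y : Type} [TopologicalSpace Y]

/-- the section of `B` at `x` is comeagre in `U` -/
def CatqCom (B : Set (X × Y)) (U : Set Y) (x : X) : Prop :=
  ∀ᶠ y in residual Y, y ∈ U → (x, y) ∈ B

theorem catq_open_nonmeagre [BaireSpace Y] {U : Set Y} (hU : IsOpen U) (hne : U.Nonempty)
    (h : ∀ᶠ y in residual Y, y ∉ U) : False := by
  have hd : Dense {y | y ∉ U} := dense_of_mem_residual h
  obtain ⟨y, hy1, hy2⟩ := hd.inter_open_nonempty U hU hne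
  exact hy2 hy1

theorem catq_compl [SecondCountableTopology Y] [BaireSpace Y] [MeasurableSpace Y] [BorelSpace Y]
    (B : Set (X × Y)) (x : X) (hB : MeasurableSet {y | (x, y) ∈ B}) (U : Set Y) (hU : IsOpen U) :
    CatqCom Bᶜ U x ↔ ∀ V ∈ TopologicalSpace.countableBasis Y, V ⊆ U → ¬ CatqCom B V x := by
  constructor
  · intro h V hV hVU hc
    have hVne : V.Nonempty := TopologicalSpace.nonempty_of_mem_countableBasis hV
    refine catq_open_nonmeagre (TopologicalSpace.isOpen_of_mem_countableBasis hV) hVne ?_
    filter_upwards [h, hc] with y h1 h2 hy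
    exact h1 (hVU hy) (h2 hy)
  · intro h
    obtain ⟨O, hO, hBO⟩ := hB.residualEq_isOpen
    have hBO' : ∀ᶠ y in residual Y, ((x, y) ∈ B ↔ y ∈ O) := hBO.mem_iff
    have hempty : O ∩ U = ∅ := by
      by_contra hne
      obtain ⟨y, hy⟩ := Set.nonempty_iff_ne_empty.2 hne
      obtain ⟨V, hV, hyV, hVO⟩ := (TopologicalSpace.isBasis_countableBasis Y).exists_subset_of_mem_open
        hy (hO.inter hU)
      refine h V hV (fun z hz => (hVO hz).2) ?_
      filter_upwards [hBO'] with z hz hzV
      exact hz.2 (hVO hzV).1
    show ∀ᶠ y in residual Y, y ∈ U → (x, y) ∈ Bᶜ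
    filter_upwards [hBO'] with y hy hyU hyB
    have : y ∈ O ∩ U := ⟨hy.1 hyB, hyU⟩
    rw [hempty] at this
    exact this

theorem catq_main [MeasurableSpace X] [SecondCountableTopology Y] [BaireSpace Y]
    [MeasurableSpace Y] [BorelSpace Y] {B : Set (X × Y)} (hB : MeasurableSet B) :
    ∀ U ∈ TopologicalSpace.countableBasis Y, MeasurableSet {x | CatqCom B U x} := by
  have hsec : ∀ (B : Set (X × Y)), MeasurableSet B → ∀ x : X, MeasurableSet {y | (x, y) ∈ B} :=
    fun B hB x => measurable_prodMk_left hB
  have hcompl : ∀ B : Set (X × Y), MeasurableSet B →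
      (∀ U ∈ TopologicalSpace.countableBasis Y, MeasurableSet {x | CatqCom B U x}) →
      ∀ U ∈ TopologicalSpace.countableBasis Y, MeasurableSet {x | CatqCom Bᶜ U x} := by
    intro B hB ih U hU
    have : {x | CatqCom Bᶜ U x} = ⋂ V ∈ {V ∈ TopologicalSpace.countableBasis Y | V ⊆ U},
        {x | CatqCom B V x}ᶜ := by
      ext x
      simp only [mem_setOf_eq, mem_iInter, mem_compl_iff, and_imp]
      exact catq_compl B x (hsec B hB x) U (TopologicalSpace.isOpen_of_mem_countableBasis hU)
    rw [this]
    refine MeasurableSet.biInter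
      ((TopologicalSpace.countable_countableBasis Y).mono (Set.sep_subset _ _)) ?_
    intro V hV
    exact (ih V hV.1).compl
  have key : ∀ B : Set (X × Y), MeasurableSet B → MeasurableSet B ∧
      ∀ U ∈ TopologicalSpace.countableBasis Y, MeasurableSet {x | CatqCom B U x} := by
    intro B hB
    rw [← generateFrom_prod] at hB
    induction B, hB using MeasurableSpace.generateFrom_induction with
    | hC t ht _ =>
      obtain ⟨S, hS, V, hV, rfl⟩ := ht
      refine ⟨hS.prod hV, fun U _ => ?_⟩
      have : {x | CatqCom (S ×ˢ V) U x} =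
          (S ∩ {_x | ∀ᶠ y in residual Y, y ∈ U → y ∈ V}) ∪
            (Sᶜ ∩ {_x | ∀ᶠ y in residual Y, y ∉ U}) := by
        ext x
        by_cases hx : x ∈ S
        · simp [CatqCom, hx]
        · simp [CatqCom, hx]
      rw [this]
      exact (MeasurableSet.inter hS (MeasurableSet.const _)).union
        (MeasurableSet.inter (MeasurableSet.compl hS) (MeasurableSet.const _))
    | empty =>
      refine ⟨MeasurableSet.empty, fun U _ => ?_⟩
      exact MeasurableSet.const (∀ᶠ y in residual Y, y ∈ U → False)
    | compl t _ ih => exact ⟨ih.1.compl, hcompl t ih.1 ih.2⟩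
    | iUnion s _ ih =>
      refine ⟨MeasurableSet.iUnion fun n => (ih n).1, ?_⟩
      have h1 : (⋃ n, s n) = (⋂ n, (s n)ᶜ)ᶜ := by simp [Set.compl_iInter]
      rw [h1]
      refine hcompl _ (MeasurableSet.iInter fun n => (ih n).1.compl) ?_
      intro U hU
      have h2 : {x | CatqCom (⋂ n, (s n)ᶜ) U x} = ⋂ n, {x | CatqCom (s n)ᶜ U x} := by
        ext x
        simp only [mem_setOf_eq, mem_iInter, CatqCom]
        rw [← eventually_countable_forall]
        constructor
        · intro h; filter_upwards [h] with y hy n hyU using hy hyU n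
        · intro h; filter_upwards [h] with y hy hyU n using hy n hyU
      rw [h2]
      exact MeasurableSet.iInter fun n => hcompl (s n) (ih n).1 (ih n).2 U hU
  exact (key B hB).2

end catq

theorem measurableSet_eventually_residual {X Y : Type} [MeasurableSpace X] [TopologicalSpace Y]
    [SecondCountableTopology Y] [BaireSpace Y] [MeasurableSpace Y] [BorelSpace Y]
    {B : Set (X × Y)} (hB : MeasurableSet B) :
    MeasurableSet {x : X | ∀ᶠ y in residual Y, (x, y) ∈ B} := by
  have h : {x : X | ∀ᶠ y in residual Y, (x, y) ∈ B} =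
      ⋂ U ∈ TopologicalSpace.countableBasis Y, {x | CatqCom B U x} := by
    ext x
    simp only [mem_setOf_eq, mem_iInter, CatqCom]
    rw [← eventually_countable_ball (TopologicalSpace.countable_countableBasis Y)]
    constructor
    · intro h; filter_upwards [h] with y hy U _ _ using hy
    · intro h
      filter_upwards [h] with y hy
      obtain ⟨U, hU, hyU, _⟩ := (TopologicalSpace.isBasis_countableBasis Y).exists_subset_of_mem_open
        (mem_univ y) isOpen_univ
      exact hy U hU hyU
  rw [h]
  exact MeasurableSet.biInter (TopologicalSpace.countable_countableBasis Y)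
    fun U hU => catq_main hB U hU

end Pool.Agent.HK
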