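import Pool.Agent.Helper1.HK.Asc
import Pool.Agent.Helper1.HK.Afl

set_option autoImplicit false

/-!
# Module E1L
-/

namespace Pool.Agent.HK

open Filter Topology Set MeasureTheory

theorem e1_not (T : Set ℕ) (f : (ℕ → Bool) → P) (hf : BMf f) (C : Set (ℕ → Bool))
    (hC : C ∈ residual (ℕ → Bool))
    (h : ∀ x ∈ C, ∀ y ∈ C, ((∃ N : ℕ, ∀ i, N ≤ (Nat.unpair i).1 → x i = y i) ↔
      FT T (f x) (f y))) : False := by
  have hunp : ∀ i : ℕ, (Nat.unpair i).1 ≤ i := fun i => Nat.unpair_left_le i
  obtain ⟨x, hx, y, hy, hxy, nn, hnn, hgood, -⟩ :=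
    afl (A := fun _ => Bool) f hf T C hC (fun _ => false)
      (by
        intro x hx y hy hN
        obtain ⟨N, hN⟩ := hN
        exact (h x hx y hy).1 ⟨N, fun i hi => hN i (le_trans hi (hunp i))⟩)
      (fun k n v v' => (Nat.unpair n).1 = k ∧ v ≠ v')
      (by
        intro j k hj b L
        obtain ⟨b', L', hLL', hb', hasc⟩ := asc (A := fun _ => Bool)
          (fun i u v => (Nat.unpair i).1 = k ∨ u = v) (fun i a => Or.inr rfl) f hf T C hC
          (by
            intro x hx y hy hR
            refine (h x hx y hy).1 ⟨k + 1, fun i hi => ?_⟩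
            rcases hR i with h1 | h1
            · omega
            · exact h1)
          j hj b L
        have hn : L' ≤ Nat.pair k L' := Nat.right_le_pair k L'
        refine ⟨b', Nat.pair k L' + 1, Nat.pair k L', false, true, le_trans hLL' hn,
          Nat.lt_succ_self _, hb', ⟨by simp, by simp⟩, ?_⟩
        have h1 := hasc (Nat.pair k L') hn false true (Or.inl (by simp))
        have h2 := (tendsto_spl (A := fun _ => Bool) (Nat.pair k L' + 1) b').eventually h1
        filter_upwards [h2] with w hw m hm
        have h3 := hw m hm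
        have h4 : ∀ v : Bool, Function.update (spl (A := fun _ => Bool) L' b'
            (spl (A := fun _ => Bool) (Nat.pair k L' + 1) b' w)) (Nat.pair k L') v =
            spl (A := fun _ => Bool) (Nat.pair k L' + 1)
              (Function.update b' (Nat.pair k L') v) w := by
          intro v
          rw [spl_spl (by omega)]
          rw [spl_of_mem_cyl (A := fun _ => Bool) (L := L') (a := b') (x := b')
            (fun _ _ => rfl)]
          exact update_spl (A := fun _ => Bool) (Nat.lt_succ_self _) b' w v
        rw [h4 false, h4 true] at h3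
        exact h3)
  obtain ⟨N, hN⟩ := (h x hx y hy).2 hxy
  have h1 := hgood N
  exact h1.2 (hN (nn N) (le_of_eq h1.1.symm))

end Pool.Agent.HK
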