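import Pool.Agent.Helper1.HK.Catq

/-! module LEFT (helper38): leftmost branch of the tree of non meagre initial segments -/

set_option autoImplicit false

namespace Pool.Agent.HK

open Filter Topology Set MeasureTheory

/-- the coordinates below `s.length` of `p (γ • y)` are given by `s` -/
private def leftM {G Y : Type} [Group G] [MulAction G Y] (p : Y → ℕ → ℕ) (y : Y) (s : List ℕ)
    (γ : G) : Prop := ∀ i, i < s.length → p (γ • y) i = s.getD i 0

/-- non meagre -/
private def leftNM (G : Type) {Y : Type} [TopologicalSpace G] [Group G] [MulAction G Y]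
    (p : Y → ℕ → ℕ) (y : Y) (s : List ℕ) : Prop :=
  ¬ ∀ᶠ γ in residual G, ¬ leftM p y s γ

/-- the leftmost non meagre branch -/
private noncomputable def leftT (G : Type) {Y : Type} [TopologicalSpace G] [Group G] [MulAction G Y]
    (p : Y → ℕ → ℕ) : ℕ → Y → List ℕ
  | 0, _ => []
  | n + 1, y => leftT G p n y ++ [sInf {k | leftNM G p y (leftT G p n y ++ [k])}]

private theorem left_sInf_iff (S : Set ℕ) (k : ℕ) :
    sInf S = k ↔ (k ∈ S ∧ ∀ j, j < k → j ∉ S) ∨ (k = 0 ∧ ∀ j, j ∉ S) := by
  constructor
  · rintro rfl
    rcases S.eq_empty_or_nonempty with h | h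
    · right
      subst h
      exact ⟨Nat.sInf_empty, fun j => Set.notMem_empty j⟩
    · exact Or.inl ⟨Nat.sInf_mem h, fun j hj => Nat.notMem_of_lt_sInf hj⟩
  · rintro (⟨h1, h2⟩ | ⟨rfl, h2⟩)
    · refine le_antisymm (Nat.sInf_le h1) ?_
      by_contra hlt
      push Not at hlt
      exact h2 _ hlt (Nat.sInf_mem ⟨k, h1⟩)
    · have : S = ∅ := Set.eq_empty_iff_forall_notMem.2 h2
      rw [this, Nat.sInf_empty]

section
variable {G Y : Type} [TopologicalSpace G] [Group G] [IsTopologicalGroup G] [PolishSpace G]
  [MulAction G Y]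

private theorem left_len (p : Y → ℕ → ℕ) (n : ℕ) (y : Y) : (leftT G p n y).length = n := by
  induction n with
  | zero => rfl
  | succ n ih => simp [leftT, ih]

private theorem left_baire : BaireSpace G := by
  let _ := TopologicalSpace.upgradeIsCompletelyMetrizable G
  infer_instance

private theorem left_nil (p : Y → ℕ → ℕ) (y : Y) : leftNM G p y [] := by
  have : BaireSpace G := left_baire
  intro h
  have h2 : ∀ᶠ γ in residual G, False := by
    filter_upwards [h] with γ hγ
    exact hγ (fun i hi => absurd hi (by simp))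
  have h3 := (dense_of_mem_residual h2).nonempty
  obtain ⟨x, hx⟩ := h3
  exact hx

private theorem left_succ (p : Y → ℕ → ℕ) (y : Y) (s : List ℕ) (h : leftNM G p y s) :
    ∃ k, leftNM G p y (s ++ [k]) := by
  by_contra hcon
  push Not at hcon
  apply h
  have h2 : ∀ k, ∀ᶠ γ in residual G, ¬ leftM p y (s ++ [k]) γ := by
    intro k
    have := hcon k
    unfold leftNM at this
    exact not_not.1 this
  rw [← eventually_countable_forall] at h2
  filter_upwards [h2] with γ hγ hM
  apply hγ (p (γ • y) s.length)
  intro i hi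
  rw [List.length_append, List.length_singleton] at hi
  rcases Nat.lt_succ_iff_lt_or_eq.1 hi with h1 | h1
  · rw [hM i h1, List.getD_append _ _ _ _ h1]
  · subst h1
    rw [List.getD_append_right _ _ _ _ le_rfl]
    simp

private theorem left_NM (p : Y → ℕ → ℕ) (n : ℕ) (y : Y) : leftNM G p y (leftT G p n y) := by
  induction n with
  | zero => exact left_nil p y
  | succ n ih =>
    have h := left_succ p y _ ih
    exact Nat.sInf_mem (s := {k | leftNM G p y (leftT G p n y ++ [k])}) h

private theorem left_shift (Q : G → Prop) (γ' : G) (h : ∀ᶠ γ in residual G, Q γ) :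
    ∀ᶠ γ in residual G, Q (γ * γ') := by
  have := tendsto_residual_of_isOpenMap (continuous_mul_const γ') (Homeomorph.mulRight γ').isOpenMap
  exact this.eventually h

private theorem left_inv (p : Y → ℕ → ℕ) (y : Y) (s : List ℕ) (γ' : G) :
    leftNM G p (γ' • y) s ↔ leftNM G p y s := by
  unfold leftNM
  rw [not_iff_not]
  constructor
  · intro h
    have := left_shift _ γ'⁻¹ h
    filter_upwards [this] with γ hγ hM
    apply hγ
    intro i hi
    rw [smul_smul, inv_mul_cancel_right]
    exact hM i hi
  · intro h
    have := left_shift _ γ' h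
    filter_upwards [this] with γ hγ hM
    apply hγ
    intro i hi
    rw [← smul_smul]
    exact hM i hi

private theorem left_T_inv (p : Y → ℕ → ℕ) (n : ℕ) (y : Y) (γ' : G) :
    leftT G p n (γ' • y) = leftT G p n y := by
  induction n with
  | zero => rfl
  | succ n ih =>
    simp only [leftT, ih, left_inv]

private theorem left_getD (p : Y → ℕ → ℕ) (n : ℕ) (y : Y) (i : ℕ) (hi : i < n) :
    (leftT G p n y).getD i 0 = (leftT G p (i + 1) y).getD i 0 := by
  induction n with
  | zero => exact absurd hi (by simp)
  | succ n ih =>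
    rcases Nat.lt_succ_iff_lt_or_eq.1 hi with h | h
    · rw [← ih h]
      simp only [leftT]
      rw [List.getD_append _ _ _ _ (by rw [left_len]; exact h)]
    · subst h; rfl

variable [MeasurableSpace G] [BorelSpace G] [MeasurableSpace Y]

private theorem left_meas_NM (hact : Measurable (fun z : Y × G => z.2 • z.1)) (p : Y → ℕ → ℕ)
    (hp : Measurable p) (s : List ℕ) : MeasurableSet {y : Y | leftNM G p y s} := by
  have : BaireSpace G := left_baire
  have hB : MeasurableSet {z : Y × G | ¬ leftM p z.1 s z.2} := by
    have e : {z : Y × G | ¬ leftM p z.1 s z.2} =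
        (⋂ i : ℕ, ⋂ _ : i < s.length, {z : Y × G | p (z.2 • z.1) i = s.getD i 0})ᶜ := by
      ext z
      simp [leftM]
    rw [e]
    refine (MeasurableSet.iInter fun i => MeasurableSet.iInter fun _ => ?_).compl
    have h1 : Measurable fun z : Y × G => p (z.2 • z.1) i :=
      (measurable_pi_apply i).comp (hp.comp hact)
    exact h1 (measurableSet_singleton _)
  have h := measurableSet_eventually_residual (X := Y) (Y := G) hB
  exact h.compl

private theorem left_meas_T (hact : Measurable (fun z : Y × G => z.2 • z.1)) (p : Y → ℕ → ℕ)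
    (hp : Measurable p) (n : ℕ) (s : List ℕ) : MeasurableSet {y : Y | leftT G p n y = s} := by
  induction n generalizing s with
  | zero =>
    simp only [leftT]
    exact MeasurableSet.const _
  | succ n ih =>
    have h1 : ∀ (s : List ℕ) (k : ℕ),
        MeasurableSet {y : Y | sInf {k | leftNM G p y (s ++ [k])} = k} := by
      intro s k
      have h2 : ∀ j, MeasurableSet {y : Y | leftNM G p y (s ++ [j])} := fun j =>
        left_meas_NM hact p hp _
      have e : {y : Y | sInf {k | leftNM G p y (s ++ [k])} = k} =
          ({y : Y | leftNM G p y (s ++ [k])} ∩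
            ⋂ j : ℕ, ⋂ _ : j < k, {y : Y | leftNM G p y (s ++ [j])}ᶜ) ∪
          ({_y : Y | k = 0} ∩ ⋂ j : ℕ, {y : Y | leftNM G p y (s ++ [j])}ᶜ) := by
        ext y
        have := left_sInf_iff {k | leftNM G p y (s ++ [k])} k
        simpa using this
      rw [e]
      refine MeasurableSet.union ?_ ?_
      · exact (h2 k).inter
          (MeasurableSet.iInter fun j => MeasurableSet.iInter fun _ => (h2 j).compl)
      · exact (MeasurableSet.const _).inter (MeasurableSet.iInter fun j => (h2 j).compl)
    have h3 : {y : Y | leftT G p (n + 1) y = s} = ⋃ (s' : List ℕ), ⋃ (k : ℕ),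
        ⋃ (_ : s' ++ [k] = s), ({y : Y | leftT G p n y = s'} ∩
          {y : Y | sInf {k | leftNM G p y (s' ++ [k])} = k}) := by
      ext y
      simp only [mem_ofPred_eq, mem_iUnion, mem_inter_iff, exists_prop]
      constructor
      · intro h
        exact ⟨_, _, h, rfl, rfl⟩
      · rintro ⟨s', k, h, rfl, h2⟩
        rw [← h, ← h2]
        rfl
    rw [h3]
    exact MeasurableSet.iUnion fun s' => MeasurableSet.iUnion fun k => MeasurableSet.iUnion fun _ =>
      (ih s').inter (h1 s' k)

end

theorem leftmost {G Y : Type} [TopologicalSpace G] [Group G] [IsTopologicalGroup G]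
    [PolishSpace G] [MeasurableSpace G] [BorelSpace G] [MeasurableSpace Y] [MulAction G Y]
    (hact : Measurable (fun z : Y × G => z.2 • z.1)) (p : Y → ℕ → ℕ) (hp : Measurable p) :
    ∃ q : Y → ℕ → ℕ, Measurable q ∧ (∀ (γ : G) (y : Y), q (γ • y) = q y) ∧
      ∀ (y : Y) (n : ℕ), ∃ γ : G, ∀ i, i < n → p (γ • y) i = q y i := by
  refine ⟨fun y n => (leftT G p (n + 1) y).getD n 0, ?_, ?_, ?_⟩
  · rw [measurable_pi_iff]
    intro n
    refine measurable_to_countable' fun k => ?_
    have : (fun y : Y => (leftT G p (n + 1) y).getD n 0) ⁻¹' {k} =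
        ⋃ (s : List ℕ), ⋃ (_ : s.getD n 0 = k), {y : Y | leftT G p (n + 1) y = s} := by
      ext y
      simp
    rw [this]
    exact MeasurableSet.iUnion fun s => MeasurableSet.iUnion fun _ => left_meas_T hact p hp _ s
  · intro γ y
    funext n
    simp only [left_T_inv]
  · intro y n
    have h := left_NM (G := G) p n y
    unfold leftNM at h
    have h2 : ∃ γ : G, leftM p y (leftT G p n y) γ := by
      by_contra hcon
      push Not at hcon
      exact h (Eventually.of_forall hcon)
    obtain ⟨γ, hγ⟩ := h2
    refine ⟨γ, fun i hi => ?_⟩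
    have := hγ i (by rw [left_len]; exact hi)
    rw [this]
    exact left_getD p n y i hi

end Pool.Agent.HK
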