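import Mathlib

/-!
# Borel reducibility and idealistic equivalence relations
-/

set_option autoImplicit false

namespace Pool.Agent.HK

open Filter Topology Set MeasureTheory

/-- `E` Borel reduces to `F`. -/
def BorelRed {X Y : Type} [MeasurableSpace X] [MeasurableSpace Y] (E : X → X → Prop)
    (F : Y → Y → Prop) : Prop :=
  ∃ f : X → Y, Measurable f ∧ ∀ x x', E x x' ↔ F (f x) (f x')

/-- Idealistic equivalence relations (Kechris, Louveau): every class carries a proper sigma-ideal,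
in a Borel-on-Borel way. -/
def Idealistic {Y : Type} [MeasurableSpace Y] (F : Y → Y → Prop) : Prop :=
  ∃ I : Y → Set (Set Y),
    (∀ y y', F y y' → I y = I y') ∧
    (∀ y, (∅ : Set Y) ∈ I y) ∧
    (∀ y A B, A ∈ I y → B ⊆ A → B ∈ I y) ∧
    (∀ y (A : ℕ → Set Y), (∀ n, A n ∈ I y) → (⋃ n, A n) ∈ I y) ∧
    (∀ y, {y' | F y y'} ∉ I y) ∧
    ∀ A : Set (Y × Y), MeasurableSet A → MeasurableSet {y | {y' | F y y' ∧ (y, y') ∈ A} ∈ I y}

end Pool.Agent.HK
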