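import Pool.Agent.Helper1.HK.Main
import Pool.Agent.Helper1.HK.Left
import Pool.Agent.Helper1.HK.Catq
import Pool.Agent.Helper1.HK.Red

/-! module IDEAL (helper89): idealistic relations -/

set_option autoImplicit false

namespace Pool.Agent.HK

open Filter Topology Set MeasureTheory

namespace Idl

section

variable {Y : Type} (F : Y → Y → Prop) (I : Y → Set (Set Y)) (p : Y → ℕ → ℕ)

/-- the elements of the class of `y` whose coordinates below `s.length` are given by `s` -/
def iM (y : Y) (s : List ℕ) : Set Y := {y' | F y y' ∧ ∀ i, i < s.length → p y' i = s.getD i 0}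

/-- not in the ideal -/
def iNM (y : Y) (s : List ℕ) : Prop := iM F p y s ∉ I y

/-- the leftmost branch outside the ideal -/
noncomputable def iT : ℕ → Y → List ℕ
  | 0, _ => []
  | n + 1, y => iT n y ++ [sInf {k | iNM F I p y (iT n y ++ [k])}]

theorem ideal_sInf_iff (S : Set ℕ) (k : ℕ) :
    sInf S = k ↔ (k ∈ S ∧ ∀ j, j < k → j ∉ S) ∨ (k = 0 ∧ ∀ j, j ∉ S) := by
  constructor
  · rintro rfl
    rcases S.eq_empty_or_nonempty with h | h
    · right
      subst h
      exact ⟨Nat.sInf_empty, fun j => Set.notMem_empty j⟩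
    · exact Or.inl ⟨Nat.sInf_mem h, fun j hj => Nat.notMem_of_lt_sInf hj⟩
  · rintro (⟨h1, h2⟩ | ⟨rfl, h2⟩)
    · refine le_antisymm (Nat.sInf_le h1) ?_
      by_contra hlt
      push Not at hlt
      exact h2 _ hlt (Nat.sInf_mem ⟨k, h1⟩)
    · have : S = ∅ := Set.eq_empty_iff_forall_notMem.2 h2
      rw [this, Nat.sInf_empty]

theorem i_len (n : ℕ) (y : Y) : (iT F I p n y).length = n := by
  induction n with
  | zero => rfl
  | succ n ih => simp [iT, ih]

theorem i_nil (hcl : ∀ y, {y' | F y y'} ∉ I y) (y : Y) : iNM F I p y [] := by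
  unfold iNM iM
  have : {y' | F y y' ∧ ∀ i, i < ([] : List ℕ).length → p y' i = ([] : List ℕ).getD i 0}
      = {y' | F y y'} := by
    ext y'
    simp
  rw [this]
  exact hcl y

theorem i_succ (hmono : ∀ y A B, A ∈ I y → B ⊆ A → B ∈ I y)
    (hunion : ∀ y (A : ℕ → Set Y), (∀ n, A n ∈ I y) → (⋃ n, A n) ∈ I y) (y : Y) (s : List ℕ)
    (h : iNM F I p y s) : ∃ k, iNM F I p y (s ++ [k]) := by
  by_contra hcon
  push Not at hcon
  apply h
  have h2 : ∀ k, iM F p y (s ++ [k]) ∈ I y := by
    intro k
    have := hcon k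
    unfold iNM at this
    exact not_not.1 this
  refine hmono y _ _ (hunion y _ h2) ?_
  rintro y' ⟨hy', hM⟩
  refine mem_iUnion.2 ⟨p y' s.length, hy', ?_⟩
  intro i hi
  rw [List.length_append, List.length_singleton] at hi
  rcases Nat.lt_succ_iff_lt_or_eq.1 hi with h1 | h1
  · rw [hM i h1, List.getD_append _ _ _ _ h1]
  · subst h1
    rw [List.getD_append_right _ _ _ _ le_rfl]
    simp

theorem i_NM (hcl : ∀ y, {y' | F y y'} ∉ I y) (hmono : ∀ y A B, A ∈ I y → B ⊆ A → B ∈ I y)
    (hunion : ∀ y (A : ℕ → Set Y), (∀ n, A n ∈ I y) → (⋃ n, A n) ∈ I y) (n : ℕ) (y : Y) :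
    iNM F I p y (iT F I p n y) := by
  induction n with
  | zero => exact i_nil F I p hcl y
  | succ n ih =>
    have h := i_succ F I p hmono hunion y _ ih
    exact Nat.sInf_mem (s := {k | iNM F I p y (iT F I p n y ++ [k])}) h

theorem i_inv (hF : Equivalence F) (hI : ∀ y y', F y y' → I y = I y') (y y' : Y) (s : List ℕ)
    (h : F y y') : iNM F I p y s ↔ iNM F I p y' s := by
  unfold iNM
  have h1 : iM F p y s = iM F p y' s := by
    ext z
    unfold iM
    constructor
    · rintro ⟨hz, hz'⟩
      exact ⟨hF.trans (hF.symm h) hz, hz'⟩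
    · rintro ⟨hz, hz'⟩
      exact ⟨hF.trans h hz, hz'⟩
  rw [h1, hI y y' h]

theorem i_T_inv (hF : Equivalence F) (hI : ∀ y y', F y y' → I y = I y') (n : ℕ) (y y' : Y)
    (h : F y y') : iT F I p n y = iT F I p n y' := by
  induction n with
  | zero => rfl
  | succ n ih =>
    have h1 : ∀ s, iNM F I p y s = iNM F I p y' s := fun s => propext (i_inv F I p hF hI y y' s h)
    simp only [iT, ih, h1]

theorem i_getD (n : ℕ) (y : Y) (i : ℕ) (hi : i < n) :
    (iT F I p n y).getD i 0 = (iT F I p (i + 1) y).getD i 0 := by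
  induction n with
  | zero => exact absurd hi (by simp)
  | succ n ih =>
    rcases Nat.lt_succ_iff_lt_or_eq.1 hi with h | h
    · rw [← ih h]
      simp only [iT]
      rw [List.getD_append _ _ _ _ (by rw [i_len]; exact h)]
    · subst h; rfl

variable [MeasurableSpace Y]

theorem i_meas_NM (hmeas : ∀ A : Set (Y × Y), MeasurableSet A →
      MeasurableSet {y | {y' | F y y' ∧ (y, y') ∈ A} ∈ I y})
    (hp : Measurable p) (s : List ℕ) : MeasurableSet {y : Y | iNM F I p y s} := by
  have hA : MeasurableSet {z : Y × Y | ∀ i, i < s.length → p z.2 i = s.getD i 0} := by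
    have e : {z : Y × Y | ∀ i, i < s.length → p z.2 i = s.getD i 0} =
        (⋂ i : ℕ, ⋂ _ : i < s.length, {z : Y × Y | p z.2 i = s.getD i 0}) := by
      ext z
      simp
    rw [e]
    refine MeasurableSet.iInter fun i => MeasurableSet.iInter fun _ => ?_
    have h1 : Measurable fun z : Y × Y => p z.2 i :=
      (measurable_pi_apply i).comp (hp.comp measurable_snd)
    exact h1 (measurableSet_singleton _)
  exact (hmeas _ hA).compl

theorem i_meas_T (hmeas : ∀ A : Set (Y × Y), MeasurableSet A →
      MeasurableSet {y | {y' | F y y' ∧ (y, y') ∈ A} ∈ I y})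
    (hp : Measurable p) (n : ℕ) (s : List ℕ) : MeasurableSet {y : Y | iT F I p n y = s} := by
  induction n generalizing s with
  | zero =>
    simp only [iT]
    exact MeasurableSet.const _
  | succ n ih =>
    have h1 : ∀ (s : List ℕ) (k : ℕ),
        MeasurableSet {y : Y | sInf {k | iNM F I p y (s ++ [k])} = k} := by
      intro s k
      have h2 : ∀ j, MeasurableSet {y : Y | iNM F I p y (s ++ [j])} := fun j =>
        i_meas_NM F I p hmeas hp _
      have e : {y : Y | sInf {k | iNM F I p y (s ++ [k])} = k} =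
          ({y : Y | iNM F I p y (s ++ [k])} ∩
            ⋂ j : ℕ, ⋂ _ : j < k, {y : Y | iNM F I p y (s ++ [j])}ᶜ) ∪
          ({_y : Y | k = 0} ∩ ⋂ j : ℕ, {y : Y | iNM F I p y (s ++ [j])}ᶜ) := by
        ext y
        have := ideal_sInf_iff {k | iNM F I p y (s ++ [k])} k
        simpa using this
      rw [e]
      refine MeasurableSet.union ?_ ?_
      · exact (h2 k).inter
          (MeasurableSet.iInter fun j => MeasurableSet.iInter fun _ => (h2 j).compl)
      · exact (MeasurableSet.const _).inter (MeasurableSet.iInter fun j => (h2 j).compl)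
    have h3 : {y : Y | iT F I p (n + 1) y = s} = ⋃ (s' : List ℕ), ⋃ (k : ℕ),
        ⋃ (_ : s' ++ [k] = s), ({y : Y | iT F I p n y = s'} ∩
          {y : Y | sInf {k | iNM F I p y (s' ++ [k])} = k}) := by
      ext y
      simp only [mem_ofPred_eq, mem_iUnion, mem_inter_iff, exists_prop]
      constructor
      · intro h
        exact ⟨_, _, h, rfl, rfl⟩
      · rintro ⟨s', k, h, rfl, h2⟩
        rw [← h, ← h2]
        rfl
    rw [h3]
    exact MeasurableSet.iUnion fun s' => MeasurableSet.iUnion fun k => MeasurableSet.iUnion fun _ =>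
      (ih s').inter (h1 s' k)

end

end Idl

open Idl

/-- leftmost selection for idealistic relations (same proof as `leftmost`) -/
theorem leftmost_ideal {Y : Type} [MeasurableSpace Y] (F : Y → Y → Prop) (hF : Equivalence F)
    (hI : Idealistic F) (p : Y → ℕ → ℕ) (hp : Measurable p) :
    ∃ q : Y → ℕ → ℕ, Measurable q ∧ (∀ y y', F y y' → q y = q y') ∧
      ∀ (y : Y) (n : ℕ), ∃ y', F y y' ∧ ∀ i, i < n → p y' i = q y i := by
  obtain ⟨I, hinv, hemp, hmono, hunion, hcl, hmeas⟩ := hI
  refine ⟨fun y n => (iT F I p (n + 1) y).getD n 0, ?_, ?_, ?_⟩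
  · rw [measurable_pi_iff]
    intro n
    refine measurable_to_countable' fun k => ?_
    have : (fun y : Y => (iT F I p (n + 1) y).getD n 0) ⁻¹' {k} =
        ⋃ (s : List ℕ), ⋃ (_ : s.getD n 0 = k), {y : Y | iT F I p (n + 1) y = s} := by
      ext y
      simp
    rw [this]
    exact MeasurableSet.iUnion fun s => MeasurableSet.iUnion fun _ =>
      i_meas_T F I p hmeas hp _ s
  · intro y y' h
    funext n
    simp only [i_T_inv F I p hF hinv _ y y' h]
  · intro y n
    have h := i_NM F I p hcl hmono hunion n y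
    unfold iNM at h
    have h2 : (iM F p y (iT F I p n y)).Nonempty := by
      by_contra hcon
      rw [Set.not_nonempty_iff_eq_empty] at hcon
      rw [hcon] at h
      exact h (hemp y)
    obtain ⟨y', hy', hM⟩ := h2
    refine ⟨y', hy', fun i hi => ?_⟩
    have := hM i (by rw [i_len]; exact hi)
    rw [this]
    exact i_getD F I p n y i hi

theorem orbit_idealistic (G Y : Type) [TopologicalSpace G] [Group G] [IsTopologicalGroup G]
    [PolishSpace G] [TopologicalSpace Y] [PolishSpace Y] [MeasurableSpace Y] [BorelSpace Y]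
    [MulAction G Y] [ContinuousSMul G Y] :
    Idealistic (fun y y' : Y => ∃ g : G, y' = g • y) := by
  borelize G
  have hbaire : BaireSpace G := by
    let _ := TopologicalSpace.upgradeIsCompletelyMetrizable G
    infer_instance
  have hshift : ∀ (Q : G → Prop) (γ' : G), (∀ᶠ γ in residual G, Q γ) →
      ∀ᶠ γ in residual G, Q (γ * γ') := by
    intro Q γ' h
    have := tendsto_residual_of_isOpenMap (continuous_mul_const γ')
      (Homeomorph.mulRight γ').isOpenMap
    exact this.eventually h
  refine ⟨fun y => {A | ∀ᶠ g : G in residual G, g • y ∉ A}, ?_, ?_, ?_, ?_, ?_, ?_⟩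
  · rintro y _ ⟨h, rfl⟩
    ext A
    constructor
    · intro hA
      have := hshift _ h hA
      change ∀ᶠ g : G in residual G, g • h • y ∉ A
      filter_upwards [this] with g hg
      rw [smul_smul]
      exact hg
    · intro hA
      have := hshift _ h⁻¹ hA
      change ∀ᶠ g : G in residual G, g • y ∉ A
      filter_upwards [this] with g hg
      rw [smul_smul, inv_mul_cancel_right] at hg
      exact hg
  · intro y
    change ∀ᶠ g : G in residual G, g • y ∉ (∅ : Set Y)
    exact Eventually.of_forall fun g => notMem_empty _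
  · intro y A B hA hBA
    change ∀ᶠ g : G in residual G, g • y ∉ B
    have hA' : ∀ᶠ g : G in residual G, g • y ∉ A := hA
    filter_upwards [hA'] with g hg hgB
    exact hg (hBA hgB)
  · intro y A hA
    change ∀ᶠ g : G in residual G, g • y ∉ ⋃ n, A n
    have hA' : ∀ᶠ g : G in residual G, ∀ n, g • y ∉ A n := by
      rw [eventually_countable_forall]
      exact hA
    filter_upwards [hA'] with g hg hgU
    obtain ⟨n, hn⟩ := mem_iUnion.1 hgU
    exact hg n hn
  · intro y h
    have h' : ∀ᶠ g : G in residual G, g • y ∉ {y' | ∃ g : G, y' = g • y} := h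
    have h2 : ∀ᶠ γ in residual G, False := by
      filter_upwards [h'] with γ hγ
      exact hγ ⟨γ, rfl⟩
    obtain ⟨x, hx⟩ := (dense_of_mem_residual h2).nonempty
    exact hx
  · intro A hA
    have hact : Measurable (fun z : Y × G => (z.1, z.2 • z.1)) := by
      have : Continuous (fun z : Y × G => (z.1, z.2 • z.1)) :=
        continuous_fst.prodMk (continuous_snd.smul continuous_fst)
      exact this.measurable
    have hB : MeasurableSet {z : Y × G | (z.1, z.2 • z.1) ∉ A} := (hact hA).compl
    have h := measurableSet_eventually_residual (X := Y) (Y := G) hB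
    convert h using 1
    ext y
    constructor
    · intro hy
      have hy' : ∀ᶠ g : G in residual G, g • y ∉ {y' | (∃ g : G, y' = g • y) ∧ (y, y') ∈ A} := hy
      change ∀ᶠ g : G in residual G, (y, g • y) ∉ A
      filter_upwards [hy'] with g hg hgA
      exact hg ⟨⟨g, rfl⟩, hgA⟩
    · intro hy
      have hy' : ∀ᶠ g : G in residual G, (y, g • y) ∉ A := hy
      change ∀ᶠ g : G in residual G, g • y ∉ {y' | (∃ g : G, y' = g • y) ∧ (y, y') ∈ A}
      filter_upwards [hy'] with g hg hgA
      exact hg hgA.2

/-- no idealistic relation is bireducible with `EE φ` (same proof as `not_bireducible`) -/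
theorem not_bireducible_ideal (φ : (ℕ → ℕ) → (ℕ → Bool)) (hφ : Continuous φ)
    (hnb : ¬ MeasurableSet (Set.range φ)) {Y : Type} [MeasurableSpace Y] [StandardBorelSpace Y]
    (F : Y → Y → Prop) (hF : Equivalence F) (hI : Idealistic F) :
    ¬ (BorelRed (EE φ) F ∧ BorelRed F (EE φ)) := by
  rintro ⟨⟨h, hh, hhE⟩, ⟨g, hg, hgE⟩⟩
  obtain ⟨q, hq, hqinv, hqap⟩ := leftmost_ideal F hF hI (fun y => (g y).1) (measurable_fst.comp hg)
  -- `φ (q y) = φ (g y).1`
  have hφq : ∀ y, φ (q y) = φ (g y).1 := by
    intro y
    funext i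
    have ho : IsOpen {s : ℕ → ℕ | φ s i = φ (q y) i} :=
      (isOpen_discrete {φ (q y) i}).preimage ((continuous_apply i).comp hφ)
    obtain ⟨n, hn⟩ := exists_cyl_subset (A := fun _ => ℕ) ho (x := q y) rfl
    obtain ⟨y', hyy', hγ⟩ := hqap y n
    have h1 : φ (g y').1 i = φ (q y) i := hn hγ
    have h2 : EE φ (g y) (g y') := (hgE _ _).mp hyy'
    rw [← h1, ← h2.1]
  have hqE : ∀ x x', EE φ x x' → q (h x) = q (h x') := by
    intro x x' hxx
    exact hqinv _ _ ((hhE x x').mp hxx)
  let D : Set (ℕ → ℕ) := {s | ∀ᶠ x in residual P, q (h (s, x)) = s}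
  have hD : MeasurableSet D := by
    have hB : MeasurableSet {z : (ℕ → ℕ) × P | q (h z) = z.1} :=
      measurableSet_eq_fun (hq.comp hh) measurable_fst
    exact measurableSet_eventually_residual hB
  have hinj : InjOn φ D := by
    intro s hs s' hs' hss
    have hs1 : ∀ᶠ x in residual P, q (h (s, x)) = s := hs
    have hs2 : ∀ᶠ x in residual P, q (h (s', x)) = s' := hs'
    have hne : (residual P).NeBot := by
      rw [neBot_iff]
      intro hbot
      have : (∅ : Set P) ∈ residual P := by rw [hbot]; trivial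
      have h2 := dense_of_mem_residual this
      obtain ⟨x, hx⟩ := h2.nonempty
      exact hx
    obtain ⟨x, hx1, hx2⟩ := (hs1.and hs2).exists
    rw [← hx1, ← hx2]
    exact hqE _ _ ⟨hss, FT_refl _ _⟩
  have himg : Set.range φ = φ '' D := by
    apply Subset.antisymm
    · rintro _ ⟨s, rfl⟩
      obtain ⟨c, hc⟩ := const_of_invariant (A := Blk) (fun x => q (h (s, x)))
        (by
          intro n d
          have hm : Measurable (fun x : P => q (h (s, x)) n) :=
            (measurable_pi_apply n).comp (hq.comp (hh.comp measurable_prodMk_left))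
          have : MeasurableSet {x : P | q (h (s, x)) n = d} :=
            hm (MeasurableSet.of_discrete (s := {d}))
          exact this.baireMeasurableSet)
        (by
          rintro x y hxy
          exact hqE _ _ ⟨rfl, FT_of_eventually_eq hxy⟩)
      have hφc : φ c = φ s := by
        by_contra hne
        have hne' : φ s ≠ φ c := fun h => hne h.symm
        refine rigid (Br (φ s)) (Br (φ c)) (Br_diff_infinite hne')
          (fun x => (g (h (s, x))).2)
          (bmf_of_measurable (measurable_snd.comp (hg.comp (hh.comp measurable_prodMk_left))))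
          {x | q (h (s, x)) = c} hc ?_
        intro x hx y hy
        have hx' : q (h (s, x)) = c := hx
        have hy' : q (h (s, y)) = c := hy
        have h1 : FT (Br (φ s)) x y ↔ EE φ (s, x) (s, y) := by
          unfold EE
          simp
        rw [h1, hhE, hgE]
        unfold EE
        rw [← hφq, ← hφq, hx', hy']
        simp
      refine ⟨c, ?_, hφc⟩
      show ∀ᶠ x in residual P, q (h (c, x)) = c
      filter_upwards [hc] with x hx
      rw [← hqE (s, x) (c, x) ⟨hφc.symm, FT_refl _ _⟩]
      exact hx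
    · rintro _ ⟨s, _, rfl⟩
      exact ⟨s, rfl⟩
  apply hnb
  rw [himg]
  exact hD.image_of_continuousOn_injOn hφ.continuousOn hinj

end Pool.Agent.HK
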