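import Mathlib

/-!
An analytic subset of the Cantor space which is not Borel, as the range of a continuous map.
-/

namespace Pool.Agent.HK

open Filter Topology Set MeasureTheory

namespace NonBorel

instance polishSpace_bool : PolishSpace Bool := inferInstance

/-- The code of the first `n` values of `(c, q)`. -/
noncomputable def e (c : ℕ → Bool) (q : ℕ → ℕ) (n : ℕ) : ℕ :=
  Encodable.encode (List.ofFn (fun i : Fin n => (c i, q i)))

lemma e_inj {c c' : ℕ → Bool} {q q' : ℕ → ℕ} {n n' : ℕ} (h : e c q n = e c' q' n') :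
    n = n' ∧ ∀ i, i < n → c i = c' i ∧ q i = q' i := by
  have h1 := Encodable.encode_injective h
  have h2 : n = n' := by
    have := congrArg List.length h1
    simpa using this
  subst h2
  refine ⟨rfl, fun i hi => ?_⟩
  have h3 := List.ofFn_injective h1
  have h4 := congrFun h3 ⟨i, hi⟩
  simpa using h4

lemma continuous_e (n : ℕ) : Continuous (fun z : (ℕ → Bool) × (ℕ → ℕ) => e z.1 z.2 n) := by
  have h1 : Continuous (fun z : (ℕ → Bool) × (ℕ → ℕ) => (fun i : Fin n => (z.1 i, z.2 i))) := by
    fun_prop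
  have h2 : Continuous (fun g : Fin n → Bool × ℕ => Encodable.encode (List.ofFn g)) :=
    continuous_of_discreteTopology
  exact h2.comp h1

/-- The closed set. -/
def FA : Set ((ℕ → Bool) × (ℕ → ℕ)) := {z | ∀ n, z.1 (e z.1 z.2 n) = false}

lemma isClosed_FA : IsClosed FA := by
  have : FA = ⋂ n, {z : (ℕ → Bool) × (ℕ → ℕ) | z.1 (e z.1 z.2 n) = false} := by
    ext z; simp [FA]
  rw [this]
  apply isClosed_iInter
  intro n
  rw [← isOpen_compl_iff]
  have : {z : (ℕ → Bool) × (ℕ → ℕ) | z.1 (e z.1 z.2 n) = false}ᶜ =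
      ⋃ N : ℕ, ({z : (ℕ → Bool) × (ℕ → ℕ) | e z.1 z.2 n = N} ∩
        {z : (ℕ → Bool) × (ℕ → ℕ) | z.1 N = true}) := by
    ext z
    simp
  rw [this]
  apply isOpen_iUnion
  intro N
  apply IsOpen.inter
  · exact (isOpen_discrete {N}).preimage (continuous_e n)
  · have h : Continuous (fun z : (ℕ → Bool) × (ℕ → ℕ) => z.1 N) := by fun_prop
    exact (isOpen_discrete {true}).preimage h

/-- The analytic set. -/
def A : Set (ℕ → Bool) := Prod.fst '' FA

lemma mem_A (c : ℕ → Bool) : c ∈ A ↔ ∃ q : ℕ → ℕ, ∀ n, c (e c q n) = false := by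
  constructor
  · rintro ⟨z, hz, rfl⟩
    exact ⟨z.2, hz⟩
  · rintro ⟨q, hq⟩
    exact ⟨(c, q), hq, rfl⟩

lemma analytic_A : AnalyticSet A := isClosed_FA.analyticSet.image_of_continuous continuous_fst

lemma not_measurable_A : ¬ MeasurableSet A := by
  classical
  intro hA
  have h1 : AnalyticSet Aᶜ := hA.compl.analyticSet
  rw [AnalyticSet] at h1
  rcases h1 with h1 | ⟨ψ, hψ, hr⟩
  · have h2 : (fun _ => true : ℕ → Bool) ∈ A := by
      by_contra h
      have : (fun _ => true : ℕ → Bool) ∈ Aᶜ := h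
      rw [h1] at this
      exact this
    rw [mem_A] at h2
    obtain ⟨q, hq⟩ := h2
    exact absurd (hq 0) (by simp)
  · obtain ⟨c, hc⟩ : ∃ c : ℕ → Bool, ∀ N, c N = false ↔ ∃ q n, e (ψ q) q n = N := by
      refine ⟨fun N => if ∃ q n, e (ψ q) q n = N then false else true, fun N => ?_⟩
      by_cases h : ∃ q n, e (ψ q) q n = N <;> simp [h]
    have key : ∀ q, ψ q = c ↔ ∀ n, c (e c q n) = false := by
      intro q
      constructor
      · intro h n
        rw [hc]
        exact ⟨q, n, by rw [h]⟩
      · intro h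
        have h2 : ∀ n, ∃ q', ∀ i, i < n → ψ q' i = c i ∧ q' i = q i := by
          intro n
          obtain ⟨q', n', h3⟩ := (hc _).1 (h n)
          obtain ⟨h4, h5⟩ := e_inj h3
          exact ⟨q', fun i hi => h5 i (by omega)⟩
        choose Q hQ using h2
        have t1 : Tendsto Q atTop (𝓝 q) := by
          rw [tendsto_pi_nhds]
          intro i
          apply tendsto_const_nhds.congr'
          filter_upwards [eventually_gt_atTop i] with n hn
          exact ((hQ n i hn).2).symm
        have t2 : Tendsto (fun n => ψ (Q n)) atTop (𝓝 c) := by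
          rw [tendsto_pi_nhds]
          intro i
          apply tendsto_const_nhds.congr'
          filter_upwards [eventually_gt_atTop i] with n hn
          exact ((hQ n i hn).1).symm
        have t3 : Tendsto (fun n => ψ (Q n)) atTop (𝓝 (ψ q)) := (hψ.tendsto q).comp t1
        exact tendsto_nhds_unique t3 t2
    by_cases hcA : c ∈ A
    · obtain ⟨q, hq⟩ := (mem_A c).1 hcA
      have h2 : c ∈ Set.range ψ := ⟨q, (key q).2 hq⟩
      rw [hr] at h2
      exact h2 hcA
    · have h2 : c ∈ Set.range ψ := by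
        rw [hr]
        exact hcA
      obtain ⟨q, hq⟩ := h2
      exact hcA ((mem_A c).2 ⟨q, (key q).1 hq⟩)

end NonBorel

theorem exists_nonBorel_range :
    ∃ φ : (ℕ → ℕ) → (ℕ → Bool), Continuous φ ∧ ¬ MeasurableSet (Set.range φ) := by
  have h := NonBorel.analytic_A
  rw [AnalyticSet] at h
  rcases h with h | ⟨φ, hφ, hr⟩
  · exfalso
    have h2 : (fun _ => false : ℕ → Bool) ∈ NonBorel.A := by
      rw [NonBorel.mem_A]
      exact ⟨fun _ => 0, fun _ => rfl⟩
    rw [h] at h2
    exact h2
  · refine ⟨φ, hφ, ?_⟩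
    rw [hr]
    exact NonBorel.not_measurable_A

end Pool.Agent.HK
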