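import Pool.Agent.Helper1.HK.Base

set_option autoImplicit false

namespace Pool.Agent.HK

open Filter Topology Set MeasureTheory

namespace Rigid

lemma two_div_le {j a : ℕ} (hj : 1 ≤ j) : a / (2 * j) * 2 ≤ a / j := by
  rw [Nat.le_div_iff_mul_le (by omega)]
  calc a / (2 * j) * 2 * j = a / (2 * j) * (2 * j) := by ring
    _ ≤ a := Nat.div_mul_le_self _ _

/-- chains: close neighbours give a global estimate -/
lemma chain {n m : ℕ} (D : ℕ) (F : Blk n → Blk m)
    (hF : ∀ v v' : Blk n, v'.1 = v.1 + 1 → Nat.dist (F v).1 (F v').1 ≤ D) :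
    ∀ (d : ℕ) (v v' : Blk n), v'.1 = v.1 + d → Nat.dist (F v).1 (F v').1 ≤ d * D := by
  intro d
  induction d with
  | zero =>
    intro v v' h
    have : v' = v := Fin.ext (by simpa using h)
    rw [this, Nat.dist_self]
    exact Nat.zero_le _
  | succ d ih =>
    intro v v' h
    have hlt : v.1 + d < 2 ^ K n := by
      have := v'.2
      omega
    have h1 := ih v ⟨v.1 + d, hlt⟩ rfl
    have h2 := hF ⟨v.1 + d, hlt⟩ v' (by simp only; omega)
    have h3 := Nat.dist.triangle_inequality (F v).1 (F ⟨v.1 + d, hlt⟩).1 (F v').1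
    calc Nat.dist (F v).1 (F v').1 ≤ _ := h3
      _ ≤ d * D + D := Nat.add_le_add h1 h2
      _ = (d + 1) * D := by ring

lemma chain_cl {j n m : ℕ} (hj : 1 ≤ j) (hjn : j ≤ n) (hnm : n < m) (F : Blk n → Blk m)
    (hF : ∀ v v' : Blk n, Nat.dist v.1 v'.1 ≤ 1 → cl (2 * j) m (F v) (F v')) :
    ∀ v v' : Blk n, cl j m (F v) (F v') := by
  have key : ∀ v v' : Blk n, v.1 ≤ v'.1 → cl j m (F v) (F v') := by
    intro v v' hvv
    have h1 := chain (2 ^ (K m / (2 * j))) F
      (fun a b hab => le_of_lt (hF a b (by rw [hab, Nat.dist]; omega))) (v'.1 - v.1) v v' (by omega)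
    have h2 : v'.1 - v.1 < 2 ^ K n := by
      have := v'.2
      omega
    have h3 : K n ≤ K m / (2 * j) := by
      rw [Nat.le_div_iff_mul_le (by omega)]
      calc K n * (2 * j) = 2 * j * K n := by ring
        _ ≤ K m := K_growth hjn hnm
    have h4 : K n + K m / (2 * j) ≤ K m / j := by
      have := two_div_le (a := K m) hj
      omega
    unfold cl
    calc Nat.dist (F v).1 (F v').1 ≤ (v'.1 - v.1) * 2 ^ (K m / (2 * j)) := h1
      _ < 2 ^ K n * 2 ^ (K m / (2 * j)) := Nat.mul_lt_mul_of_pos_right h2 (by positivity)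
      _ = 2 ^ (K n + K m / (2 * j)) := by rw [pow_add]
      _ ≤ 2 ^ (K m / j) := Nat.pow_le_pow_right (by norm_num) h4
  intro v v'
  rcases le_total v.1 v'.1 with h | h
  · exact key v v' h
  · exact cl_symm (key v' v h)

/-- pigeonhole : two far values with the same data below `n` -/
lemma pigeon {n : ℕ} (F : Blk n → P) :
    ∃ v v' : Blk n, 2 ^ (K n / 2) ≤ Nat.dist v.1 v'.1 ∧ ∀ m, m < n → F v m = F v' m := by
  have hlt : ∀ i : Fin (2 ^ (K n / 2)), i.1 * 2 ^ (K n / 2) < 2 ^ K n := by
    intro i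
    calc i.1 * 2 ^ (K n / 2) < 2 ^ (K n / 2) * 2 ^ (K n / 2) :=
          Nat.mul_lt_mul_of_pos_right i.2 (by positivity)
      _ = 2 ^ K n := by rw [← pow_add, ← two_mul, K_even]
  let φ : Fin (2 ^ (K n / 2)) → (∀ m : Fin n, Blk m.1) :=
    fun i m => F ⟨i.1 * 2 ^ (K n / 2), hlt i⟩ m.1
  have hcard : Fintype.card (∀ m : Fin n, Blk m.1) < Fintype.card (Fin (2 ^ (K n / 2))) := by
    rw [Fintype.card_pi, Fintype.card_fin]
    have h1 : ∏ m : Fin n, Fintype.card (Blk m.1) = 2 ^ (∑ m ∈ Finset.range n, K m) := by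
      rw [← Finset.prod_pow_eq_pow_sum, ← Fin.prod_univ_eq_prod_range (fun m => 2 ^ K m) n]
      refine Finset.prod_congr rfl fun m _ => ?_
      rw [Fintype.card_fin]
    rw [h1]
    refine Nat.pow_lt_pow_right (by norm_num) ?_
    have h2 := two_mul_sum_K_lt n
    have h3 := K_even n
    omega
  obtain ⟨i, i', hne, heq⟩ := Fintype.exists_ne_map_eq_of_card_lt φ hcard
  refine ⟨⟨i.1 * 2 ^ (K n / 2), hlt i⟩, ⟨i'.1 * 2 ^ (K n / 2), hlt i'⟩, ?_, ?_⟩
  · simp only
    have hd : 1 ≤ Nat.dist i.1 i'.1 := by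
      rw [Nat.one_le_iff_ne_zero]
      intro h0
      exact hne (Fin.ext (Nat.eq_of_dist_eq_zero h0))
    rw [Nat.dist_mul_right]
    calc 2 ^ (K n / 2) = 1 * 2 ^ (K n / 2) := by ring
      _ ≤ _ := Nat.mul_le_mul_right _ hd
  · intro m hm
    have := congrFun heq ⟨m, hm⟩
    exact this

end Rigid

open Rigid in
/-- `rigid`, from the statements of `asc` and `afl` for the block space -/
theorem Rigid.rigid_core (S T : Set ℕ) (hST : (S \ T).Infinite) (f : P → P) (hf : BMf f) (C : Set P)
    (hC : C ∈ residual P) (h : ∀ x ∈ C, ∀ y ∈ C, (FT S x y ↔ FT T (f x) (f y)))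
    (Hasc : ∀ (R : ∀ i, Blk i → Blk i → Prop) (_ : ∀ i a, R i a a)
      (_ : ∀ x ∈ C, ∀ y ∈ C, (∀ i, R i (x i) (y i)) → FT T (f x) (f y))
      (j : ℕ) (_ : 1 ≤ j) (b : P) (L : ℕ),
      ∃ (b' : P) (L' : ℕ), L ≤ L' ∧ (∀ i, i < L → b' i = b i) ∧
        ∀ (n : ℕ), L' ≤ n → ∀ v v' : Blk n, R n v v' →
          ∀ᶠ w in residual P, ∀ m, m ∈ T →
            cl j m (f (Function.update (spl L' b' w) n v) m)
              (f (Function.update (spl L' b' w) n v') m))
    (Hafl : ∀ (_ : P)
      (_ : ∀ x ∈ C, ∀ y ∈ C, (∃ N, ∀ i, N ≤ i → x i = y i) → FT T (f x) (f y))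
      (Good : ℕ → ∀ n, Blk n → Blk n → Prop)
      (_ : ∀ (j k : ℕ), 1 ≤ j → ∀ (b : P) (L : ℕ),
        ∃ (b' : P) (L' n : ℕ) (v v' : Blk n), L ≤ n ∧ n < L' ∧
          (∀ i, i < L → b' i = b i) ∧ Good k n v v' ∧
          ∀ᶠ w in residual P, ∀ m, m ∈ T →
            cl j m (f (spl L' (Function.update b' n v) w) m)
              (f (spl L' (Function.update b' n v') w) m)),
      ∃ x ∈ C, ∃ y ∈ C, FT T (f x) (f y) ∧ ∃ nn : ℕ → ℕ, StrictMono nn ∧
        (∀ k, Good k (nn k) (x (nn k)) (y (nn k))) ∧ ∀ i, i ∉ Set.range nn → x i = y i) :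
    False := by
  have a0 : P := fun n => ⟨0, by positivity⟩
  have hmain := Hafl a0
    (fun x hx y hy hN => (h x hx y hy).mp (FT_of_eventually_eq hN))
    (fun _ n v v' => n ∈ S ∧ 2 ^ (K n / 2) ≤ Nat.dist v.1 v'.1) ?_
  · obtain ⟨x, hx, y, hy, hFT, nn, hmono, hgood, -⟩ := hmain
    have h1 := (h x hx y hy).mpr hFT
    obtain ⟨M, hM⟩ := h1 2 (by norm_num)
    obtain ⟨h2, h3⟩ := hgood M
    have h4 := hM (nn M) (hmono.id_le M) h2
    unfold cl at h4
    omega
  · intro j k hj b L
    obtain ⟨b1, L1, hL1, hb1, H⟩ := Hasc (fun _ u v => Nat.dist u.1 v.1 ≤ 1)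
      (fun i a => by rw [Nat.dist_self]; norm_num)
      (fun x hx y hy hxy => (h x hx y hy).mp (by
        intro j' hj'
        refine ⟨j', fun m hm _ => ?_⟩
        unfold cl
        have h1 : 1 ≤ K m / j' := by
          rw [Nat.le_div_iff_mul_le (by omega)]
          have := le_K m
          omega
        calc Nat.dist (x m).1 (y m).1 ≤ 1 := hxy m
          _ < 2 ^ 1 := by norm_num
          _ ≤ 2 ^ (K m / j') := Nat.pow_le_pow_right (by norm_num) h1))
      (2 * j) (by omega) b L
    obtain ⟨n, ⟨hnS, hnT⟩, hn⟩ := hST.exists_gt (max L1 (2 * j))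
    have hnL1 : L1 ≤ n := le_of_lt (lt_of_le_of_lt (le_max_left _ _) hn)
    have hnj : 2 * j ≤ n := le_of_lt (lt_of_le_of_lt (le_max_right _ _) hn)
    -- the chain property
    have hch : ∀ᶠ w in residual P, ∀ m, m ∈ T → n < m → ∀ v v' : Blk n,
        cl j m (f (Function.update (spl L1 b1 w) n v) m)
          (f (Function.update (spl L1 b1 w) n v') m) := by
      have h1 : ∀ᶠ w in residual P, ∀ v v' : Blk n, Nat.dist v.1 v'.1 ≤ 1 → ∀ m, m ∈ T →
          cl (2 * j) m (f (Function.update (spl L1 b1 w) n v) m)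
            (f (Function.update (spl L1 b1 w) n v') m) := by
        rw [eventually_countable_forall]
        intro v
        rw [eventually_countable_forall]
        intro v'
        by_cases hvv : Nat.dist v.1 v'.1 ≤ 1
        · filter_upwards [H n hnL1 v v' hvv] with w hw _
          exact hw
        · exact Eventually.of_forall fun w hvv' => absurd hvv' hvv
      filter_upwards [h1] with w hw m hmT hnm
      exact chain_cl hj (by omega) hnm
        (fun v => f (Function.update (spl L1 b1 w) n v) m)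
        (fun v v' hvv => hw v v' hvv m hmT)
    -- measurability
    have hBM : ∀ v : Blk n, BMf (fun w : P => f (Function.update (spl L1 b1 w) n v)) := by
      intro v
      exact (hf.comp_open (continuous_id.update n continuous_const)
        (isOpenMap_update n v)).comp_open (continuous_spl L1 b1) (isOpenMap_spl L1 b1)
    let W : Blk n × Blk n → Set P := fun p => {w : P | 2 ^ (K n / 2) ≤ Nat.dist p.1.1 p.2.1 ∧
      ∀ m, m < n → f (Function.update (spl L1 b1 w) n p.1) m
        = f (Function.update (spl L1 b1 w) n p.2) m}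
    have hW : ∀ p, BaireMeasurableSet (W p) := by
      intro p
      by_cases hp : 2 ^ (K n / 2) ≤ Nat.dist p.1.1 p.2.1
      · have : W p = ⋂ m : Fin n, ⋃ y : Blk m.1,
            ({w : P | f (Function.update (spl L1 b1 w) n p.1) m.1 = y} ∩
              {w : P | f (Function.update (spl L1 b1 w) n p.2) m.1 = y}) := by
          ext w
          simp only [W, mem_ofPred_eq, mem_iInter, mem_iUnion, mem_inter_iff]
          constructor
          · rintro ⟨-, h2⟩ m
            exact ⟨_, rfl, (h2 m.1 m.2).symm⟩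
          · intro h2
            refine ⟨hp, fun m hm => ?_⟩
            obtain ⟨y, h3, h4⟩ := h2 ⟨m, hm⟩
            exact h3.trans h4.symm
        rw [this]
        refine BaireMeasurableSet.iInter fun m => BaireMeasurableSet.iUnion fun y => ?_
        exact (hBM p.1 m.1 y).inter (hBM p.2 m.1 y)
      · have : W p = ∅ := by
          ext w
          simp only [W, mem_ofPred_eq, mem_empty_iff_false, iff_false]
          exact fun h => hp h.1
        rw [this]
        exact isOpen_empty.baireMeasurableSet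
    have hcov : ∀ᶠ w in residual P, ∃ p, w ∈ W p := by
      refine Eventually.of_forall fun w => ?_
      obtain ⟨v, v', h1, h2⟩ := pigeon (fun v : Blk n => f (Function.update (spl L1 b1 w) n v))
      exact ⟨(v, v'), h1, h2⟩
    obtain ⟨⟨v, v'⟩, c, L3, hL3, -, hc, hres⟩ := exists_cyl_of_cover W hW hcov b1 (n + 1) 0
    have hne : ∃ w : P, spl L3 c w ∈ W (v, v') := by
      have hd := dense_of_mem_residual hres
      exact hd.nonempty
    obtain ⟨w0, hw0⟩ := hne
    refine ⟨c, L3, n, v, v', hL1.trans hnL1, by omega, ?_, ⟨hnS, hw0.1⟩, ?_⟩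
    · intro i hi
      rw [hc i (by omega), hb1 i hi]
    · filter_upwards [hres, (tendsto_spl L3 c).eventually hch] with w hw1 hw2 m hmT
      have e0 : spl L1 b1 (spl L3 c w) = spl L3 c w := by
        apply spl_of_mem_cyl
        intro i hi
        rw [spl_lt (show i < L3 by omega), hc i (by omega)]
      have e1 : ∀ u : Blk n, spl L3 (Function.update c n u) w
          = Function.update (spl L1 b1 (spl L3 c w)) n u := by
        intro u
        rw [e0, update_spl (by omega)]
      rw [e1, e1]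
      rcases lt_trichotomy m n with hmn | hmn | hmn
      · have := hw1.2 m hmn
        simp only at this
        rw [this]
        exact cl_refl _ _ _
      · exact absurd (hmn ▸ hmT) hnT
      · exact hw2 m hmT hmn v v'

end Pool.Agent.HK
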