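import Pool.Agent.Helper1.HK.Asc
import Pool.Agent.Helper1.HK.Afl
import Pool.Agent.Helper1.HK.RigidCore

set_option autoImplicit false

namespace Pool.Agent.HK

open Filter Topology Set MeasureTheory

theorem rigid (S T : Set ℕ) (hST : (S \ T).Infinite) (f : P → P) (hf : BMf f) (C : Set P)
    (hC : C ∈ residual P) (h : ∀ x ∈ C, ∀ y ∈ C, (FT S x y ↔ FT T (f x) (f y))) : False :=
  Rigid.rigid_core S T hST f hf C hC h
    (fun R hR hfC j hj b L => asc R hR f hf T C hC hfC j hj b L)
    (fun a0 hfin Good hG => afl f hf T C hC a0 hfin Good hG)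

end Pool.Agent.HK
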