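import Pool.Agent.Helper1.HK.ZeroOne
import Pool.Agent.Helper1.HK.Rigid
import Pool.Agent.Helper1.HK.E1L
import Pool.Agent.Helper1.HK.NonBorel
import Pool.Agent.Helper1.HK.Left
import Pool.Agent.Helper1.HK.Adf

set_option autoImplicit false

namespace Pool.Agent.HK

open Filter Topology Set MeasureTheory

/-- the counterexample -/
def EE (φ : (ℕ → ℕ) → (ℕ → Bool)) (z z' : (ℕ → ℕ) × P) : Prop :=
  φ z.1 = φ z'.1 ∧ FT (Br (φ z.1)) z.2 z'.2

lemma EE_equivalence (φ : (ℕ → ℕ) → (ℕ → Bool)) : Equivalence (EE φ) where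
  refl z := ⟨rfl, FT_refl _ _⟩
  symm {z z'} h := ⟨h.1.symm, by rw [← h.1]; exact FT_symm h.2⟩
  trans {z z' z''} h h' := ⟨h.1.trans h'.1, FT_trans h.2 (by rw [h.1]; exact h'.2)⟩

lemma bmf_of_measurable {Z : Type} [TopologicalSpace Z] [MeasurableSpace Z] [BorelSpace Z]
    {f : Z → P} (hf : Measurable f) : BMf f := by
  intro m y
  have : MeasurableSet {x | f x m = y} := by
    have h1 : Measurable (fun x => f x m) := (measurable_pi_apply m).comp hf
    exact h1 (MeasurableSet.of_discrete (s := {y}))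
  exact this.baireMeasurableSet

lemma not_E1_le (φ : (ℕ → ℕ) → (ℕ → Bool)) (hφ : Measurable φ) :
    ¬ ∃ f : (ℕ → unitInterval) → (ℕ → ℕ) × P, Measurable f ∧
          ∀ x y : ℕ → unitInterval, (∃ N : ℕ, ∀ n ≥ N, x n = y n) ↔ EE φ (f x) (f y) := by
  rintro ⟨θ, hθ, hE⟩
  have hnc : ¬ (Set.univ : Set unitInterval).Countable := by
    intro h1
    have h2 : (Set.Icc (0:ℝ) 1).Countable := by
      have h3 := h1.image (Subtype.val : unitInterval → ℝ)
      rw [Set.image_univ, Subtype.range_val] at h3
      exact h3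
    rw [Cardinal.Real.Icc_countable_iff] at h2
    norm_num at h2
  obtain ⟨ι, -, hιc, hιi⟩ := isClosed_univ.exists_nat_bool_injection_of_not_countable hnc
  let e : (ℕ → Bool) → (ℕ → unitInterval) := fun x N => ι (fun k => x (Nat.pair N k))
  have he : Continuous e := continuous_pi fun N => hιc.comp (continuous_pi fun k => continuous_apply _)
  have hee : ∀ x y : ℕ → Bool, (∃ N : ℕ, ∀ i, N ≤ (Nat.unpair i).1 → x i = y i) ↔
      (∃ N : ℕ, ∀ n ≥ N, e x n = e y n) := by
    intro x y
    constructor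
    · rintro ⟨N, hN⟩
      refine ⟨N, fun n hn => ?_⟩
      have : (fun k => x (Nat.pair n k)) = fun k => y (Nat.pair n k) := by
        funext k
        exact hN _ (by rw [Nat.unpair_pair]; exact hn)
      show ι _ = ι _
      rw [this]
    · rintro ⟨N, hN⟩
      refine ⟨N, fun i hi => ?_⟩
      have h1 := congrFun (hιi (hN _ hi)) (Nat.unpair i).2
      simpa [Nat.pair_unpair] using h1
  have hg : Measurable (fun x => θ (e x)) := hθ.comp he.measurable
  have hψ : Measurable (fun x => φ (θ (e x)).1) := hφ.comp (measurable_fst.comp hg)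
  obtain ⟨b, hb⟩ := const_of_invariant (A := fun _ => Bool) (fun x => φ (θ (e x)).1)
    (by
      intro n d
      have : MeasurableSet {x : ℕ → Bool | φ (θ (e x)).1 n = d} :=
        ((measurable_pi_apply n).comp hψ) (MeasurableSet.of_discrete (s := {d}))
      exact this.baireMeasurableSet)
    (by
      rintro x y ⟨N, hN⟩
      have h1 : EE φ (θ (e x)) (θ (e y)) := by
        rw [← hE, ← hee]
        exact ⟨N, fun i hi => hN i (le_trans hi (Nat.unpair_left_le i))⟩
      exact h1.1)
  refine e1_not (Br b) (fun x => (θ (e x)).2) (bmf_of_measurable (measurable_snd.comp hg))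
    {x | φ (θ (e x)).1 = b} hb ?_
  intro x hx y hy
  have hx' : φ (θ (e x)).1 = b := hx
  have hy' : φ (θ (e y)).1 = b := hy
  rw [hee, hE]
  unfold EE
  rw [hx', hy']
  simp

lemma not_bireducible (φ : (ℕ → ℕ) → (ℕ → Bool)) (hφ : Continuous φ)
    (hnb : ¬ MeasurableSet (Set.range φ))
    (G : Type) [TopologicalSpace G] [Group G] [IsTopologicalGroup G] [PolishSpace G]
    (Y : Type) [TopologicalSpace Y] [PolishSpace Y] [MeasurableSpace Y] [BorelSpace Y]
    [MulAction G Y] [ContinuousSMul G Y]
    (h : (ℕ → ℕ) × P → Y) (hh : Measurable h)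
    (hhE : ∀ x x', EE φ x x' ↔ ∃ g : G, h x' = g • h x)
    (g : Y → (ℕ → ℕ) × P) (hg : Measurable g)
    (hgE : ∀ y y' : Y, (∃ γ : G, y' = γ • y) ↔ EE φ (g y) (g y')) : False := by
  borelize G
  have hact : Measurable (fun z : Y × G => z.2 • z.1) := by
    have : Continuous (fun z : Y × G => z.2 • z.1) := continuous_snd.smul continuous_fst
    exact this.measurable
  obtain ⟨q, hq, hqinv, hqap⟩ := leftmost (G := G) hact (fun y => (g y).1) (measurable_fst.comp hg)
  -- `φ (q y) = φ (g y).1`
  have hφq : ∀ y, φ (q y) = φ (g y).1 := by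
    intro y
    funext i
    have ho : IsOpen {s : ℕ → ℕ | φ s i = φ (q y) i} :=
      (isOpen_discrete {φ (q y) i}).preimage ((continuous_apply i).comp hφ)
    obtain ⟨n, hn⟩ := exists_cyl_subset (A := fun _ => ℕ) ho (x := q y) rfl
    obtain ⟨γ, hγ⟩ := hqap y n
    have h1 : φ (g (γ • y)).1 i = φ (q y) i := hn hγ
    have h2 : EE φ (g y) (g (γ • y)) := (hgE _ _).mp ⟨γ, rfl⟩
    rw [← h1, ← h2.1]
  have hqE : ∀ x x', EE φ x x' → q (h x) = q (h x') := by
    intro x x' hxx
    obtain ⟨γ, hγ⟩ := (hhE x x').mp hxx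
    rw [hγ, hqinv]
  let D : Set (ℕ → ℕ) := {s | ∀ᶠ x in residual P, q (h (s, x)) = s}
  have hD : MeasurableSet D := by
    have hB : MeasurableSet {z : (ℕ → ℕ) × P | q (h z) = z.1} :=
      measurableSet_eq_fun (hq.comp hh) measurable_fst
    exact measurableSet_eventually_residual hB
  have hinj : InjOn φ D := by
    intro s hs s' hs' hss
    have hs1 : ∀ᶠ x in residual P, q (h (s, x)) = s := hs
    have hs2 : ∀ᶠ x in residual P, q (h (s', x)) = s' := hs'
    have hne : (residual P).NeBot := by
      rw [neBot_iff]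
      intro hbot
      have : (∅ : Set P) ∈ residual P := by rw [hbot]; trivial
      have h2 := dense_of_mem_residual this
      obtain ⟨x, hx⟩ := h2.nonempty
      exact hx
    obtain ⟨x, hx1, hx2⟩ := (hs1.and hs2).exists
    rw [← hx1, ← hx2]
    exact hqE _ _ ⟨hss, FT_refl _ _⟩
  have himg : Set.range φ = φ '' D := by
    apply Subset.antisymm
    · rintro _ ⟨s, rfl⟩
      obtain ⟨c, hc⟩ := const_of_invariant (A := Blk) (fun x => q (h (s, x)))
        (by
          intro n d
          have hm : Measurable (fun x : P => q (h (s, x)) n) :=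
            (measurable_pi_apply n).comp (hq.comp (hh.comp measurable_prodMk_left))
          have : MeasurableSet {x : P | q (h (s, x)) n = d} :=
            hm (MeasurableSet.of_discrete (s := {d}))
          exact this.baireMeasurableSet)
        (by
          rintro x y hxy
          exact hqE _ _ ⟨rfl, FT_of_eventually_eq hxy⟩)
      have hφc : φ c = φ s := by
        by_contra hne
        have hne' : φ s ≠ φ c := fun h => hne h.symm
        refine rigid (Br (φ s)) (Br (φ c)) (Br_diff_infinite hne')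
          (fun x => (g (h (s, x))).2)
          (bmf_of_measurable (measurable_snd.comp (hg.comp (hh.comp measurable_prodMk_left))))
          {x | q (h (s, x)) = c} hc ?_
        intro x hx y hy
        have hx' : q (h (s, x)) = c := hx
        have hy' : q (h (s, y)) = c := hy
        have h1 : FT (Br (φ s)) x y ↔ EE φ (s, x) (s, y) := by
          unfold EE
          simp
        rw [h1, hhE, hgE]
        unfold EE
        rw [← hφq, ← hφq, hx', hy']
        simp
      refine ⟨c, ?_, hφc⟩
      show ∀ᶠ x in residual P, q (h (c, x)) = c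
      filter_upwards [hc] with x hx
      rw [← hqE (s, x) (c, x) ⟨hφc.symm, FT_refl _ _⟩]
      exact hx
    · rintro _ ⟨s, _, rfl⟩
      exact ⟨s, rfl⟩
  apply hnb
  rw [himg]
  exact hD.image_of_continuousOn_injOn hφ.continuousOn hinj

theorem main :
    ¬ (∀ (X : Type) [MeasurableSpace X] [StandardBorelSpace X] (E : X → X → Prop),
      Equivalence E → MeasurableSet {p : X × X | E p.1 p.2} →
      (¬ ∃ f : (ℕ → unitInterval) → X, Measurable f ∧
          ∀ x y : ℕ → unitInterval, (∃ N : ℕ, ∀ n ≥ N, x n = y n) ↔ E (f x) (f y)) →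
      ∃ (G : Type) (_ : TopologicalSpace G) (_ : Group G) (_ : IsTopologicalGroup G)
        (_ : PolishSpace G)
        (Y : Type) (_ : TopologicalSpace Y) (_ : PolishSpace Y) (_ : MeasurableSpace Y)
        (_ : BorelSpace Y) (_ : MulAction G Y) (_ : ContinuousSMul G Y),
        (∃ f : X → Y, Measurable f ∧
            ∀ x x' : X, E x x' ↔ ∃ g : G, f x' = g • f x) ∧
        (∃ h : Y → X, Measurable h ∧
            ∀ y y' : Y, (∃ g : G, y' = g • y) ↔ E (h y) (h y'))) := by
  intro H
  obtain ⟨φ, hφ, hnb⟩ := exists_nonBorel_range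
  obtain ⟨G, _, _, _, _, Y, _, _, _, _, _, _, ⟨h, hh, hhE⟩, ⟨g, hg, hgE⟩⟩ :=
    H ((ℕ → ℕ) × P) (EE φ) (EE_equivalence φ) (measurableSet_E φ hφ.measurable)
      (not_E1_le φ hφ.measurable)
  exact not_bireducible φ hφ hnb G Y h hh hhE g hg hgE

end Pool.Agent.HK
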