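import Pool.Agent.Helper1.HK.Main
import Pool.Agent.Helper1.HK.Catq
import Pool.Agent.Helper1.HK.Red

/-!
# Module NOTCOUNT (helper48): the relation is not Borel reducible to a countable one
-/

set_option autoImplicit false

namespace Pool.Agent.HK

open Filter Topology Set MeasureTheory

namespace NotCount

/-! ### Kuratowski-Ulam -/

lemma ku_open {X Y : Type} [TopologicalSpace X] [TopologicalSpace Y] [SecondCountableTopology Y]
    {D : Set (X × Y)} (hD : IsOpen D) (hd : Dense D) :
    ∀ᶠ x in residual X, ∀ᶠ y in residual Y, (x, y) ∈ D := by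
  have h1 : ∀ᶠ x in residual X, ∀ V ∈ TopologicalSpace.countableBasis Y, ∃ y ∈ V, (x, y) ∈ D := by
    rw [eventually_countable_ball (TopologicalSpace.countable_countableBasis Y)]
    intro V hV
    have hVo := TopologicalSpace.isOpen_of_mem_countableBasis hV
    have hVne := TopologicalSpace.nonempty_of_mem_countableBasis hV
    have h2 : {x : X | ∃ y ∈ V, (x, y) ∈ D} = Prod.fst '' (D ∩ (univ ×ˢ V)) := by
      ext x
      constructor
      · rintro ⟨y, hy, hxy⟩
        exact ⟨(x, y), ⟨hxy, mem_univ _, hy⟩, rfl⟩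
      · rintro ⟨⟨x', y⟩, ⟨hxy, _, hy⟩, rfl⟩
        exact ⟨y, hy, hxy⟩
    show {x : X | ∃ y ∈ V, (x, y) ∈ D} ∈ residual X
    rw [h2]
    refine residual_of_dense_open (isOpenMap_fst _ (hD.inter (isOpen_univ.prod hVo))) ?_
    rw [dense_iff_inter_open]
    rintro U hU ⟨u, hu⟩
    obtain ⟨v, hv⟩ := hVne
    obtain ⟨⟨x, y⟩, ⟨hx, hy⟩, hxy⟩ := hd.inter_open_nonempty (U ×ˢ V) (hU.prod hVo) ⟨(u, v), hu, hv⟩
    exact ⟨x, hx, (x, y), ⟨hxy, mem_univ _, hy⟩, rfl⟩
  filter_upwards [h1] with x hx
  refine residual_of_dense_open (hD.preimage (Continuous.prodMk_right x)) ?_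
  rw [(TopologicalSpace.isBasis_countableBasis Y).dense_iff]
  intro V hV _
  obtain ⟨y, hy, hxy⟩ := hx V hV
  exact ⟨y, hy, hxy⟩

lemma ku_easy {X Y : Type} [TopologicalSpace X] [TopologicalSpace Y] [SecondCountableTopology Y]
    {C : Set (X × Y)} (hC : C ∈ residual (X × Y)) :
    ∀ᶠ x in residual X, ∀ᶠ y in residual Y, (x, y) ∈ C := by
  obtain ⟨S, hSo, hSd, hSc, hS⟩ := mem_residual_iff.1 hC
  have h1 : ∀ᶠ x in residual X, ∀ t ∈ S, ∀ᶠ y in residual Y, (x, y) ∈ t := by
    rw [eventually_countable_ball hSc]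
    intro t ht
    exact ku_open (hSo t ht) (hSd t ht)
  filter_upwards [h1] with x hx
  have h2 : ∀ᶠ y in residual Y, ∀ t ∈ S, (x, y) ∈ t := by
    rw [eventually_countable_ball hSc]
    exact hx
  filter_upwards [h2] with y hy
  exact hS (mem_sInter.2 hy)

lemma ku_conv {X Y : Type} [TopologicalSpace X] [TopologicalSpace Y] [SecondCountableTopology Y]
    [BaireSpace X] [BaireSpace Y] {B : Set (X × Y)} (hB : BaireMeasurableSet B)
    (h : ∀ᶠ x in residual X, ∀ᶠ y in residual Y, (x, y) ∈ B) : B ∈ residual (X × Y) := by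
  obtain ⟨O, hO, hBO⟩ := hB.residualEq_isOpen
  have h1 : ∀ᶠ z in residual (X × Y), z ∈ B ↔ z ∈ O := by
    filter_upwards [hBO] with z hz
    exact Iff.of_eq hz
  have h2 : ∀ᶠ x in residual X, ∀ᶠ y in residual Y, (x, y) ∈ O := by
    filter_upwards [h, ku_easy h1] with x hx1 hx2
    filter_upwards [hx1, hx2] with y hy1 hy2
    exact hy2.1 hy1
  have hd : Dense O := by
    rw [dense_iff_inter_open]
    rintro V hV ⟨⟨x0, y0⟩, h0⟩
    obtain ⟨U1, U2, hU1, hU2, hx0, hy0, hsub⟩ := isOpen_prod_iff.1 hV x0 y0 h0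
    obtain ⟨x, hx1, hx2⟩ := (dense_of_mem_residual h2).inter_open_nonempty U1 hU1 ⟨x0, hx0⟩
    obtain ⟨y, hy1, hy2⟩ := (dense_of_mem_residual hx2).inter_open_nonempty U2 hU2 ⟨y0, hy0⟩
    exact ⟨(x, y), hsub ⟨hx1, hy1⟩, hy2⟩
  filter_upwards [h1, residual_of_dense_open hO hd] with z hz1 hz2
  exact hz1.2 hz2

/-! ### the action of sequences of bits -/

/-- `σ n` is applied in the coordinates where `d` is true -/
def U (σ : ∀ n, Blk n → Blk n) (x : P) (d : ℕ → Bool) : P :=
  fun n => if d n then σ n (x n) else x n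

variable {σ : ∀ n, Blk n → Blk n}

lemma continuous_U : Continuous (fun z : P × (ℕ → Bool) => U σ z.1 z.2) := by
  refine continuous_pi fun n => ?_
  have h1 : Continuous (fun z : P × (ℕ → Bool) => (z.1 n, z.2 n)) :=
    ((continuous_apply n).comp continuous_fst).prodMk ((continuous_apply n).comp continuous_snd)
  exact (continuous_of_discreteTopology
    (f := fun p : Blk n × Bool => if p.2 then σ n p.1 else p.1)).comp h1

lemma U_inv (hσ : ∀ n u, σ n (σ n u) = u) (x : P) (d : ℕ → Bool) : U σ (U σ x d) d = x := by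
  funext n
  unfold U
  by_cases h : d n
  · simp [h, hσ]
  · simp [h]

lemma surjective_U : Function.Surjective (fun z : P × (ℕ → Bool) => U σ z.1 z.2) := by
  intro x
  exact ⟨(x, fun _ => false), by funext n; simp [U]⟩

lemma isOpenMap_U (hσ : ∀ n u, σ n (σ n u) = u) :
    IsOpenMap (fun z : P × (ℕ → Bool) => U σ z.1 z.2) := by
  intro V hV
  rw [isOpen_iff_forall_mem_open]
  rintro _ ⟨⟨x, d⟩, hxd, rfl⟩
  have h1 : Continuous (fun y : P => (U σ y d, d)) := by
    refine Continuous.prodMk ?_ continuous_const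
    exact continuous_U.comp (Continuous.prodMk_left d)
  refine ⟨(fun y : P => (U σ y d, d)) ⁻¹' V, ?_, hV.preimage h1, ?_⟩
  · intro y hy
    exact ⟨(U σ y d, d), hy, U_inv hσ y d⟩
  · show (U σ (U σ x d) d, d) ∈ V
    rw [U_inv hσ]
    exact hxd

lemma U_spl (L : ℕ) (c w : P) (d e : ℕ → Bool) :
    U σ (spl L c w) (spl L d e) = spl L (U σ c d) (U σ w e) := by
  funext n
  by_cases h : n < L
  · simp [U, h]
  · simp [U, not_lt.mp h]

lemma U_flip (hσ : ∀ n u, σ n (σ n u) = u) (n : ℕ) (w : P) (e : ℕ → Bool) :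
    U σ w (Function.update e n (!e n)) = Function.update (U σ w e) n (σ n (U σ w e n)) := by
  funext i
  by_cases h : i = n
  · subst h
    rw [Function.update_self]
    unfold U
    rw [Function.update_self]
    by_cases h : e i
    · simp [h, hσ]
    · simp [h]
  · rw [Function.update_of_ne h]
    unfold U
    rw [Function.update_of_ne h]

lemma tendsto_flip (n : ℕ) :
    Tendsto (fun e : ℕ → Bool => Function.update e n (!e n)) (residual (ℕ → Bool))
      (residual (ℕ → Bool)) := by
  have hc : Continuous (fun e : ℕ → Bool => Function.update e n (!e n)) :=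
    continuous_id.update n ((continuous_of_discreteTopology (f := fun b : Bool => !b)).comp
      (continuous_apply n))
  have hi : ∀ e : ℕ → Bool, Function.update (Function.update e n (!e n)) n
      (!(Function.update e n (!e n)) n) = e := by
    intro e
    funext i
    by_cases h : i = n
    · subst h
      simp
    · simp [Function.update_of_ne h]
  have h : (fun e : ℕ → Bool => Function.update e n (!e n)) =
      (Homeomorph.mk ⟨fun e : ℕ → Bool => Function.update e n (!e n),
        fun e : ℕ → Bool => Function.update e n (!e n), hi, hi⟩ hc hc :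
        (ℕ → Bool) ≃ₜ (ℕ → Bool)) := rfl
  rw [h]
  exact tendsto_residual_of_isOpenMap (Homeomorph.continuous _) (Homeomorph.isOpenMap _)


/-- the finite set of bits `s` as a sequence -/
def ds (s : Finset ℕ) : ℕ → Bool := fun i => decide (i ∈ s)

/-- the points `x` for which `g (U x d)` is constant for almost all `d` in the cylinder of `s` -/
def AA (σ : ∀ n, Blk n → Blk n) (g : P → ℕ → Bool) (N : ℕ) (s : Finset ℕ) : Set P :=
  {x | ∀ k, (∀ᶠ e in residual (ℕ → Bool), g (U σ x (spl N (ds s) e)) k = true) ∨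
    (∀ᶠ e in residual (ℕ → Bool), g (U σ x (spl N (ds s) e)) k = false)}

lemma measurableSet_AA (σ : ∀ n, Blk n → Blk n) {g : P → ℕ → Bool} (hg : Measurable g) (N : ℕ)
    (s : Finset ℕ) : MeasurableSet (AA σ g N s) := by
  have hm : Measurable (fun z : P × (ℕ → Bool) => U σ z.1 (spl N (ds s) z.2)) := by
    have : Continuous (fun z : P × (ℕ → Bool) => U σ z.1 (spl N (ds s) z.2)) :=
      continuous_U.comp (continuous_fst.prodMk ((continuous_spl N (ds s)).comp continuous_snd))
    exact this.measurable
  have h1 : ∀ (k : ℕ) (b : Bool), MeasurableSet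
      {x : P | ∀ᶠ e in residual (ℕ → Bool), g (U σ x (spl N (ds s) e)) k = b} := by
    intro k b
    have h2 : MeasurableSet {z : P × (ℕ → Bool) | g (U σ z.1 (spl N (ds s) z.2)) k = b} :=
      ((measurable_pi_apply k).comp (hg.comp hm)) (MeasurableSet.of_discrete (s := {b}))
    exact measurableSet_eventually_residual h2
  have h3 : AA σ g N s = ⋂ k : ℕ,
      ({x : P | ∀ᶠ e in residual (ℕ → Bool), g (U σ x (spl N (ds s) e)) k = true} ∪
        {x : P | ∀ᶠ e in residual (ℕ → Bool), g (U σ x (spl N (ds s) e)) k = false}) := by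
    ext x
    simp only [AA, mem_iInter, mem_union, mem_ofPred_eq]
  rw [h3]
  exact MeasurableSet.iInter fun k => (h1 k true).union (h1 k false)

lemma AA_spec {g : P → ℕ → Bool} {N : ℕ} {s : Finset ℕ} {x : P} (hx : x ∈ AA σ g N s) :
    ∃ z : ℕ → Bool, ∀ᶠ e in residual (ℕ → Bool), g (U σ x (spl N (ds s) e)) = z := by
  have h1 : ∀ k, ∃ b : Bool, ∀ᶠ e in residual (ℕ → Bool), g (U σ x (spl N (ds s) e)) k = b := by
    intro k
    rcases hx k with h | h
    · exact ⟨true, h⟩
    · exact ⟨false, h⟩
  choose z hz using h1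
  refine ⟨z, ?_⟩
  have h2 : ∀ᶠ e in residual (ℕ → Bool), ∀ k, g (U σ x (spl N (ds s) e)) k = z k := by
    rw [eventually_countable_forall]
    exact hz
  filter_upwards [h2] with e he
  funext k
  exact he k

lemma exists_AA {g : P → ℕ → Bool} (hg : Measurable g) (x : P)
    (hc : {z | ∃ d : ℕ → Bool, g (U σ x d) = z}.Countable) (L : ℕ) :
    ∃ (N : ℕ) (s : Finset ℕ), L ≤ N ∧ (∀ i, i < L → i ∉ s) ∧ x ∈ AA σ g N s := by
  have hcc : Countable {z | ∃ d : ℕ → Bool, g (U σ x d) = z} := hc
  have hUx : Continuous (fun d : ℕ → Bool => U σ x d) := continuous_U.comp (Continuous.prodMk_right x)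
  obtain ⟨z, c, N, hLN, -, hcL, hN⟩ := exists_cyl_of_cover (A := fun _ => Bool)
    (ι := {z | ∃ d : ℕ → Bool, g (U σ x d) = z}) (fun z => {d | g (U σ x d) = z.1})
    (fun z => (hg.comp hUx.measurable (measurableSet_singleton z.1)).baireMeasurableSet)
    (Eventually.of_forall fun d => ⟨⟨g (U σ x d), d, rfl⟩, rfl⟩) (fun _ => false) L 0
  refine ⟨N, (Finset.range N).filter (fun i => c i = true), hLN, ?_, ?_⟩
  · intro i hi h
    have := (Finset.mem_filter.1 h).2
    rw [hcL i hi] at this
    exact absurd this (by simp)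
  · have hs : ∀ e : ℕ → Bool,
        spl N (ds ((Finset.range N).filter (fun i => c i = true))) e = spl N c e := by
      intro e
      refine spl_congr (fun i hi => ?_) e
      unfold ds
      cases h : c i
      · simp [h]
      · simp [h, hi]
    intro k
    have h1 : ∀ᶠ e in residual (ℕ → Bool),
        g (U σ x (spl N (ds ((Finset.range N).filter (fun i => c i = true))) e)) k = z.1 k := by
      filter_upwards [hN] with e he
      rw [hs]
      exact congrFun he k
    cases h : z.1 k
    · right
      rw [h] at h1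
      exact h1
    · left
      rw [h] at h1
      exact h1

/-- local invariance under the involutions -/
lemma locInv {g : P → ℕ → Bool} (hg : Measurable g) (hσ : ∀ n u, σ n (σ n u) = u)
    (hc : ∀ x : P, {z | ∃ d : ℕ → Bool, g (U σ x d) = z}.Countable) (b : P) (L : ℕ) :
    ∃ (c : P) (L' : ℕ), L ≤ L' ∧ (∀ i, i < L → c i = b i) ∧ ∀ n, L' ≤ n →
      ∀ᶠ w in residual P, g (spl L' c w) = g (spl L' c (Function.update w n (σ n (w n)))) := by
  obtain ⟨⟨⟨N, s⟩, hs⟩, c, L1, hL1, -, hcb, hres⟩ := exists_cyl_of_cover (A := Blk)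
    (ι := {p : ℕ × Finset ℕ // ∀ i, i < L → i ∉ p.2})
    (fun p => AA σ g p.1.1 p.1.2) (fun p => (measurableSet_AA σ hg _ _).baireMeasurableSet)
    (Eventually.of_forall fun x => by
      obtain ⟨N, s, _, hs, hx⟩ := exists_AA hg x (hc x) L
      exact ⟨⟨(N, s), hs⟩, hx⟩) b L 0
  set L2 := max L1 N with hL2
  have h12 : L1 ≤ L2 := le_max_left _ _
  have hN2 : N ≤ L2 := le_max_right _ _
  refine ⟨U σ c (ds s), L2, hL1.trans h12, ?_, ?_⟩
  · intro i hi
    unfold U ds
    have : i ∉ s := hs i hi
    simp only [this, decide_false, Bool.false_eq_true, if_false]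
    exact hcb i hi
  intro n hn
  -- the statement for almost all `w` and almost all `e`
  have h1 : ∀ᶠ w in residual P, ∀ᶠ e in residual (ℕ → Bool),
      g (spl L2 (U σ c (ds s)) (U σ w e)) = g (spl L2 (U σ c (ds s))
        (Function.update (U σ w e) n (σ n (U σ w e n)))) := by
    filter_upwards [(tendsto_spl L2 c).eventually hres] with w hw
    have hw1 : spl L2 c w ∈ AA σ g N s := by
      have : spl L1 c (spl L2 c w) = spl L2 c w := by
        apply spl_of_mem_cyl
        intro i hi
        rw [spl_lt (lt_of_lt_of_le hi h12)]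
      rw [this] at hw
      exact hw
    obtain ⟨z, hz⟩ := AA_spec hw1
    have hz2 : ∀ᶠ e in residual (ℕ → Bool), g (U σ (spl L2 c w) (spl L2 (ds s) e)) = z := by
      filter_upwards [(tendsto_spl L2 (ds s)).eventually hz] with e he
      have : spl N (ds s) (spl L2 (ds s) e) = spl L2 (ds s) e := by
        apply spl_of_mem_cyl
        intro i hi
        rw [spl_lt (lt_of_lt_of_le hi hN2)]
      rw [this] at he
      exact he
    filter_upwards [hz2, (tendsto_flip n).eventually hz2] with e he1 he2
    rw [U_spl] at he1 he2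
    rw [U_flip hσ] at he2
    rw [he1, he2]
  have hco : Continuous (fun w : P => spl L2 (U σ c (ds s)) w) := continuous_spl _ _
  have hfl : Continuous (fun w : P => Function.update w n (σ n (w n))) :=
    continuous_id.update n ((continuous_of_discreteTopology (f := σ n)).comp (continuous_apply n))
  have hR : MeasurableSet {y : P | g (spl L2 (U σ c (ds s)) y) =
      g (spl L2 (U σ c (ds s)) (Function.update y n (σ n (y n))))} :=
    measurableSet_eq_fun (hg.comp hco.measurable) (hg.comp (hco.comp hfl).measurable)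
  refine mem_residual_of_preimage continuous_U (isOpenMap_U hσ) surjective_U hR.baireMeasurableSet ?_
  refine ku_conv ?_ h1
  exact (hR.preimage continuous_U.measurable).baireMeasurableSet


/-! ### a zero-one law for almost invariant sets -/

lemma spl_change {s : Set P} (hinv : ∀ (n : ℕ) (v : Blk n), ∀ᶠ w in residual P,
      (Function.update w n v ∈ s ↔ w ∈ s)) (L : ℕ) (a b : P)
    (ha : ∀ᶠ w in residual P, spl L a w ∈ s) : ∀ᶠ w in residual P, spl L b w ∈ s := by
  have h : ∀ i, i ≤ L → ∀ᶠ w in residual P, spl L (spl i b a) w ∈ s := by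
    intro i
    induction i with
    | zero =>
      intro _
      have : spl 0 b a = a := by
        funext i
        rw [spl_ge (Nat.zero_le i)]
      rw [this]
      exact ha
    | succ i ih =>
      intro hi
      have e1 : spl (i + 1) b a = Function.update (spl i b a) i (b i) := by
        funext k
        by_cases hk : k = i
        · subst hk
          rw [Function.update_self, spl_lt (Nat.lt_succ_self k)]
        · rw [Function.update_of_ne hk]
          by_cases hk' : k < i
          · rw [spl_lt hk', spl_lt (by omega)]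
          · rw [spl_ge (not_lt.mp hk'), spl_ge (by omega)]
      filter_upwards [ih (by omega), (tendsto_spl L (spl i b a)).eventually (hinv i (b i))]
        with w hw1 hw2
      rw [e1, ← update_spl (by omega)]
      exact hw2.2 hw1
  filter_upwards [h L le_rfl] with w hw
  have : spl L (spl L b a) w = spl L b w := spl_congr (fun i hi => spl_lt hi) w
  rwa [this] at hw

lemma zero_one_ae {s : Set P} (hs : BaireMeasurableSet s)
    (hinv : ∀ (n : ℕ) (v : Blk n), ∀ᶠ w in residual P, (Function.update w n v ∈ s ↔ w ∈ s)) :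
    s ∈ residual P ∨ sᶜ ∈ residual P := by
  obtain ⟨u, huo, hu⟩ := hs.residualEq_isOpen
  have hu' : ∀ᶠ x in residual P, x ∈ s ↔ x ∈ u := by
    filter_upwards [hu] with x hx
    exact Iff.of_eq hx
  rcases u.eq_empty_or_nonempty with he | ⟨a, ha⟩
  · right
    filter_upwards [hu'] with x hx
    rw [he] at hx
    exact fun h => (notMem_empty _) (hx.mp h)
  · left
    obtain ⟨L, hL⟩ := exists_cyl_subset huo ha
    have h0 : ∀ᶠ w in residual P, spl L a w ∈ s := by
      filter_upwards [(tendsto_spl L a).eventually hu'] with w hw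
      exact hw.mpr (hL (spl_mem_cyl _ _ _))
    have hd : Dense u := by
      rw [dense_iff_inter_open]
      rintro V hV ⟨b, hb⟩
      obtain ⟨M, hLM, hM⟩ := exists_cyl_subset_ge hV hb L
      have h1 : ∀ᶠ w in residual P, spl L b w ∈ s := spl_change hinv L a b h0
      have h3 : {w | spl M b w ∈ V ∩ u} ∈ residual P := by
        filter_upwards [(tendsto_spl M b).eventually h1, (tendsto_spl M b).eventually hu']
          with w hw1 hw2
        refine ⟨hM (spl_mem_cyl _ _ _), hw2.mp ?_⟩
        rw [spl_spl hLM] at hw1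
        have h4 : spl M (spl L b b) w = spl M b w := by
          refine spl_congr (fun i _ => ?_) w
          by_cases hi : i < L
          · rw [spl_lt hi]
          · rw [spl_ge (not_lt.mp hi)]
        rwa [h4] at hw1
      have : Nonempty P := ⟨b⟩
      obtain ⟨w, hw⟩ := (dense_of_mem_residual h3).nonempty
      exact ⟨_, hw⟩
    filter_upwards [hu', residual_of_dense_open huo hd] with x hx hx'
    exact hx.mpr hx'

lemma const_ae {h : P → ℕ → Bool} (hm : Measurable h)
    (hinv : ∀ (n : ℕ) (v : Blk n), ∀ᶠ w in residual P, h (Function.update w n v) = h w) :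
    ∃ z : ℕ → Bool, ∀ᶠ w in residual P, h w = z := by
  have h1 : ∀ k, ∃ b : Bool, ∀ᶠ w in residual P, h w k = b := by
    intro k
    have hs : MeasurableSet {w : P | h w k = true} :=
      ((measurable_pi_apply k).comp hm) (MeasurableSet.of_discrete (s := {true}))
    rcases zero_one_ae hs.baireMeasurableSet (fun n v => by
      filter_upwards [hinv n v] with w hw
      show h (Function.update w n v) k = true ↔ h w k = true
      rw [hw]) with h2 | h2
    · exact ⟨true, h2⟩
    · refine ⟨false, ?_⟩
      filter_upwards [h2] with w hw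
      have : ¬ h w k = true := hw
      simpa using this
  choose z hz using h1
  refine ⟨z, ?_⟩
  have h2 : ∀ᶠ w in residual P, ∀ k, h w k = z k := by
    rw [eventually_countable_forall]
    exact hz
  filter_upwards [h2] with w hw
  funext k
  exact hw k

/-! ### adjacent transpositions -/

/-- the involution of the block `n` exchanging `u` and `u + 1` for `u` of parity `e` -/
def adjs (e n : ℕ) (u : Blk n) : Blk n :=
  if u.1 % 2 = e then (if h : u.1 + 1 < 2 ^ K n then ⟨u.1 + 1, h⟩ else u)
  else ⟨u.1 - 1, by have := u.2; omega⟩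

lemma adjs_adjs {e : ℕ} (he : e < 2) (n : ℕ) (u : Blk n) : adjs e n (adjs e n u) = u := by
  obtain ⟨u, hu⟩ := u
  unfold adjs
  apply Fin.ext
  by_cases h1 : u % 2 = e
  · by_cases h2 : u + 1 < 2 ^ K n
    · have h3 : ¬ (u + 1) % 2 = e := by omega
      simp [h1, h2, h3]
    · simp [h1, h2]
  · by_cases h0 : u = 0
    · subst h0
      simp only [Nat.zero_mod] at h1
      simp [h1]
    · have h3 : (u - 1) % 2 = e := by omega
      have h4 : u - 1 + 1 < 2 ^ K n := by omega
      simp [h1, h3, h4]
      omega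

lemma adjs_dist (e n : ℕ) (u : Blk n) : Nat.dist u.1 (adjs e n u).1 ≤ 1 := by
  obtain ⟨u, hu⟩ := u
  unfold adjs Nat.dist
  by_cases h1 : u % 2 = e
  · by_cases h2 : u + 1 < 2 ^ K n
    · simp [h1, h2]
    · simp [h1, h2]
  · simp [h1]
    omega

lemma adjs_succ {n : ℕ} (u v : Blk n) (h : v.1 = u.1 + 1) : adjs (u.1 % 2) n u = v := by
  obtain ⟨u, hu⟩ := u
  obtain ⟨v, hv⟩ := v
  simp only at h
  subst h
  unfold adjs
  apply Fin.ext
  simp [hv]

lemma FT_U (S : Set ℕ) (e : ℕ) (x : P) (d : ℕ → Bool) : FT S x (U (adjs e) x d) := by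
  intro j hj
  refine ⟨j, fun m hm _ => ?_⟩
  have h1 : Nat.dist (x m).1 (U (adjs e) x d m).1 ≤ 1 := by
    unfold U
    by_cases hd : d m
    · simp only [hd, if_true]
      exact adjs_dist e m (x m)
    · simp only [hd, Bool.false_eq_true, if_false, Nat.dist_self]
      omega
  have h2 : 1 ≤ K m / j := by
    rw [Nat.le_div_iff_mul_le (by omega)]
    have := le_K m
    omega
  have h3 : 2 ^ 1 ≤ 2 ^ (K m / j) := Nat.pow_le_pow_right (by norm_num) h2
  unfold cl
  omega

lemma Br_infinite (a : ℕ → Bool) : (Br a).Infinite := by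
  have h : a ≠ fun i => !a i := by
    intro h
    have := congrFun h 0
    simp at this
  exact (Br_diff_infinite h).mono sdiff_subset

/-- no measurable map on `P` with countable images of classes separates the classes -/
lemma no_map {S : Set ℕ} (hS : S.Infinite) {g : P → ℕ → Bool} (hg : Measurable g)
    (hc : ∀ x : P, {z | ∃ y, FT S x y ∧ g y = z}.Countable)
    (hsep : ∀ x y, g x = g y → FT S x y) : False := by
  have hc' : ∀ (e : ℕ) (x : P), {z | ∃ d : ℕ → Bool, g (U (adjs e) x d) = z}.Countable := by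
    intro e x
    refine (hc x).mono ?_
    rintro z ⟨d, hd⟩
    exact ⟨_, FT_U S e x d, hd⟩
  let b0 : P := fun n => ⟨0, by positivity⟩
  obtain ⟨c1, L1, -, -, h1⟩ := locInv hg (adjs_adjs (by norm_num : 0 < 2)) (hc' 0) b0 0
  obtain ⟨c2, L2, hL12, hc12, h2⟩ := locInv hg (adjs_adjs (by norm_num : 1 < 2)) (hc' 1) c1 L1
  have hL1 : ∀ w : P, spl L1 c1 (spl L2 c2 w) = spl L2 c2 w := by
    intro w
    funext i
    by_cases hi : i < L1
    · rw [spl_lt hi, spl_lt (lt_of_lt_of_le hi hL12), hc12 i hi]
    · rw [spl_ge (not_lt.mp hi)]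
  -- invariance under both involutions in the small cylinder
  have h3 : ∀ e, e < 2 → ∀ n, L2 ≤ n → ∀ᶠ w in residual P,
      g (spl L2 c2 w) = g (spl L2 c2 (Function.update w n (adjs e n (w n)))) := by
    intro e he n hn
    rcases (by omega : e = 0 ∨ e = 1) with rfl | rfl
    · filter_upwards [(tendsto_spl L2 c2).eventually (h1 n (hL12.trans hn))] with w hw
      rw [hL1, update_spl_ge hn, spl_ge hn, hL1] at hw
      exact hw
    · exact h2 n hn
  have h4 : ∀ (n : ℕ) (v v' : Blk n), v'.1 = v.1 + 1 → ∀ᶠ w in residual P,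
      g (spl L2 c2 (Function.update w n v)) = g (spl L2 c2 (Function.update w n v')) := by
    intro n v v' hv
    by_cases hn : L2 ≤ n
    · filter_upwards [(tendsto_update n v).eventually
        (h3 (v.1 % 2) (Nat.mod_lt _ (by norm_num)) n hn)] with w hw
      rw [Function.update_self, adjs_succ v v' hv, Function.update_idem] at hw
      exact hw
    · refine Eventually.of_forall fun w => ?_
      congr 1
      funext i
      by_cases hi : i < L2
      · rw [spl_lt hi, spl_lt hi]
      · rw [spl_ge (not_lt.mp hi), spl_ge (not_lt.mp hi), Function.update_of_ne (by omega),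
          Function.update_of_ne (by omega)]
  have h5 : ∀ (n : ℕ) (k : ℕ) (hk : k < 2 ^ K n), ∀ᶠ w in residual P,
      g (spl L2 c2 (Function.update w n ⟨k, hk⟩)) =
        g (spl L2 c2 (Function.update w n (b0 n))) := by
    intro n k
    induction k with
    | zero => exact fun hk => Eventually.of_forall fun w => rfl
    | succ k ih =>
      intro hk
      filter_upwards [ih (by omega), h4 n ⟨k, by omega⟩ ⟨k + 1, hk⟩ rfl] with w hw1 hw2
      rw [← hw2, hw1]
  have h6 : ∀ (n : ℕ) (v : Blk n), ∀ᶠ w in residual P,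
      g (spl L2 c2 (Function.update w n v)) = g (spl L2 c2 w) := by
    intro n v
    have h7 : ∀ᶠ w in residual P, ∀ u : Blk n,
        g (spl L2 c2 (Function.update w n u)) = g (spl L2 c2 (Function.update w n (b0 n))) := by
      rw [eventually_countable_forall]
      rintro ⟨k, hk⟩
      exact h5 n k hk
    filter_upwards [h7] with w hw
    have h8 := hw (w n)
    rw [Function.update_eq_self] at h8
    rw [hw v, h8]
  obtain ⟨z, hz⟩ := const_ae (h := fun w => g (spl L2 c2 w))
    (hg.comp (continuous_spl L2 c2).measurable) h6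
  -- reflection
  have hrc : Continuous (fun w : P => (fun n => Fin.rev (w n) : P)) :=
    continuous_pi fun n => (continuous_of_discreteTopology (f := Fin.rev)).comp (continuous_apply n)
  have hri : ∀ w : P, (fun n => Fin.rev ((fun n => Fin.rev (w n) : P) n) : P) = w := by
    intro w
    funext n
    exact Fin.rev_rev _
  have hrt : Tendsto (fun w : P => (fun n => Fin.rev (w n) : P)) (residual P) (residual P) := by
    have h : (fun w : P => (fun n => Fin.rev (w n) : P)) =
        (Homeomorph.mk ⟨fun w : P => (fun n => Fin.rev (w n) : P),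
          fun w : P => (fun n => Fin.rev (w n) : P), hri, hri⟩ hrc hrc : P ≃ₜ P) := rfl
    rw [h]
    exact tendsto_residual_of_isOpenMap (Homeomorph.continuous _) (Homeomorph.isOpenMap _)
  have hzero : ∀ᶠ w in residual P, ∀ M, ∃ m, M ≤ m ∧ m ∈ S ∧ w m = b0 m := by
    rw [eventually_countable_forall]
    intro M
    refine residual_of_dense_open ?_ ?_
    · have : {w : P | ∃ m, M ≤ m ∧ m ∈ S ∧ w m = b0 m} =
          ⋃ m ∈ {m | M ≤ m ∧ m ∈ S}, (fun w : P => w m) ⁻¹' {b0 m} := by
        ext w
        simp only [mem_iUnion, mem_preimage, mem_singleton_iff, mem_ofPred_eq, exists_prop, and_assoc]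
      show IsOpen {w : P | ∃ m, M ≤ m ∧ m ∈ S ∧ w m = b0 m}
      rw [this]
      exact isOpen_biUnion fun m _ => (isOpen_discrete _).preimage (continuous_apply m)
    · rw [dense_iff_inter_open]
      rintro V hV ⟨w, hw⟩
      obtain ⟨N, hN⟩ := exists_cyl_subset hV hw
      obtain ⟨m, hmS, hm⟩ := hS.exists_gt (max M N)
      refine ⟨Function.update w m (b0 m), hN fun i hi => ?_, m, ?_, hmS, ?_⟩
      · rw [Function.update_of_ne]
        have := le_max_right M N
        omega
      · have := le_max_left M N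
        omega
      · rw [Function.update_self]
  have : Nonempty P := ⟨b0⟩
  obtain ⟨w, hw1, hw2, hw3⟩ :=
    (dense_of_mem_residual (hz.and ((hrt.eventually hz).and hzero))).nonempty
  have h9 := hsep _ _ (hw1.trans hw2.symm)
  obtain ⟨M, hM⟩ := h9 2 (by norm_num)
  obtain ⟨m, hm, hmS, hwm⟩ := hw3 (max M L2)
  have h10 := hM m (le_trans (le_max_left _ _) hm) hmS
  rw [spl_ge (le_trans (le_max_right _ _) hm), spl_ge (le_trans (le_max_right _ _) hm), hwm] at h10
  unfold cl Nat.dist at h10
  rw [Fin.val_rev] at h10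
  have h11 : (b0 m).1 = 0 := rfl
  rw [h11] at h10
  have h12 : 2 ^ (K m / 2) ≤ 2 ^ (K m - 1) :=
    Nat.pow_le_pow_right (by norm_num) (by have := K_pos m; omega)
  have h13 : 2 ^ K m = 2 ^ (K m - 1) * 2 := by
    rw [← pow_succ]
    congr 1
    have := K_pos m
    omega
  have h14 : 0 < 2 ^ (K m - 1) := by positivity
  omega

end NotCount

open NotCount

theorem not_red_countable (φ : (ℕ → ℕ) → (ℕ → Bool)) (_hφ : Continuous φ) {Z : Type}
    [MeasurableSpace Z] [StandardBorelSpace Z] (F : Z → Z → Prop) (hF : Equivalence F)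
    (hc : ∀ z, {z' | F z z'}.Countable) : ¬ BorelRed (EE φ) F := by
  rintro ⟨f, hf, hfE⟩
  obtain ⟨ι, hιm, hιi⟩ := MeasurableSpace.measurable_injection_nat_bool_of_countablySeparated Z
  let s0 : ℕ → ℕ := fun _ => 0
  have hFT : ∀ x y : P, FT (Br (φ s0)) x y ↔ F (f (s0, x)) (f (s0, y)) := by
    intro x y
    rw [← hfE]
    unfold EE
    simp
  refine no_map (S := Br (φ s0)) (Br_infinite _) (g := fun x => ι (f (s0, x)))
    (hιm.comp (hf.comp measurable_prodMk_left)) ?_ ?_
  · intro x
    refine ((hc (f (s0, x))).image ι).mono ?_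
    rintro z ⟨y, hy, rfl⟩
    exact ⟨f (s0, y), (hFT x y).1 hy, rfl⟩
  · intro x y hxy
    rw [hFT, hιi hxy]
    exact hF.refl _

end Pool.Agent.HK
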