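import Pool.Agent.Helper1.HK.Main
import Pool.Agent.Helper1.HK.Red

set_option autoImplicit false
set_option linter.unusedSectionVars false

/-!
# Module ORBIT : the relation is reducible to an orbit relation of an abelian Polish group
-/

namespace Pool.Agent.HK

open Filter Topology Set MeasureTheory

noncomputable section

namespace Orb

/-- the integers with the norm `log (1 + |a|) / K m` -/
def ZZ (_m : ℕ) : Type := ℤ

instance (m : ℕ) : AddCommGroup (ZZ m) := inferInstanceAs (AddCommGroup ℤ)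
instance (m : ℕ) : Countable (ZZ m) := inferInstanceAs (Countable ℤ)

/-- the underlying integer -/
def toZ {m : ℕ} (a : ZZ m) : ℤ := a

/-- an integer as an element of `ZZ m` -/
def ofZ (m : ℕ) (a : ℤ) : ZZ m := a

lemma toZ_ofZ (m : ℕ) (a : ℤ) : toZ (ofZ m a) = a := rfl
lemma toZ_add {m : ℕ} (a b : ZZ m) : toZ (a + b) = toZ a + toZ b := rfl
lemma toZ_neg {m : ℕ} (a : ZZ m) : toZ (-a) = -toZ a := rfl
lemma toZ_zero {m : ℕ} : toZ (0 : ZZ m) = 0 := rfl
lemma toZ_inj {m : ℕ} {a b : ZZ m} (h : toZ a = toZ b) : a = b := h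

lemma K_pos' (m : ℕ) : (0 : ℝ) < K m := by exact_mod_cast K_pos m

/-- the norm -/
def zNorm (m : ℕ) : AddGroupNorm (ZZ m) where
  toFun a := Real.log (1 + |(toZ a : ℝ)|) / K m
  map_zero' := by simp [toZ_zero]
  add_le' a b := by
    rw [← add_div]
    refine div_le_div_of_nonneg_right ?_ (K_pos' m).le
    have ha : (0 : ℝ) < 1 + |(toZ a : ℝ)| := by positivity
    have hb : (0 : ℝ) < 1 + |(toZ b : ℝ)| := by positivity
    rw [← Real.log_mul ha.ne' hb.ne']
    refine Real.log_le_log (by positivity) ?_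
    rw [toZ_add]
    push_cast
    have h1 := abs_add_le (toZ a : ℝ) (toZ b : ℝ)
    have h2 := mul_nonneg (abs_nonneg (toZ a : ℝ)) (abs_nonneg (toZ b : ℝ))
    nlinarith
  neg' a := by
    rw [toZ_neg]
    push_cast
    rw [abs_neg]
  eq_zero_of_map_eq_zero' a h := by
    have h1 : Real.log (1 + |(toZ a : ℝ)|) = 0 := by
      rcases div_eq_zero_iff.1 h with h | h
      · exact h
      · exact absurd h (K_pos' m).ne'
    by_contra hne
    have h2 : toZ a ≠ 0 := fun h0 => hne (toZ_inj (by rw [h0, toZ_zero]))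
    have h3 : (0 : ℝ) < |(toZ a : ℝ)| := by
      rw [abs_pos]; exact_mod_cast h2
    have h4 := Real.log_pos (x := 1 + |(toZ a : ℝ)|) (by linarith)
    linarith

instance (m : ℕ) : NormedAddCommGroup (ZZ m) := (zNorm m).toNormedAddCommGroup

lemma norm_def {m : ℕ} (a : ZZ m) : ‖a‖ = Real.log (1 + |(toZ a : ℝ)|) / K m := rfl

lemma norm_ge {m : ℕ} {a : ZZ m} (h : a ≠ 0) : Real.log 2 / K m ≤ ‖a‖ := by
  rw [norm_def]
  refine div_le_div_of_nonneg_right ?_ (K_pos' m).le
  refine Real.log_le_log (by norm_num) ?_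
  have h2 : toZ a ≠ 0 := fun h0 => h (toZ_inj (by rw [h0, toZ_zero]))
  have h3 : (1 : ℤ) ≤ |toZ a| := Int.one_le_abs h2
  have h4 : (1 : ℝ) ≤ |(toZ a : ℝ)| := by exact_mod_cast h3
  linarith

lemma pairwise_dist (m : ℕ) : Pairwise (Real.log 2 / K m ≤ dist · · : ZZ m → ZZ m → Prop) := by
  intro a b hab
  rw [dist_eq_norm]
  exact norm_ge (sub_ne_zero.2 hab)

lemma gap_pos (m : ℕ) : 0 < Real.log 2 / K m := div_pos (Real.log_pos (by norm_num)) (K_pos' m)

instance (m : ℕ) : DiscreteTopology (ZZ m) :=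
  DiscreteTopology.of_forall_le_dist (gap_pos m) (pairwise_dist m)

instance (m : ℕ) : DiscreteUniformity (ZZ m) :=
  ⟨Metric.uniformSpace_eq_bot.2 ⟨_, gap_pos m, pairwise_dist m⟩⟩

instance (m : ℕ) : CompleteSpace (ZZ m) := inferInstance
instance (m : ℕ) : SecondCountableTopology (ZZ m) := inferInstance
instance (m : ℕ) : PolishSpace (ZZ m) := inferInstance
instance (m : ℕ) : MeasurableSpace (ZZ m) := ⊤
instance (m : ℕ) : BorelSpace (ZZ m) := inferInstance

/-- the sequences of log-size tending to zero -/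
def HH : AddSubgroup (lp ZZ ⊤) where
  carrier := {h | Tendsto (fun m => ‖h m‖) atTop (𝓝 0)}
  zero_mem' := by
    show Tendsto (fun m => ‖(0 : lp ZZ ⊤) m‖) atTop (𝓝 0)
    simp
  add_mem' {a b} ha hb := by
    show Tendsto (fun m => ‖(a + b : lp ZZ ⊤) m‖) atTop (𝓝 0)
    have h := (ha : Tendsto (fun m => ‖a m‖) atTop (𝓝 0)).add
      (hb : Tendsto (fun m => ‖b m‖) atTop (𝓝 0))
    rw [add_zero] at h
    refine squeeze_zero (fun m => norm_nonneg _) (fun m => ?_) h
    rw [lp.coeFn_add]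
    exact norm_add_le _ _
  neg_mem' {a} ha := by
    show Tendsto (fun m => ‖(-a : lp ZZ ⊤) m‖) atTop (𝓝 0)
    refine (ha : Tendsto (fun m => ‖a m‖) atTop (𝓝 0)).congr fun m => ?_
    rw [lp.coeFn_neg, Pi.neg_apply, norm_neg]

lemma mem_HH {h : lp ZZ ⊤} : h ∈ HH ↔ Tendsto (fun m => ‖h m‖) atTop (𝓝 0) := Iff.rfl

lemma norm_coord_le (h : lp ZZ ⊤) (m : ℕ) : ‖h m‖ ≤ ‖h‖ :=
  lp.norm_apply_le_norm ENNReal.top_ne_zero h m

lemma isClosed_HH : IsClosed (HH : Set (lp ZZ ⊤)) := by
  rw [← isSeqClosed_iff_isClosed]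
  intro u h hu hlim
  show Tendsto (fun m => ‖h m‖) atTop (𝓝 0)
  rw [Metric.tendsto_atTop]
  intro ε hε
  obtain ⟨n, hn⟩ := (Metric.tendsto_atTop.1 hlim) (ε / 2) (half_pos hε)
  have h1 : Tendsto (fun m => ‖(u n) m‖) atTop (𝓝 0) := hu n
  obtain ⟨M, hM⟩ := (Metric.tendsto_atTop.1 h1) (ε / 2) (half_pos hε)
  refine ⟨M, fun m hm => ?_⟩
  have h2 := hM m hm
  rw [Real.dist_eq, sub_zero, abs_of_nonneg (norm_nonneg _)] at h2 ⊢
  have h3 : ‖(u n - h) m‖ < ε / 2 := by
    refine lt_of_le_of_lt (norm_coord_le _ m) ?_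
    rw [← dist_eq_norm]
    exact hn n le_rfl
  have h4 : h m = (u n) m - (u n - h) m := by
    rw [lp.coeFn_sub, Pi.sub_apply]
    abel
  rw [h4]
  linarith [norm_sub_le ((u n) m) ((u n - h) m)]

/-- finitely supported sequences -/
def fs (c : ℕ →₀ ℤ) : lp ZZ ⊤ :=
  ⟨fun m => ofZ m (c m), by
    refine Memℓp.of_exponent_ge (p := ⊤) (q := 0) (memℓp_zero ?_) bot_le
    refine c.support.finite_toSet.subset ?_
    intro m hm
    rw [Finset.mem_coe, Finsupp.mem_support_iff]
    exact fun h0 => hm (by rw [h0]; rfl)⟩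

lemma fs_apply (c : ℕ →₀ ℤ) (m : ℕ) : fs c m = ofZ m (c m) := rfl

lemma isSeparable_HH : TopologicalSpace.IsSeparable (HH : Set (lp ZZ ⊤)) := by
  refine ⟨Set.range fs, Set.countable_range fs, ?_⟩
  intro h hh
  rw [Metric.mem_closure_iff]
  intro ε hε
  have h1 : Tendsto (fun m => ‖h m‖) atTop (𝓝 0) := hh
  obtain ⟨M, hM⟩ := (Metric.tendsto_atTop.1 h1) (ε / 2) (half_pos hε)
  let c : ℕ →₀ ℤ := Finsupp.onFinset (Finset.range M)
    (fun m => if m < M then toZ (h m) else 0) (by
      intro m hm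
      rw [Finset.mem_range]
      by_contra hlt
      exact hm (by rw [if_neg hlt]))
  refine ⟨fs c, ⟨c, rfl⟩, ?_⟩
  refine lt_of_le_of_lt ?_ (half_lt_self hε)
  rw [dist_eq_norm]
  refine lp.norm_le_of_forall_le (half_pos hε).le fun m => ?_
  rw [lp.coeFn_sub, Pi.sub_apply, fs_apply]
  by_cases hm : m < M
  · have : ofZ m (c m) = h m := by
      show ofZ m (if m < M then toZ (h m) else 0) = h m
      rw [if_pos hm]
      rfl
    rw [this, sub_self, norm_zero]
    exact (half_pos hε).le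
  · have : ofZ m (c m) = 0 := by
      show ofZ m (if m < M then toZ (h m) else 0) = 0
      rw [if_neg hm]
      rfl
    rw [this, sub_zero]
    have h2 := hM m (not_lt.1 hm)
    rw [Real.dist_eq, sub_zero, abs_of_nonneg (norm_nonneg _)] at h2
    exact h2.le

instance : CompleteSpace HH := isClosed_HH.completeSpace_coe
instance : SecondCountableTopology HH := isSeparable_HH.secondCountableTopology
instance : PolishSpace HH := inferInstance
instance : PolishSpace (Multiplicative HH) := inferInstanceAs (PolishSpace HH)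
instance : IsTopologicalGroup (Multiplicative HH) := inferInstance

/-- the space -/
abbrev YY : Type := (ℕ → Bool) × (∀ m, ZZ m)

instance : PolishSpace YY := inferInstance
instance : BorelSpace YY := inferInstance

/-- coordinates of a group element -/
def ev (g : Multiplicative HH) (m : ℕ) : ZZ m := (Multiplicative.toAdd g).1 m

lemma ev_one (m : ℕ) : ev 1 m = 0 := rfl

lemma ev_mul (g g' : Multiplicative HH) (m : ℕ) : ev (g * g') m = ev g m + ev g' m := rfl

instance : MulAction (Multiplicative HH) YY where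
  smul g y := (y.1, fun m => ev g m + y.2 m)
  one_smul y := by
    refine Prod.ext rfl (funext fun m => ?_)
    show ev 1 m + y.2 m = y.2 m
    rw [ev_one, zero_add]
  mul_smul g g' y := by
    refine Prod.ext rfl (funext fun m => ?_)
    show ev (g * g') m + y.2 m = ev g m + (ev g' m + y.2 m)
    rw [ev_mul, add_assoc]

lemma smul_def (g : Multiplicative HH) (y : YY) : g • y = (y.1, fun m => ev g m + y.2 m) := rfl

lemma continuous_coord (m : ℕ) : Continuous (fun h : lp ZZ ⊤ => h m) := by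
  refine LipschitzWith.continuous (K := 1) (LipschitzWith.of_dist_le_mul fun a b => ?_)
  rw [NNReal.coe_one, one_mul, dist_eq_norm, dist_eq_norm]
  have := norm_coord_le (a - b) m
  rwa [lp.coeFn_sub, Pi.sub_apply] at this

lemma continuous_ev (m : ℕ) : Continuous (fun g : Multiplicative HH => ev g m) :=
  (continuous_coord m).comp (continuous_subtype_val.comp continuous_toAdd)

instance : ContinuousSMul (Multiplicative HH) YY where
  continuous_smul := by
    show Continuous fun p : Multiplicative HH × YY => (p.2.1, fun m => ev p.1 m + p.2.2 m)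
    refine (continuous_fst.comp continuous_snd).prodMk (continuous_pi fun m => ?_)
    refine Continuous.add ?_ ?_
    · exact (continuous_ev m).comp continuous_fst
    · exact (continuous_apply m).comp (continuous_snd.comp continuous_snd)

/-- the reduction -/
def red (φ : (ℕ → ℕ) → (ℕ → Bool)) (z : (ℕ → ℕ) × P) : YY :=
  open Classical in
  (φ z.1, fun m => ofZ m (if m ∈ Br (φ z.1) then ((z.2 m).1 : ℤ) else 0))

lemma measurable_red (φ : (ℕ → ℕ) → (ℕ → Bool)) (hφ : Continuous φ) : Measurable (red φ) := by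
  classical
  have h1 : Measurable (fun z : (ℕ → ℕ) × P => φ z.1) := hφ.measurable.comp measurable_fst
  refine h1.prodMk ?_
  rw [measurable_pi_iff]
  intro m
  have h2 : Measurable (ofZ m) := fun s _ => MeasurableSet.of_discrete
  refine h2.comp ?_
  refine Measurable.ite ?_ ?_ measurable_const
  · have : {z : (ℕ → ℕ) × P | m ∈ Br (φ z.1)} =
        ⋃ n : ℕ, (fun z : (ℕ → ℕ) × P => φ z.1) ⁻¹' {c | code c n = m} := by
      ext z
      simp only [Br, Set.mem_range, Set.mem_iUnion, Set.mem_preimage, Set.mem_ofPred_eq]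
    rw [this]
    exact MeasurableSet.iUnion fun n => h1 (adf_measurableSet_code n m)
  · have h3 : Measurable (fun z : (ℕ → ℕ) × P => z.2 m) :=
      (measurable_pi_apply m).comp measurable_snd
    have h4 : Measurable (fun u : Blk m => (u.1 : ℤ)) := fun s _ => MeasurableSet.of_discrete
    exact h4.comp h3

/-- difference sequence -/
def df (S : Set ℕ) (x y : P) (m : ℕ) : ℤ :=
  open Classical in if m ∈ S then ((y m).1 : ℤ) - ((x m).1 : ℤ) else 0

lemma dist_df {S : Set ℕ} {x y : P} {m : ℕ} (hm : m ∈ S) :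
    |(df S x y m : ℝ)| = (Nat.dist (x m).1 (y m).1 : ℝ) := by
  classical
  have h : |df S x y m| = (Nat.dist (x m).1 (y m).1 : ℤ) := by
    unfold df Nat.dist
    rw [if_pos hm]
    rcases le_total (x m).1 (y m).1 with h | h
    · rw [abs_of_nonneg (by omega)]
      omega
    · rw [abs_of_nonpos (by omega)]
      omega
  rw [← Int.cast_abs, h]
  norm_cast

lemma df_off {S : Set ℕ} {x y : P} {m : ℕ} (hm : m ∉ S) : df S x y m = 0 := by
  classical
  unfold df
  rw [if_neg hm]

lemma tendsto_iff (S : Set ℕ) (x y : P) :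
    FT S x y ↔ Tendsto (fun m => ‖ofZ m (df S x y m)‖) atTop (𝓝 0) := by
  constructor
  · intro h
    rw [Metric.tendsto_atTop]
    intro ε hε
    obtain ⟨j, hj⟩ := exists_nat_gt (Real.log 2 / ε)
    have hlog : 0 < Real.log 2 := Real.log_pos (by norm_num)
    have hj0 : (0 : ℝ) < j := lt_trans (div_pos hlog hε) hj
    have hj1 : 1 ≤ j := by exact_mod_cast hj0
    obtain ⟨M, hM⟩ := h j hj1
    refine ⟨M, fun m hm => ?_⟩
    rw [Real.dist_eq, sub_zero, abs_of_nonneg (norm_nonneg _), norm_def, toZ_ofZ]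
    by_cases hmS : m ∈ S
    · rw [dist_df hmS]
      have h1 : Nat.dist (x m).1 (y m).1 < 2 ^ (K m / j) := hM m hm hmS
      have h2 : (1 : ℝ) + (Nat.dist (x m).1 (y m).1 : ℝ) ≤ 2 ^ (K m / j) := by
        have : 1 + Nat.dist (x m).1 (y m).1 ≤ 2 ^ (K m / j) := by omega
        exact_mod_cast this
      have h3 : Real.log (1 + (Nat.dist (x m).1 (y m).1 : ℝ)) ≤ (K m / j : ℕ) * Real.log 2 := by
        rw [← Real.log_pow]
        exact Real.log_le_log (by positivity) h2
      have h4 : ((K m / j : ℕ) : ℝ) ≤ K m / j := Nat.cast_div_le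
      have h5 : Real.log (1 + (Nat.dist (x m).1 (y m).1 : ℝ)) / K m ≤ Real.log 2 / j := by
        rw [div_le_div_iff₀ (K_pos' m) hj0]
        have h6 := mul_le_mul_of_nonneg_right h4 hlog.le
        have h7 := mul_le_mul_of_nonneg_right (h3.trans h6) hj0.le
        have h8 : (K m : ℝ) / j * Real.log 2 * j = Real.log 2 * K m := by
          field_simp
        linarith
      refine lt_of_le_of_lt h5 ?_
      rw [div_lt_iff₀ hj0]
      rw [div_lt_iff₀ hε] at hj
      linarith
    · rw [df_off hmS]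
      simpa using hε
  · intro h j hj
    have hlog : 0 < Real.log 2 := Real.log_pos (by norm_num)
    have hj0 : (0 : ℝ) < j := by exact_mod_cast hj
    obtain ⟨M, hM⟩ := (Metric.tendsto_atTop.1 h) (Real.log 2 / (2 * j)) (by positivity)
    refine ⟨max M j, fun m hm hmS => ?_⟩
    have h1 := hM m (le_trans (le_max_left _ _) hm)
    rw [Real.dist_eq, sub_zero, abs_of_nonneg (norm_nonneg _), norm_def, toZ_ofZ, dist_df hmS,
      div_lt_div_iff₀ (K_pos' m) (by positivity)] at h1
    have hmj : j ≤ K m := le_trans (le_trans (le_max_right _ _) hm) (le_K m)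
    -- `K m / (2 j) ≤ ⌊K m / j⌋`
    have h2 : K m ≤ 2 * j * (K m / j) := by
      have h3 : 1 ≤ K m / j := (Nat.one_le_div_iff (by omega)).2 hmj
      have h4 := Nat.div_add_mod (K m) j
      have h5 := Nat.mod_lt (K m) (show 0 < j by omega)
      nlinarith
    show Nat.dist (x m).1 (y m).1 < 2 ^ (K m / j)
    have h3 : Real.log (1 + (Nat.dist (x m).1 (y m).1 : ℝ)) <
        Real.log ((2 : ℝ) ^ (K m / j)) := by
      rw [Real.log_pow]
      have h4 : (K m : ℝ) ≤ 2 * j * (K m / j : ℕ) := by exact_mod_cast h2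
      have h5 := mul_le_mul_of_nonneg_left h4 hlog.le
      have h6 : Real.log (1 + (Nat.dist (x m).1 (y m).1 : ℝ)) * (2 * j) <
          ((K m / j : ℕ) * Real.log 2) * (2 * j) := by
        refine lt_of_lt_of_le h1 ?_
        linarith
      exact lt_of_mul_lt_mul_right h6 (by positivity)
    have h4 := (Real.log_lt_log_iff (by positivity) (by positivity)).1 h3
    have h5 : (1 : ℝ) + (Nat.dist (x m).1 (y m).1 : ℝ) < ((2 ^ (K m / j) : ℕ) : ℝ) := by
      push_cast
      exact h4
    have h6 : 1 + Nat.dist (x m).1 (y m).1 < 2 ^ (K m / j) := by exact_mod_cast h5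
    omega

lemma ev_toAdd {h : lp ZZ ⊤} (hh : h ∈ HH) (m : ℕ) :
    ev (Multiplicative.ofAdd (⟨h, hh⟩ : HH)) m = h m := rfl

lemma red_iff (φ : (ℕ → ℕ) → (ℕ → Bool)) (z z' : (ℕ → ℕ) × P) :
    EE φ z z' ↔ ∃ g : Multiplicative HH, red φ z' = g • red φ z := by
  classical
  constructor
  · rintro ⟨h1, h2⟩
    have h3 := (tendsto_iff _ _ _).1 h2
    have hb : Memℓp (E := ZZ) (fun m => ofZ m (df (Br (φ z.1)) z.2 z'.2 m)) ⊤ :=
      memℓp_infty h3.bddAbove_range
    refine ⟨Multiplicative.ofAdd (⟨⟨_, hb⟩, h3⟩ : HH), ?_⟩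
    rw [smul_def]
    refine Prod.ext h1.symm (funext fun m => toZ_inj ?_)
    show (if m ∈ Br (φ z'.1) then ((z'.2 m).1 : ℤ) else 0) =
      df (Br (φ z.1)) z.2 z'.2 m + (if m ∈ Br (φ z.1) then ((z.2 m).1 : ℤ) else 0)
    rw [← h1]
    unfold df
    by_cases hm : m ∈ Br (φ z.1)
    · rw [if_pos hm, if_pos hm, if_pos hm]; ring
    · rw [if_neg hm, if_neg hm, if_neg hm]; ring
  · rintro ⟨g, hg⟩
    rw [smul_def] at hg
    have h1 : φ z'.1 = φ z.1 := congrArg Prod.fst hg
    refine ⟨h1.symm, (tendsto_iff _ _ _).2 ?_⟩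
    have h2 : Tendsto (fun m => ‖(Multiplicative.toAdd g).1 m‖) atTop (𝓝 0) :=
      (Multiplicative.toAdd g).2
    refine h2.congr fun m => ?_
    have h3 : ofZ m (if m ∈ Br (φ z'.1) then ((z'.2 m).1 : ℤ) else 0) =
        ev g m + ofZ m (if m ∈ Br (φ z.1) then ((z.2 m).1 : ℤ) else 0) :=
      congrFun (congrArg Prod.snd hg) m
    have h4 : ev g m = ofZ m (df (Br (φ z.1)) z.2 z'.2 m) := by
      have h5 : toZ (ofZ m (if m ∈ Br (φ z'.1) then ((z'.2 m).1 : ℤ) else 0)) =
        toZ (ev g m) + toZ (ofZ m (if m ∈ Br (φ z.1) then ((z.2 m).1 : ℤ) else 0)) := by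
        rw [← toZ_add, ← h3]
      rw [toZ_ofZ, toZ_ofZ, h1] at h5
      refine toZ_inj ?_
      rw [toZ_ofZ]
      unfold df
      by_cases hm : m ∈ Br (φ z.1)
      · rw [if_pos hm, if_pos hm] at h5
        rw [if_pos hm]
        omega
      · rw [if_neg hm, if_neg hm] at h5
        rw [if_neg hm]
        omega
    rw [← h4]
    rfl

end Orb

theorem red_abelian_orbit (φ : (ℕ → ℕ) → (ℕ → Bool)) (hφ : Continuous φ) :
    ∃ (G : Type) (_ : TopologicalSpace G) (_ : CommGroup G) (_ : IsTopologicalGroup G)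
      (_ : PolishSpace G) (Y : Type) (_ : TopologicalSpace Y) (_ : PolishSpace Y)
      (_ : MeasurableSpace Y) (_ : BorelSpace Y) (_ : MulAction G Y) (_ : ContinuousSMul G Y),
      BorelRed (EE φ) (fun y y' : Y => ∃ g : G, y' = g • y) :=
  ⟨Multiplicative Orb.HH, inferInstance, inferInstance, inferInstance, inferInstance, Orb.YY,
    inferInstance, inferInstance, inferInstance, inferInstance, inferInstance, inferInstance,
    Orb.red φ, Orb.measurable_red φ hφ, Orb.red_iff φ⟩

end

end Pool.Agent.HK
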