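import Pool.Agent.Helper1.HK.Base

/-!
# Module ZEROONE (helper86): the topological zero-one law for tail sets
-/

set_option autoImplicit false

namespace Pool.Agent.HK

open Filter Topology Set MeasureTheory

theorem zero_one {A : ℕ → Type} [∀ i, TopologicalSpace (A i)] [∀ i, DiscreteTopology (A i)]
    [BaireSpace (∀ i, A i)] (s : Set (∀ i, A i)) (hs : BaireMeasurableSet s)
    (hinv : ∀ x y : ∀ i, A i, (∃ N, ∀ i, N ≤ i → x i = y i) → x ∈ s → y ∈ s) :
    s ∈ residual (∀ i, A i) ∨ sᶜ ∈ residual (∀ i, A i) := by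
  obtain ⟨u, huo, hu⟩ := hs.residualEq_isOpen
  have hu' : ∀ᶠ x in residual (∀ i, A i), x ∈ s ↔ x ∈ u := by
    filter_upwards [hu] with x hx
    exact Iff.of_eq hx
  rcases u.eq_empty_or_nonempty with he | ⟨a, ha⟩
  · right
    filter_upwards [hu'] with x hx
    rw [he] at hx
    exact fun h => (notMem_empty _) (hx.mp h)
  · left
    obtain ⟨L, hL⟩ := exists_cyl_subset huo ha
    have h1 : ∀ b : ∀ i, A i, ∀ᶠ w in residual (∀ i, A i), spl L b w ∈ s := by
      intro b
      filter_upwards [(tendsto_spl L a).eventually hu'] with w hw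
      have h2 : spl L a w ∈ s := hw.mpr (hL (spl_mem_cyl _ _ _))
      refine hinv _ _ ⟨L, fun i hi => ?_⟩ h2
      rw [spl_ge hi, spl_ge hi]
    have hd : Dense u := by
      rw [dense_iff_inter_open]
      rintro V hV ⟨b, hb⟩
      obtain ⟨M, hLM, hM⟩ := exists_cyl_subset_ge hV hb L
      have h3 : {w | spl M b w ∈ V ∩ u} ∈ residual (∀ i, A i) := by
        filter_upwards [(tendsto_spl M b).eventually (h1 b), (tendsto_spl M b).eventually hu']
          with w hw1 hw2
        refine ⟨hM (spl_mem_cyl _ _ _), hw2.mp ?_⟩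
        rw [spl_spl hLM] at hw1
        have h4 : spl M (spl L b b) w = spl M b w := by
          refine spl_congr (fun i _ => ?_) w
          by_cases hi : i < L
          · rw [spl_lt hi]
          · rw [spl_ge (not_lt.mp hi)]
        rwa [h4] at hw1
      have : Nonempty (∀ i, A i) := ⟨b⟩
      obtain ⟨w, hw⟩ := (dense_of_mem_residual h3).nonempty
      exact ⟨_, hw⟩
    filter_upwards [hu', residual_of_dense_open huo hd] with x hx hx'
    exact hx.mpr hx'

theorem const_of_invariant {A : ℕ → Type} [∀ i, TopologicalSpace (A i)]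
    [∀ i, DiscreteTopology (A i)] [∀ i, Nonempty (A i)]
    [BaireSpace (∀ i, A i)] {D : Type} [Countable D] (ψ : (∀ i, A i) → ℕ → D)
    (hψ : ∀ (n : ℕ) (d : D), BaireMeasurableSet {x | ψ x n = d})
    (hinv : ∀ x y : ∀ i, A i, (∃ N, ∀ i, N ≤ i → x i = y i) → ψ x = ψ y) :
    ∃ c : ℕ → D, ∀ᶠ x in residual (∀ i, A i), ψ x = c := by
  have h1 : ∀ n, ∃ d, {x | ψ x n = d} ∈ residual (∀ i, A i) := by
    intro n
    by_contra hcon
    push Not at hcon
    have h2 : ∀ d, {x | ψ x n = d}ᶜ ∈ residual (∀ i, A i) := by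
      intro d
      rcases zero_one {x | ψ x n = d} (hψ n d) (fun x y hxy hx => by
        simp only [mem_ofPred_eq] at hx ⊢
        rw [← hinv x y hxy]
        exact hx) with h | h
      · exact absurd h (hcon d)
      · exact h
    have h3 : ∀ᶠ x in residual (∀ i, A i), ∀ d, ψ x n ≠ d := by
      rw [eventually_countable_forall]
      intro d
      exact h2 d
    obtain ⟨x, hx⟩ := (dense_of_mem_residual h3).nonempty
    exact hx (ψ x n) rfl
  choose c hc using h1
  refine ⟨c, ?_⟩
  have h4 : ∀ᶠ x in residual (∀ i, A i), ∀ n, ψ x n = c n := by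
    rw [eventually_countable_forall]
    exact hc
  filter_upwards [h4] with x hx
  funext n
  exact hx n

end Pool.Agent.HK
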